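import Pool.Agent.L5helper98.XP.Up
import Pool.Agent.Results.MP_fe58d8_pr.UniformDimension

/-!
The common points of independent exploration paths: curves in natural parametrisation.
-/

set_option autoImplicit false

namespace L98X

open H984N MeasureTheory TopologicalSpace Filter Topology
open scoped ENNReal NNReal

/-- A common subsequence. -/
theorem subseq {ι : Type*} [Fintype ι] (R : ι → H984N.Rect) (δ : ι → ℕ → ℝ)
    (hδ : ∀ i n, 0 < δ i n) (hlim : ∀ i, Tendsto (δ i) atTop (𝓝 0)) :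
    ∃ φ : ℕ → ℕ, StrictMono φ ∧ ∃ μ : ι → ProbabilityMeasure X,
      ∀ i, Tendsto (fun n => (R i).law (δ i (φ n))) atTop (𝓝 (μ i)) := by
  classical
  have key : ∀ s : Finset ι, ∃ φ : ℕ → ℕ, StrictMono φ ∧ ∀ i ∈ s, ∃ μ : ProbabilityMeasure X,
      Tendsto (fun n => (R i).law (δ i (φ n))) atTop (𝓝 μ) := by
    intro s
    induction s using Finset.induction_on with
    | empty => exact ⟨id, strictMono_id, fun i hi => absurd hi (Finset.notMem_empty i)⟩
    | insert a s ha ih =>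
      obtain ⟨φ, hφ, h1⟩ := ih
      obtain ⟨ψ, hψ, μ, hμ⟩ :=
        (Pool.Agent.Results.MP_fe58d8_pr.UniformDimension.result (R a)).1 (fun n => δ a (φ n))
          (fun n => hδ a _) ((hlim a).comp hφ.tendsto_atTop)
      refine ⟨φ ∘ ψ, hφ.comp hψ, ?_⟩
      intro i hi
      rw [Finset.mem_insert] at hi
      rcases hi with rfl | hi
      · exact ⟨μ, hμ⟩
      · obtain ⟨μ', hμ'⟩ := h1 i hi
        exact ⟨μ', hμ'.comp hψ.tendsto_atTop⟩
  obtain ⟨φ, hφ, h1⟩ := key Finset.univ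
  choose μ hμ using fun i => h1 i (Finset.mem_univ i)
  exact ⟨φ, hφ, μ, hμ⟩

variable {ι : Type*} [Fintype ι]

/-- The traces of a family of curves. -/
def rgK (p : ι → X) : ι → NonemptyCompacts ℂ := fun i => H443B.rgX (p i)

/-- Transfer of an almost sure statement from the traces to the curves. -/
theorem transfer (μ : ι → ProbabilityMeasure X)
    {P : (ι → NonemptyCompacts ℂ) → Prop}
    (h : ∀ᵐ K ∂(ProbabilityMeasure.pi (fun i => (μ i).map
      H443B.rgX_cont.measurable.aemeasurable) : Measure (ι → NonemptyCompacts ℂ)), P K) :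
    ∀ᵐ p ∂(Measure.pi fun i => (μ i : Measure X)), P (rgK p) := by
  have e : (ProbabilityMeasure.pi (fun i => (μ i).map
      H443B.rgX_cont.measurable.aemeasurable) : Measure (ι → NonemptyCompacts ℂ)) =
      (Measure.pi fun i => (μ i : Measure X)).map (fun p i => H443B.rgX (p i)) := by
    rw [Measure.pi_map_pi (fun i => H443B.rgX_cont.measurable.aemeasurable)]
    rfl
  rw [e] at h
  have hm : Measurable (fun (p : ι → X) (i : ι) => H443B.rgX (p i)) :=
    measurable_pi_lambda _ fun i => H443B.rgX_cont.measurable.comp (measurable_pi_apply i)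
  exact ae_of_ae_map hm.aemeasurable h

omit [Fintype ι] in
theorem coe_rgK (p : ι → X) : (⋂ i, (rgK p i : Set ℂ)) = ⋂ i, Set.range (p i).1 := rfl

/-- the value of the dimension -/
theorem dim_val (k : ℕ) : (2 : ℝ≥0∞) - (k : ℝ≥0∞) / 4 = (8 - k) / 4 := by
  rw [ENNReal.sub_div (fun _ _ => by norm_num)]
  congr 1
  rw [ENNReal.eq_div_iff (by norm_num) (by norm_num)]
  norm_num

theorem dim_val2 {k : ℕ} (_hk : k ≤ 8) : ENNReal.ofReal (2 - (k : ℝ) / 4) = (8 - k) / 4 := by
  rw [← dim_val, ENNReal.ofReal_sub _ (by positivity),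
    ENNReal.ofReal_div_of_pos (by norm_num), ENNReal.ofReal_natCast,
      show ENNReal.ofReal 4 = 4 by simp, show ENNReal.ofReal 2 = 2 by simp]

theorem solve {x : ℝ≥0∞} {k : ℕ} (h : 7 / 4 * x = (8 - k) / 4) : x = (8 - k) / 7 := by
  have e2 : (4 / 7 : ℝ≥0∞) * (7 / 4) = 1 := by
    have a1 : (4 / 7 : ℝ≥0∞) = ENNReal.ofReal (4 / 7) := by
      rw [ENNReal.ofReal_div_of_pos (by norm_num)]; norm_num
    have a2 : (7 / 4 : ℝ≥0∞) = ENNReal.ofReal (7 / 4) := by
      rw [ENNReal.ofReal_div_of_pos (by norm_num)]; norm_num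
    rw [a1, a2, ← ENNReal.ofReal_mul (by norm_num)]
    norm_num
  calc x = 4 / 7 * (7 / 4 * x) := by rw [← mul_assoc, e2, one_mul]
    _ = 4 / 7 * ((8 - k) / 4) := by rw [h]
    _ = (8 - k) / 7 := by
      rw [div_eq_mul_inv, div_eq_mul_inv, div_eq_mul_inv]
      calc (4 : ℝ≥0∞) * 7⁻¹ * ((8 - (k : ℝ≥0∞)) * 4⁻¹) = (4 * 4⁻¹) * ((8 - k) * 7⁻¹) := by ring
        _ = _ := by rw [ENNReal.mul_inv_cancel (by norm_num) (by norm_num), one_mul]

/-- The common points of independent exploration paths. -/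
theorem finA {k : ℕ} (hk : 0 < k) (R : Fin k → H984N.Rect) (δ : Fin k → ℕ → ℝ)
    (hδ : ∀ i n, 0 < δ i n) (hlim : ∀ i, Tendsto (δ i) atTop (𝓝 0))
    (μ : Fin k → ProbabilityMeasure X)
    (hμ : ∀ i, Tendsto (fun n => (R i).law (δ i n)) atTop (𝓝 (μ i))) :
    ∀ᵐ p ∂(Measure.pi fun i => (μ i : Measure X)),
      dimH ((⋂ i, Set.range (p i).1) ∩ ⋂ i, (R i).D) = (8 - k) / 4 ∧
      (∀ j, dimH {s : unitInterval | (p j).1 s ∈ (⋂ i, Set.range (p i).1) ∩ ⋂ i, (R i).D} =
        (8 - k) / 7) ∧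
      (∀ ρ : ℝ, 0 < ρ → dimH (((⋂ i, Set.range (p i).1) ∩ ⋂ i, (R i).D) ∩ Metric.ball 0 ρ) =
        (8 - k) / 4) ∧
      (9 ≤ k → (⋂ i, Set.range (p i).1) ∩ (⋂ i, (R i).D) = ∅) := by
  have hne : Nonempty (Fin k) := ⟨⟨0, hk⟩⟩
  have hμ' : ∀ i, Tendsto (fun n => (H443B.toE (R i)).law (hδ i n)) atTop
      (𝓝 ((μ i).map H443B.rgX_cont.measurable.aemeasurable)) := fun i =>
    H443B.limit_trace (R i) (hδ i) (hlim i) (hμ i)
  have hup := transfer μ (fixedK (fun i => H443B.toE (R i)) δ hδ hlim _ hμ'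
    (A := ⋂ i, (H443B.toE (R i)).D) subset_rfl)
  have hlow : ∀ᵐ p ∂(Measure.pi fun i => (μ i : Measure X)), ∀ n m : ℕ,
      0 < 2 - (k : ℝ) / 4 - 1 / ((n : ℝ) + 1) →
      ENNReal.ofReal (2 - (k : ℝ) / 4 - 1 / ((n : ℝ) + 1)) ≤
        dimH ((⋂ i, (rgK p i : Set ℂ)) ∩ (⋂ i, (H443B.toE (R i)).D) ∩
          Metric.ball 0 (1 / ((m : ℝ) + 1))) := by
    rw [ae_all_iff]
    intro n
    rw [ae_all_iff]
    intro m
    by_cases h0 : 0 < 2 - (k : ℝ) / 4 - 1 / ((n : ℝ) + 1)
    · have hn : 0 < 1 / ((n : ℝ) + 1) := by positivity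
      have h1 := transfer μ (lowA (fun i => H443B.toE (R i)) δ hδ hlim _ hμ' h0 (by
        rw [Fintype.card_fin]
        linarith) (ρ := 1 / ((m : ℝ) + 1)) (by positivity))
      filter_upwards [h1] with p hp _
      exact hp
    · exact Eventually.of_forall fun p h => absurd h h0
  have huni : ∀ᵐ p ∂(Measure.pi fun i => (μ i : Measure X)), ∀ j,
      ∀ E : Set unitInterval, dimH ((p j).1 '' E) = 7 / 4 * dimH E := by
    rw [ae_all_iff]
    intro j
    have h1 := (Pool.Agent.Results.MP_fe58d8_pr.UniformDimension.result (R j)).2 (δ j) (hδ j)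
      (hlim j) (μ j) (hμ j)
    exact (Measure.quasiMeasurePreserving_eval (μ := fun i => (μ i : Measure X)) j).ae h1
  filter_upwards [hup, hlow, huni] with p h1 h2 h3
  rw [coe_rgK] at h1
  simp only [coe_rgK] at h2
  set W : Set ℂ := ⋂ i, (R i).D with hW
  have eW : (⋂ i, (H443B.toE (R i)).D) = W := rfl
  rw [eW] at h1
  simp only [eW] at h2
  set K : Set ℂ := ⋂ i, Set.range (p i).1 with hK
  rw [Fintype.card_fin] at h1
  have hW2 : dimH W ≤ 2 := by
    have h5 := dimH_mono (Set.subset_univ W)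
    rw [Real.dimH_univ_eq_finrank ℂ, Complex.finrank_real_complex] at h5
    exact_mod_cast h5
  have hupper : dimH (K ∩ W) ≤ (8 - k) / 4 := by
    rw [← dim_val]
    exact h1.1.trans (tsub_le_tsub_right hW2 _)
  have hloc : ∀ ρ : ℝ, 0 < ρ → (8 - k) / 4 ≤ dimH ((K ∩ W) ∩ Metric.ball 0 ρ) := by
    intro ρ hρ
    rcases lt_or_ge k 8 with hk8 | hk8
    · rw [← dim_val2 hk8.le]
      obtain ⟨m, hm⟩ := exists_nat_one_div_lt hρ
      have hlim2 : Tendsto (fun n : ℕ => ENNReal.ofReal (2 - (k : ℝ) / 4 - 1 / ((n : ℝ) + 1)))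
          atTop (𝓝 (ENNReal.ofReal (2 - (k : ℝ) / 4 - 0))) := by
        apply ENNReal.tendsto_ofReal
        exact tendsto_const_nhds.sub tendsto_one_div_add_atTop_nhds_zero_nat
      rw [sub_zero] at hlim2
      apply le_of_tendsto hlim2
      have hk8' : (k : ℝ) ≤ 7 := by
        have : k ≤ 7 := by omega
        exact_mod_cast this
      have hev : ∀ᶠ n : ℕ in atTop, 1 / ((n : ℝ) + 1) < 1 / 4 :=
        tendsto_one_div_add_atTop_nhds_zero_nat.eventually_lt_const (by norm_num)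
      filter_upwards [hev] with n hn
      refine (h2 n m (by linarith)).trans (dimH_mono ?_)
      exact Set.inter_subset_inter_right _ (Metric.ball_subset_ball hm.le)
    · have h5 : (8 : ℝ≥0∞) - k = 0 := by
        apply tsub_eq_zero_of_le
        exact_mod_cast hk8
      rw [h5, ENNReal.zero_div]
      exact zero_le
  have hdim : dimH (K ∩ W) = (8 - k) / 4 :=
    le_antisymm hupper ((hloc 1 one_pos).trans (dimH_mono Set.inter_subset_left))
  refine ⟨hdim, ?_, ?_, ?_⟩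
  · intro j
    apply solve
    rw [← h3 j, ← hdim]
    congr 1
    ext z
    constructor
    · rintro ⟨s, hs, rfl⟩
      exact hs
    · intro hz
      obtain ⟨s, hs⟩ := Set.mem_iInter.mp hz.1 j
      refine ⟨s, ?_, hs⟩
      show (p j).1 s ∈ K ∩ W
      rw [hs]
      exact hz
  · intro ρ hρ
    exact le_antisymm ((dimH_mono Set.inter_subset_left).trans hupper) (hloc ρ hρ)
  · intro hk9
    apply h1.2
    refine hW2.trans_lt ?_
    have : (2 : ℝ≥0∞) < 9 / 4 := by
      rw [ENNReal.lt_div_iff_mul_lt (by norm_num) (by norm_num)]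
      norm_num
    refine this.trans_le ?_
    gcongr
    exact_mod_cast hk9

end L98X
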