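import Pool.Agent.L5helper98.XP.Prod

/-!
Second moment method for independent configurations.
-/

set_option autoImplicit false

namespace L98X

open H974 H973 H12S H934E Finset MeasureTheory TopologicalSpace

variable {ι : Type*} [Fintype ι] [DecidableEq ι]

open Classical in
/-- The points at which the events occur in all configurations. -/
noncomputable def VV (T : Finset ℂ) (A : ι → ℂ → Finset Edg → Prop) (G : Finset (ι × Edg)) :
    Finset ℂ := T.filter (fun x => ∀ i, A i x (sec G i))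

theorem mem_VV {T : Finset ℂ} {A : ι → ℂ → Finset Edg → Prop} {G : Finset (ι × Edg)} {x : ℂ} :
    x ∈ VV T A G ↔ x ∈ T ∧ ∀ i, A i x (sec G i) := by
  classical
  unfold VV
  rw [Finset.mem_filter]

/-- The kernel. -/
noncomputable def ker (r t : ℝ) (x y : ℂ) : ℝ := (max (dist x y) r) ^ (-t)

theorem ker_pos {r : ℝ} (hr : 0 < r) (t : ℝ) (x y : ℂ) : 0 < ker r t x y :=
  Real.rpow_pos_of_pos (lt_of_lt_of_le hr (le_max_right _ _)) _

/-- The good event. -/
def Gd (T : Finset ℂ) (m : ℂ → ℝ) (A : ι → ℂ → Finset Edg → Prop) (r t E0 : ℝ)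
    (G : Finset (ι × Edg)) : Prop :=
  0 < ∑ x ∈ VV T A G, m x ∧
    ∑ x ∈ VV T A G, ∑ y ∈ VV T A G, m x * m y * ker r t x y ≤ E0 * (∑ x ∈ VV T A G, m x) ^ 2

theorem sum_VV (T : Finset ℂ) (A : ι → ℂ → Finset Edg → Prop) (G : Finset (ι × Edg))
    (f : ℂ → ℝ) : ∑ x ∈ VV T A G, f x = ∑ x ∈ T, f x * ind (∀ i, A i x (sec G i)) := by
  classical
  unfold VV
  rw [Finset.sum_filter]
  apply Finset.sum_congr rfl
  intro x _
  by_cases h : ∀ i, A i x (sec G i)
  · rw [if_pos h, ind_of h, mul_one]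
  · rw [if_neg h, ind_not_of h, mul_zero]

theorem sum_VV2 (T : Finset ℂ) (A : ι → ℂ → Finset Edg → Prop) (G : Finset (ι × Edg))
    (f : ℂ → ℂ → ℝ) : ∑ x ∈ VV T A G, ∑ y ∈ VV T A G, f x y =
      ∑ x ∈ T, ∑ y ∈ T, f x y * ind (∀ i, A i x (sec G i) ∧ A i y (sec G i)) := by
  rw [sum_VV T A G (fun x => ∑ y ∈ VV T A G, f x y)]
  apply Finset.sum_congr rfl
  intro x _
  rw [sum_VV T A G (fun y => f x y), Finset.sum_mul]
  apply Finset.sum_congr rfl
  intro y _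
  rw [mul_assoc, ← ind_and]
  congr 1
  apply ind_congr
  constructor
  · rintro ⟨h1, h2⟩ i
    exact ⟨h2 i, h1 i⟩
  · intro h
    exact ⟨fun i => (h i).2, fun i => (h i).1⟩

/-- Expectation of a double sum. -/
theorem E_sum2 (S : ι → Finset Edg) (T : Finset ℂ) (A : ι → ℂ → Finset Edg → Prop)
    {m : ℂ → ℝ} (hm : ∀ x ∈ T, 0 ≤ m x) {C r h t : ℝ} (hr : 0 < r) (hh : 0 < h)
    (hU : ∀ i, ∀ x ∈ T, ∀ y ∈ T, Q (S i) (fun F => A i x F ∧ A i y F) ≤
      C * (r / h) ^ (1/4 : ℝ) * (r / max (dist x y) r) ^ (1/4 : ℝ)) :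
    EK S (fun G => ∑ x ∈ VV T A G, ∑ y ∈ VV T A G, m x * m y * ker r t x y) ≤
      C ^ (Fintype.card ι) * (r / h) ^ ((Fintype.card ι : ℝ) / 4) *
        r ^ ((Fintype.card ι : ℝ) / 4) *
        ∑ x ∈ T, ∑ y ∈ T, m x * m y * ker r ((Fintype.card ι : ℝ) / 4 + t) x y := by
  set N := Fintype.card ι with hN
  have e0 : EK S (fun G => ∑ x ∈ VV T A G, ∑ y ∈ VV T A G, m x * m y * ker r t x y) =
      ∑ x ∈ T, ∑ y ∈ T, m x * m y * ker r t x y *
        ∏ i, Q (S i) (fun F => A i x F ∧ A i y F) := by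
    have e1 : (fun G : Finset (ι × Edg) =>
        ∑ x ∈ VV T A G, ∑ y ∈ VV T A G, m x * m y * ker r t x y) = fun G =>
        ∑ x ∈ T, ∑ y ∈ T, m x * m y * ker r t x y *
          ind (∀ i, A i x (sec G i) ∧ A i y (sec G i)) := by
      funext G
      exact sum_VV2 T A G (fun x y => m x * m y * ker r t x y)
    rw [e1]
    unfold EK
    rw [Ex_sum]
    apply Finset.sum_congr rfl
    intro x _
    rw [Ex_sum]
    apply Finset.sum_congr rfl
    intro y _
    rw [Ex_mul_left]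
    congr 1
    exact QK_forall S (fun i F => A i x F ∧ A i y F)
  rw [e0, Finset.mul_sum]
  apply Finset.sum_le_sum
  intro x hx
  rw [Finset.mul_sum]
  apply Finset.sum_le_sum
  intro y hy
  set M : ℝ := max (dist x y) r with hM
  have hM0 : 0 < M := lt_of_lt_of_le hr (le_max_right _ _)
  have h1 : ∏ i, Q (S i) (fun F => A i x F ∧ A i y F) ≤
      ∏ _i : ι, (C * (r / h) ^ (1/4 : ℝ) * (r / M) ^ (1/4 : ℝ)) :=
    Finset.prod_le_prod (fun i _ => Q_nonneg _ _) (fun i _ => hU i x hx y hy)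
  rw [Finset.prod_const, Finset.card_univ, ← hN] at h1
  have e2 : (C * (r / h) ^ (1/4 : ℝ) * (r / M) ^ (1/4 : ℝ)) ^ N =
      C ^ N * (r / h) ^ ((N : ℝ) / 4) * (r / M) ^ ((N : ℝ) / 4) := by
    rw [mul_pow, mul_pow, ← Real.rpow_natCast ((r / h) ^ (1/4 : ℝ)) N,
      ← Real.rpow_natCast ((r / M) ^ (1/4 : ℝ)) N, ← Real.rpow_mul (by positivity),
      ← Real.rpow_mul (by positivity), show (1/4 : ℝ) * (N : ℝ) = (N : ℝ) / 4 by ring]
  have e3 : ker r ((N : ℝ) / 4 + t) x y = ker r t x y * M ^ (-((N : ℝ) / 4)) := by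
    unfold ker
    rw [← hM, ← Real.rpow_add hM0]
    congr 1
    ring
  have e4 : (r / M) ^ ((N : ℝ) / 4) = r ^ ((N : ℝ) / 4) * M ^ (-((N : ℝ) / 4)) := by
    rw [Real.div_rpow hr.le hM0.le, Real.rpow_neg hM0.le]
    exact div_eq_mul_inv _ _
  have hk := ker_pos hr t x y
  have hmm : 0 ≤ m x * m y * ker r t x y := mul_nonneg (mul_nonneg (hm x hx) (hm y hy)) hk.le
  calc m x * m y * ker r t x y * ∏ i, Q (S i) (fun F => A i x F ∧ A i y F)
      ≤ m x * m y * ker r t x y * (C ^ N * (r / h) ^ ((N : ℝ) / 4) * (r / M) ^ ((N : ℝ) / 4)) :=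
        mul_le_mul_of_nonneg_left (h1.trans (le_of_eq e2)) hmm
    _ = C ^ N * (r / h) ^ ((N : ℝ) / 4) * r ^ ((N : ℝ) / 4) *
        (m x * m y * ker r ((N : ℝ) / 4 + t) x y) := by
        rw [e3, e4]; ring

/-- The second moment method. -/
theorem mom {c C Λ D0 t : ℝ} (hc : 0 < c) (hC : 0 < C) (hΛ : 0 < Λ) (hD : 0 < D0) (ht : 0 < t) :
    ∃ p E0 : ℝ, 0 < p ∧ p ≤ 1 ∧ 0 < E0 ∧ ∀ (S : ι → Finset Edg)
      (A : ι → ℂ → Finset Edg → Prop) (T : Finset ℂ) (m : ℂ → ℝ) (r h : ℝ), 0 < r → 0 < h →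
      (∀ x ∈ T, 0 ≤ m x) → 0 < ∑ x ∈ T, m x →
      (∀ i, ∀ x ∈ T, c * (r / h) ^ (1/4 : ℝ) ≤ Q (S i) (A i x)) →
      (∀ i, ∀ x ∈ T, ∀ y ∈ T, Q (S i) (fun F => A i x F ∧ A i y F) ≤
        C * (r / h) ^ (1/4 : ℝ) * (r / max (dist x y) r) ^ (1/4 : ℝ)) →
      (∀ x ∈ T, ∀ y ∈ T, max (dist x y) r ≤ D0 * h) →
      ∑ x ∈ T, ∑ y ∈ T, m x * m y * ker r ((Fintype.card ι : ℝ) / 4 + t) x y ≤
        Λ * (∑ x ∈ T, m x) ^ 2 * h ^ (-((Fintype.card ι : ℝ) / 4 + t)) →
      p ≤ QK S (Gd T m A r t (E0 * h ^ (-t))) := by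
  set N := Fintype.card ι with hN
  set p0 : ℝ := (c ^ N) ^ 2 / (4 * (C ^ N * D0 ^ t * Λ)) / 2 with hp0
  have hp0' : 0 < p0 := by positivity
  refine ⟨min p0 1, 4 * (C ^ N * Λ) / (p0 * (c ^ N) ^ 2), lt_min hp0' one_pos, min_le_right _ _,
    by positivity, ?_⟩
  intro S A T m r h hr hh hm hM hL hU hD2 hI
  refine (min_le_left _ _).trans ?_
  set M : ℝ := ∑ x ∈ T, m x with hMdef
  set q : ℝ := (r / h) ^ ((N : ℝ) / 4) with hq
  have hq0 : 0 < q := by positivity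
  have hrh : r ^ ((N : ℝ) / 4) * h ^ (-((N : ℝ) / 4)) = q := by
    rw [hq, Real.div_rpow hr.le hh.le, Real.rpow_neg hh.le]
    exact (div_eq_mul_inv _ _).symm
  set X : Finset (ι × Edg) → ℝ := fun G => ∑ x ∈ VV T A G, m x with hX
  have hVT : ∀ G, ∀ x ∈ VV T A G, x ∈ T := by
    intro G x hx
    exact (mem_VV.mp hx).1
  have hX0 : ∀ G, 0 ≤ X G := fun G => Finset.sum_nonneg fun x hx => hm x (hVT G x hx)
  set En : Finset (ι × Edg) → ℝ := fun G =>
    ∑ x ∈ VV T A G, ∑ y ∈ VV T A G, m x * m y * ker r t x y with hEn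
  have hEn0 : ∀ G, 0 ≤ En G := fun G => Finset.sum_nonneg fun x hx => Finset.sum_nonneg fun y hy =>
    mul_nonneg (mul_nonneg (hm x (hVT G x hx)) (hm y (hVT G y hy))) (ker_pos hr t x y).le
  -- first moment
  have l1 : M * (c ^ N * q) ≤ EK S X := by
    have e1 : EK S X = ∑ x ∈ T, m x * ∏ i, Q (S i) (A i x) := by
      have e0 : X = fun G => ∑ x ∈ T, m x * ind (∀ i, A i x (sec G i)) := by
        funext G
        exact sum_VV T A G m
      rw [e0]
      unfold EK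
      rw [Ex_sum]
      apply Finset.sum_congr rfl
      intro x _
      rw [Ex_mul_left]
      congr 1
      exact QK_forall S (fun i F => A i x F)
    rw [e1, hMdef, Finset.sum_mul]
    apply Finset.sum_le_sum
    intro x hx
    apply mul_le_mul_of_nonneg_left _ (hm x hx)
    have h1 : ∏ _i : ι, (c * (r / h) ^ (1/4 : ℝ)) ≤ ∏ i, Q (S i) (A i x) :=
      Finset.prod_le_prod (fun i _ => by positivity) (fun i _ => hL i x hx)
    rw [Finset.prod_const, Finset.card_univ, ← hN, mul_pow,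
      ← Real.rpow_natCast ((r / h) ^ (1/4 : ℝ)) N, ← Real.rpow_mul (by positivity),
      show (1/4 : ℝ) * (N : ℝ) = (N : ℝ) / 4 by ring] at h1
    exact h1
  -- energy
  have l2 : EK S En ≤ C ^ N * q ^ 2 * Λ * M ^ 2 * h ^ (-t) := by
    have h1 := E_sum2 S T A hm hr hh (t := t) hU
    rw [← hN] at h1
    refine h1.trans ?_
    have h2 : 0 ≤ C ^ N * (r / h) ^ ((N : ℝ) / 4) * r ^ ((N : ℝ) / 4) := by positivity
    refine (mul_le_mul_of_nonneg_left hI h2).trans (le_of_eq ?_)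
    rw [← hq]
    have e5 : h ^ (-((N : ℝ) / 4 + t)) = h ^ (-((N : ℝ) / 4)) * h ^ (-t) := by
      rw [← Real.rpow_add hh]
      congr 1
      ring
    rw [e5]
    calc C ^ N * q * r ^ ((N : ℝ) / 4) * (Λ * M ^ 2 * (h ^ (-((N : ℝ) / 4)) * h ^ (-t)))
        = C ^ N * q * (r ^ ((N : ℝ) / 4) * h ^ (-((N : ℝ) / 4))) * Λ * M ^ 2 * h ^ (-t) := by ring
      _ = _ := by rw [hrh]; ring
  -- second moment
  have l3 : EK S (fun G => X G * X G) ≤ C ^ N * q ^ 2 * D0 ^ t * Λ * M ^ 2 := by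
    have e0 : ∀ G, X G * X G ≤ (D0 * h) ^ t * En G := by
      intro G
      simp only [hX, hEn]
      rw [Finset.sum_mul_sum, Finset.mul_sum]
      apply Finset.sum_le_sum
      intro x hx
      rw [Finset.mul_sum]
      apply Finset.sum_le_sum
      intro y hy
      have h1 := hD2 x (hVT G x hx) y (hVT G y hy)
      have h0 : 0 < max (dist x y) r := lt_of_lt_of_le hr (le_max_right _ _)
      have h3 : 1 ≤ (D0 * h) ^ t * ker r t x y := by
        unfold ker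
        rw [Real.rpow_neg h0.le, ← div_eq_mul_inv, le_div_iff₀ (by positivity), one_mul]
        exact Real.rpow_le_rpow h0.le h1 ht.le
      have h4 : 0 ≤ m x * m y := mul_nonneg (hm x (hVT G x hx)) (hm y (hVT G y hy))
      calc m x * m y ≤ m x * m y * ((D0 * h) ^ t * ker r t x y) := le_mul_of_one_le_right h4 h3
        _ = _ := by ring
    have e1 : EK S (fun G => X G * X G) ≤ (D0 * h) ^ t * EK S En := by
      unfold EK
      rw [← Ex_mul_left]
      exact Ex_mono hf_ok fun G _ => e0 G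
    refine e1.trans ((mul_le_mul_of_nonneg_left l2 (by positivity)).trans (le_of_eq ?_))
    rw [Real.mul_rpow hD.le hh.le, Real.rpow_neg hh.le]
    field_simp
  have k := paleyK (S := S) (f := X) hX0 (m := M * (c ^ N * q))
    (V := C ^ N * q ^ 2 * D0 ^ t * Λ * M ^ 2) (by positivity) (by positivity) l1 l3
  have e3 : (M * (c ^ N * q)) ^ 2 / (4 * (C ^ N * q ^ 2 * D0 ^ t * Λ * M ^ 2)) = 2 * p0 := by
    rw [hp0]
    field_simp
  rw [e3] at k
  set B : ℝ := C ^ N * q ^ 2 * Λ * M ^ 2 * h ^ (-t) / p0 with hB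
  have hB0 : 0 < B := by positivity
  have i2 := markovK (S := S) (f := En) hEn0 (t := B) hB0
  have i3 : EK S En / B ≤ p0 := by
    rw [div_le_iff₀ hB0, hB]
    refine l2.trans (le_of_eq ?_)
    field_simp
  have i4 : QK S (fun G => M * (c ^ N * q) / 2 ≤ X G) ≤
      QK S (Gd T m A r t (4 * (C ^ N * Λ) / (p0 * (c ^ N) ^ 2) * h ^ (-t))) +
      QK S (fun G => B ≤ En G) := by
    refine le_trans ?_ (Pr_or_le hf_ok (tot S) _ _)
    apply Pr_mono hf_ok
    intro G _ hG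
    by_cases h5 : B ≤ En G
    · exact Or.inr h5
    · left
      push Not at h5
      have hpos : 0 < X G := lt_of_lt_of_le (by positivity) hG
      refine ⟨hpos, ?_⟩
      have h6 : (M * (c ^ N * q) / 2) ^ 2 ≤ X G ^ 2 := pow_le_pow_left₀ (by positivity) hG 2
      have h7 : B = 4 * (C ^ N * Λ) / (p0 * (c ^ N) ^ 2) * h ^ (-t) *
          (M * (c ^ N * q) / 2) ^ 2 := by
        rw [hB]
        field_simp
        norm_num
      calc En G ≤ B := h5.le
        _ = _ := h7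
        _ ≤ 4 * (C ^ N * Λ) / (p0 * (c ^ N) ^ 2) * h ^ (-t) * X G ^ 2 :=
            mul_le_mul_of_nonneg_left h6 (by positivity)
  linarith

/-- Locality of the good event. -/
theorem Gd_local {T : Finset ℂ} {m : ℂ → ℝ} {A : ι → ℂ → Finset Edg → Prop} {r t E0 : ℝ}
    {U : ι → Finset Edg} (hA : ∀ i, ∀ x ∈ T, ∀ F, A i x F ↔ A i x (F ∩ U i))
    (G : Finset (ι × Edg)) : Gd T m A r t E0 G ↔ Gd T m A r t E0 (G ∩ tot U) := by
  have e : VV T A G = VV T A (G ∩ tot U) := by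
    classical
    unfold VV
    apply Finset.filter_congr
    intro x hx
    apply forall_congr'
    intro i
    rw [sec_inter_tot, ← hA i x hx]
  unfold Gd
  rw [← e]

end L98X
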