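import Pool.Agent.H380R3.ARW.Frostman
import Pool.Agent.L5helper98.XP.Mom

/-!
Discrete Frostman lemma at all scales for compact subsets of the plane of positive Hausdorff
measure.
-/

set_option autoImplicit false

namespace L98X.Fr

open MeasureTheory Filter Topology Finset
open scoped ENNReal NNReal
open Pool.Agent.H380R3.ARW (idx dyad mem_dyad frostman)

/-- positive content -/
theorem content_pos {S : Set ℂ} {s : ℝ} (hs : 0 < s) (hμ : μH[s] S ≠ 0) :
    ∃ η : ℝ, 0 < η ∧ ∀ (N : ℕ) (U : Fin N → Set ℂ) (ρ : Fin N → ℝ), (∀ i, 0 ≤ ρ i) →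
      (∀ i, Metric.ediam (U i) ≤ ENNReal.ofReal (ρ i)) → S ⊆ ⋃ i, U i →
      η ≤ ∑ i, ρ i ^ s := by
  by_contra hcon
  push Not at hcon
  have h1 : ∀ n : ℕ, ∃ (N : ℕ) (U : Fin N → Set ℂ) (ρ : Fin N → ℝ), (∀ i, 0 ≤ ρ i) ∧
      (∀ i, Metric.ediam (U i) ≤ ENNReal.ofReal (ρ i)) ∧ S ⊆ ⋃ i, U i ∧
      ∑ i, ρ i ^ s < 1 / ((n : ℝ) + 1) := by
    intro n
    obtain ⟨N, U, ρ, a1, a2, a3, a4⟩ := hcon (1 / ((n : ℝ) + 1)) (by positivity)
    exact ⟨N, U, ρ, a1, a2, a3, a4⟩
  choose N U ρ a1 a2 a3 a4 using h1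
  apply hμ
  have hsmall : ∀ n i, ρ n i ≤ (1 / ((n : ℝ) + 1)) ^ (1 / s) := by
    intro n i
    have h2 : ρ n i ^ s ≤ 1 / ((n : ℝ) + 1) :=
      (Finset.single_le_sum (f := fun i => ρ n i ^ s)
        (fun j _ => Real.rpow_nonneg (a1 n j) _) (Finset.mem_univ i)).trans (a4 n).le
    have h3 := Real.rpow_le_rpow (Real.rpow_nonneg (a1 n i) s) h2 (by positivity : 0 ≤ 1 / s)
    rwa [← Real.rpow_mul (a1 n i), mul_one_div_cancel hs.ne', Real.rpow_one] at h3
  have hlim : Tendsto (fun n : ℕ => (1 / ((n : ℝ) + 1)) ^ (1 / s)) atTop (𝓝 0) := by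
    have h4 := (tendsto_one_div_add_atTop_nhds_zero_nat (𝕜 := ℝ)).rpow_const
      (p := 1 / s) (Or.inr (by positivity))
    rwa [Real.zero_rpow (by positivity)] at h4
  have key := Measure.hausdorffMeasure_le_liminf_sum (l := atTop) (ι := fun n => Fin (N n)) s S
    (fun n : ℕ => ENNReal.ofReal ((1 / ((n : ℝ) + 1)) ^ (1 / s)))
    (by
      have h5 := ENNReal.tendsto_ofReal hlim
      rwa [ENNReal.ofReal_zero] at h5)
    U (Eventually.of_forall fun n i => (a2 n i).trans (ENNReal.ofReal_le_ofReal (hsmall n i)))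
    (Eventually.of_forall a3)
  refine le_antisymm (key.trans ?_) zero_le
  have hlim2 : Tendsto (fun n : ℕ => ENNReal.ofReal (1 / ((n : ℝ) + 1))) atTop (𝓝 0) := by
    have h5 := ENNReal.tendsto_ofReal (tendsto_one_div_add_atTop_nhds_zero_nat (𝕜 := ℝ))
    rwa [ENNReal.ofReal_zero] at h5
  rw [← hlim2.liminf_eq]
  refine liminf_le_liminf (Eventually.of_forall fun n => ?_)
  refine le_trans ?_ (ENNReal.ofReal_le_ofReal (a4 n).le)
  rw [ENNReal.ofReal_sum_of_nonneg (fun i _ => Real.rpow_nonneg (a1 n i) s)]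
  apply Finset.sum_le_sum
  intro i _
  rw [← ENNReal.ofReal_rpow_of_nonneg (a1 n i) hs.le]
  exact ENNReal.rpow_le_rpow (a2 n i) hs.le

/-- The cell of `x`. -/
noncomputable def cell (r : ℝ) (x : ℂ) : Fin 2 → ℤ := ![⌊x.re / r⌋, ⌊x.im / r⌋]

theorem cell_near {r : ℝ} (hr : 0 < r) {x y : ℂ} (l : ℕ)
    (h : idx l (cell r x) = idx l (cell r y)) : dist x y ≤ 2 * (2 ^ l * r) := by
  have h0 := congrFun h 0
  have h1 := congrFun h 1
  simp only [idx, cell, Matrix.cons_val_zero, Matrix.cons_val_one] at h0 h1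
  have key : ∀ a b : ℝ, ⌊a / r⌋ / 2 ^ l = ⌊b / r⌋ / 2 ^ l → |a - b| ≤ 2 ^ l * r := by
    intro a b hab
    have h2 : (0 : ℤ) < 2 ^ l := by positivity
    set q := ⌊b / r⌋ / 2 ^ l with hq
    have e1 : q * 2 ^ l ≤ ⌊a / r⌋ := by rw [← hab]; exact Int.ediv_mul_le _ h2.ne'
    have e2 : ⌊a / r⌋ < (q + 1) * 2 ^ l := by rw [← hab]; exact Int.lt_ediv_add_one_mul_self _ h2
    have e3 : q * 2 ^ l ≤ ⌊b / r⌋ := Int.ediv_mul_le _ h2.ne'
    have e4 : ⌊b / r⌋ < (q + 1) * 2 ^ l := Int.lt_ediv_add_one_mul_self _ h2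
    have f1 : ((q : ℝ)) * 2 ^ l ≤ ⌊a / r⌋ := by exact_mod_cast e1
    have f2 : (⌊a / r⌋ : ℝ) + 1 ≤ ((q : ℝ) + 1) * 2 ^ l := by exact_mod_cast e2
    have f3 : ((q : ℝ)) * 2 ^ l ≤ ⌊b / r⌋ := by exact_mod_cast e3
    have f4 : (⌊b / r⌋ : ℝ) + 1 ≤ ((q : ℝ) + 1) * 2 ^ l := by exact_mod_cast e4
    have g1 := Int.floor_le (a / r)
    have g2 := Int.lt_floor_add_one (a / r)
    have g3 := Int.floor_le (b / r)
    have g4 := Int.lt_floor_add_one (b / r)
    have k1 : |a / r - b / r| ≤ 2 ^ l := by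
      rw [abs_le]
      constructor <;> nlinarith
    have k2 : |a - b| = |a / r - b / r| * r := by
      rw [← sub_div, abs_div, abs_of_pos hr]
      field_simp
    rw [k2]
    exact mul_le_mul_of_nonneg_right k1 hr.le
  have hre := key _ _ h0
  have him := key _ _ h1
  rw [Complex.dist_eq]
  have h3 := Complex.norm_le_abs_re_add_abs_im (x - y)
  rw [Complex.sub_re, Complex.sub_im] at h3
  linarith

/-- Points in cells which are not close at the level `l` are far from each other. -/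
theorem cell_far {r : ℝ} (hr : 0 < r) {x y : ℂ} (l : ℕ) (j : Fin 2)
    (h : idx l (cell r x) j + 1 < idx l (cell r y) j) : 2 ^ l * r ≤ dist x y := by
  have key : ∀ a b : ℝ, ⌊a / r⌋ / 2 ^ l + 1 < ⌊b / r⌋ / 2 ^ l → 2 ^ l * r ≤ |a - b| := by
    intro a b hab
    have h2 : (0 : ℤ) < 2 ^ l := by positivity
    set q := ⌊b / r⌋ / 2 ^ l with hq
    set q' := ⌊a / r⌋ / 2 ^ l with hq'
    have e2 : ⌊a / r⌋ < (q' + 1) * 2 ^ l := Int.lt_ediv_add_one_mul_self _ h2
    have e3 : q * 2 ^ l ≤ ⌊b / r⌋ := Int.ediv_mul_le _ h2.ne'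
    have f2 : (⌊a / r⌋ : ℝ) + 1 ≤ ((q' : ℝ) + 1) * 2 ^ l := by exact_mod_cast e2
    have f3 : ((q : ℝ)) * 2 ^ l ≤ ⌊b / r⌋ := by exact_mod_cast e3
    have f5 : (q' : ℝ) + 2 ≤ q := by
      have : q' + 2 ≤ q := by omega
      exact_mod_cast this
    have g2 := Int.lt_floor_add_one (a / r)
    have g3 := Int.floor_le (b / r)
    have h2' : (0 : ℝ) < 2 ^ l := by positivity
    have k1 : 2 ^ l ≤ b / r - a / r := by nlinarith
    have k2 : 2 ^ l * r ≤ b - a := by
      rw [← sub_div, le_div_iff₀ hr] at k1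
      exact k1
    exact k2.trans (by rw [abs_sub_comm]; exact le_abs_self _)
  rw [Complex.dist_eq]
  fin_cases j
  · simp only [idx, cell, Matrix.cons_val_zero, Fin.zero_eta] at h
    refine (key x.re y.re h).trans ?_
    rw [← Complex.sub_re]
    exact Complex.abs_re_le_norm _
  · simp only [idx, cell, Matrix.cons_val_one, Fin.mk_one] at h
    refine (key x.im y.im h).trans ?_
    rw [← Complex.sub_im]
    exact Complex.abs_im_le_norm _

/-- The neighbours of the cube of `y` at the level `l`. -/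
noncomputable def nb (l : ℕ) (y : Fin 2 → ℤ) : Finset (Fin 2 → ℤ) :=
  Fintype.piFinset fun j => Finset.Icc (idx l y j - 1) (idx l y j + 1)

theorem nb_card (l : ℕ) (y : Fin 2 → ℤ) : (nb l y).card = 9 := by
  unfold nb
  rw [Fintype.card_piFinset]
  have : ∀ j : Fin 2, (Finset.Icc (idx l y j - 1) (idx l y j + 1)).card = 3 := by
    intro j
    rw [Int.card_Icc]
    have : idx l y j + 1 + 1 - (idx l y j - 1) = 3 := by ring
    rw [this]
    rfl
  simp only [this]
  norm_num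

theorem not_nb {r : ℝ} (hr : 0 < r) {x y : ℂ} (l : ℕ)
    (h : idx l (cell r x) ∉ nb l (cell r y)) : 2 ^ l * r ≤ dist x y := by
  unfold nb at h
  rw [Fintype.mem_piFinset] at h
  push Not at h
  obtain ⟨j, hj⟩ := h
  rw [Finset.mem_Icc, not_and_or, not_le, not_le] at hj
  rcases hj with hj | hj
  · exact cell_far hr l j (by omega)
  · rw [dist_comm]
    exact cell_far hr l j (by omega)

/-- Bound for the kernel. -/
theorem ker_bound {r a : ℝ} (hr : 0 < r) (ha : 0 ≤ a) (k : ℕ) (x y : ℂ) :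
    ker r a y x ≤ ∑ l ∈ Finset.range k, 2 ^ a * (2 ^ l * r) ^ (-a) *
        (if idx l (cell r x) ∈ nb l (cell r y) then 1 else 0) + 2 ^ a * (2 ^ k * r) ^ (-a) := by
  induction k with
  | zero =>
    rw [Finset.sum_range_zero, zero_add, pow_zero, one_mul]
    unfold ker
    have h1 : (1 : ℝ) ≤ 2 ^ a := Real.one_le_rpow (by norm_num) ha
    have h2 : (max (dist y x) r) ^ (-a) ≤ r ^ (-a) :=
      Real.rpow_le_rpow_of_nonpos hr (le_max_right _ _) (by linarith)
    have h3 : 0 < r ^ (-a) := Real.rpow_pos_of_pos hr _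
    nlinarith
  | succ k ih =>
    rw [Finset.sum_range_succ]
    have hpk : (0 : ℝ) < 2 ^ k * r := by positivity
    have hnn : 0 ≤ ∑ l ∈ Finset.range k, 2 ^ a * (2 ^ l * r) ^ (-a) *
        (if idx l (cell r x) ∈ nb l (cell r y) then (1 : ℝ) else 0) := by
      apply Finset.sum_nonneg
      intro l _
      have : (0 : ℝ) ≤ (2 ^ l * r) ^ (-a) := by positivity
      split_ifs <;> positivity
    have hnn2 : (0 : ℝ) ≤ 2 ^ a * (2 ^ (k + 1) * r) ^ (-a) := by positivity
    by_cases h : idx k (cell r x) ∈ nb k (cell r y)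
    · rw [if_pos h, mul_one]
      linarith
    · rw [if_neg h, mul_zero, add_zero]
      have h1 := not_nb hr k h
      have h2 : ker r a y x ≤ 2 ^ a * (2 ^ (k + 1) * r) ^ (-a) := by
        unfold ker
        have e : (2 : ℝ) ^ a * (2 ^ (k + 1) * r) ^ (-a) = (2 ^ k * r) ^ (-a) := by
          rw [show (2 : ℝ) ^ (k + 1) * r = 2 * (2 ^ k * r) by ring,
            Real.mul_rpow (by norm_num) hpk.le, ← mul_assoc, ← Real.rpow_add (by norm_num)]
          simp
        rw [e]
        apply Real.rpow_le_rpow_of_nonpos hpk _ (by linarith)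
        rw [dist_comm]
        exact h1.trans (le_max_left _ _)
      linarith

/-- geometric sum -/
theorem geo {r q : ℝ} (hq : 0 < q) (k : ℕ) (_hr : 0 < r) (hk : 2 ^ k * r = 1) :
    ∑ l ∈ Finset.range k, (2 ^ l * r) ^ q ≤ 1 / (1 - 2 ^ (-q)) := by
  have h1 : ∀ l ∈ Finset.range k, ((2 : ℝ) ^ l * r) ^ q ≤ (2 ^ (-q)) ^ (k - 1 - l) := by
    intro l hl
    rw [Finset.mem_range] at hl
    have e : (2 : ℝ) ^ l * r = 2 ^ (-((k - l : ℕ) : ℝ)) := by
      rw [Real.rpow_neg (by norm_num), Real.rpow_natCast]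
      have h3 : (2 : ℝ) ^ (k - l) * 2 ^ l = 2 ^ k := by
        rw [← pow_add]; congr 1; omega
      apply eq_inv_of_mul_eq_one_left
      calc (2 : ℝ) ^ l * r * 2 ^ (k - l) = (2 ^ (k - l) * 2 ^ l) * r := by ring
        _ = 1 := by rw [h3, hk]
    rw [e, ← Real.rpow_mul (by norm_num), ← Real.rpow_natCast, ← Real.rpow_mul (by norm_num)]
    apply Real.rpow_le_rpow_of_exponent_le (by norm_num)
    have h4 : ((k - 1 - l : ℕ) : ℝ) ≤ ((k - l : ℕ) : ℝ) := by
      have : k - 1 - l ≤ k - l := by omega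
      exact_mod_cast this
    nlinarith
  have h2 : (2 : ℝ) ^ (-q) < 1 := Real.rpow_lt_one_of_one_lt_of_neg (by norm_num) (by linarith)
  have h3 : (0 : ℝ) < 2 ^ (-q) := by positivity
  calc ∑ l ∈ Finset.range k, ((2 : ℝ) ^ l * r) ^ q ≤
        ∑ l ∈ Finset.range k, ((2 : ℝ) ^ (-q)) ^ (k - 1 - l) := Finset.sum_le_sum h1
    _ = ∑ l ∈ Finset.range k, ((2 : ℝ) ^ (-q)) ^ l := Finset.sum_range_reflect _ k
    _ ≤ 1 / (1 - 2 ^ (-q)) := by
      rw [geom_sum_eq h2.ne k]
      rw [← neg_div_neg_eq, neg_sub, neg_sub]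
      apply div_le_div_of_nonneg_right _ (by linarith)
      have : (0 : ℝ) ≤ (2 ^ (-q)) ^ k := by positivity
      linarith

/-- Frostman weights at all scales. -/
theorem frost {S : Set ℂ} (hS : IsCompact S) {s a : ℝ} (ha : 0 ≤ a) (has : a < s)
    (hμ : μH[s] S ≠ 0) : ∃ Λ : ℝ, 0 < Λ ∧ ∀ m : ℕ, ∃ (T : Finset ℂ) (w : ℂ → ℝ),
      (∀ x ∈ T, x ∈ S) ∧ (∀ x ∈ T, 0 ≤ w x) ∧ 0 < ∑ x ∈ T, w x ∧
      ∑ x ∈ T, ∑ y ∈ T, w x * w y * ker ((1/2) ^ m) a x y ≤ Λ * (∑ x ∈ T, w x) ^ 2 := by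
  classical
  have hs : 0 < s := lt_of_le_of_lt ha has
  obtain ⟨η, hη, hcont⟩ := content_pos hs hμ
  set q : ℝ := s - a with hq
  have hq0 : 0 < q := by linarith
  have h2q : (2 : ℝ) ^ (-q) < 1 := Real.rpow_lt_one_of_one_lt_of_neg (by norm_num) (by linarith)
  set G : ℝ := 1 / (1 - 2 ^ (-q)) with hG
  have hG0 : 0 < G := by
    apply div_pos one_pos
    linarith
  set M0 : ℝ := η / 2 ^ s with hM0
  have hM00 : 0 < M0 := by positivity
  refine ⟨2 ^ a * (9 * G) / M0 + 2 ^ a, by positivity, ?_⟩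
  intro m
  set r : ℝ := (1/2) ^ m with hr
  have hr0 : 0 < r := by positivity
  have hkr : (2 : ℝ) ^ m * r = 1 := by
    rw [hr, ← mul_pow]; norm_num
  -- the cells
  have hfin : (cell r '' S).Finite := by
    obtain ⟨B, hB⟩ := hS.isBounded.subset_closedBall 0
    set b : ℤ := ⌈(|B|) / r⌉ + 1 with hb
    apply (Fintype.piFinset (fun _ : Fin 2 => Finset.Icc (-b) b)).finite_toSet.subset
    rintro _ ⟨x, hx, rfl⟩
    rw [Finset.mem_coe, Fintype.mem_piFinset]
    have hxB := hB hx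
    rw [mem_closedBall_zero_iff] at hxB
    have hB' : ‖x‖ ≤ |B| := hxB.trans (le_abs_self B)
    have key : ∀ u : ℝ, |u| ≤ |B| → ⌊u / r⌋ ∈ Finset.Icc (-b) b := by
      intro u hu
      rw [abs_le] at hu
      have c1 : |B| / r ≤ (b : ℝ) - 1 := by
        rw [hb]
        push_cast
        have := Int.le_ceil (|B| / r)
        linarith
      have c2 : u / r ≤ |B| / r := div_le_div_of_nonneg_right hu.2 hr0.le
      have c3 : -(|B| / r) ≤ u / r := by
        rw [← neg_div]
        exact div_le_div_of_nonneg_right hu.1 hr0.le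
      rw [Finset.mem_Icc]
      constructor
      · rw [Int.le_floor]
        push_cast
        linarith
      · have := Int.floor_le (u / r)
        have c4 : (⌊u / r⌋ : ℝ) ≤ b := by linarith
        exact_mod_cast c4
    intro j
    fin_cases j
    · exact key x.re ((Complex.abs_re_le_norm x).trans hB')
    · exact key x.im ((Complex.abs_im_le_norm x).trans hB')
  set F : Finset (Fin 2 → ℤ) := hfin.toFinset with hF
  have hFm : ∀ v, v ∈ F ↔ ∃ x ∈ S, cell r x = v := by
    intro v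
    rw [hF, Set.Finite.mem_toFinset]
    rfl
  choose! pt hptS hptc using fun v (hv : v ∈ F) => (hFm v).mp hv
  obtain ⟨ν, n0, -, ncap, C, hC1, hC2⟩ := frostman m (fun l => ((2 : ℝ) ^ l * r) ^ s)
    (fun l => by positivity) F
  set M : ℝ := ∑ v ∈ F, ν v with hM
  -- the total mass
  have hMlow : M0 ≤ M := by
    have h1 := hcont C.card (fun i => {x : ℂ | cell r x ∈ dyad ((C.equivFin.symm i : ℕ × (Fin 2 → ℤ)))})
      (fun i => 2 * ((2 : ℝ) ^ ((C.equivFin.symm i : ℕ × (Fin 2 → ℤ))).1 * r))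
      (fun i => by positivity) (by
        intro i
        apply Metric.ediam_le
        intro x hx y hy
        rw [edist_dist]
        apply ENNReal.ofReal_le_ofReal
        simp only [Set.mem_ofPred_eq] at hx hy
        apply cell_near hr0
        generalize ((C.equivFin.symm i : ℕ × (Fin 2 → ℤ))) = c at hx hy ⊢
        obtain ⟨l, b⟩ := c
        rw [mem_dyad] at hx hy
        rw [hx, hy]) (by
        intro x hx
        obtain ⟨c, hc, hxc⟩ := hC1 (cell r x) ((hFm _).mpr ⟨x, hx, rfl⟩)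
        rw [Set.mem_iUnion]
        refine ⟨C.equivFin ⟨c, hc⟩, ?_⟩
        simp only [Equiv.symm_apply_apply, Set.mem_ofPred_eq]
        exact hxc)
    have h2 : ∑ i : Fin C.card, (2 * ((2 : ℝ) ^ ((C.equivFin.symm i : ℕ × (Fin 2 → ℤ))).1 * r)) ^ s =
        2 ^ s * ∑ c ∈ C, ((2 : ℝ) ^ c.1 * r) ^ s := by
      rw [Finset.mul_sum, ← Finset.sum_coe_sort C]
      rw [← Equiv.sum_comp C.equivFin.symm]
      apply Finset.sum_congr rfl
      intro i _
      rw [Real.mul_rpow (by norm_num) (by positivity)]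
    rw [h2] at h1
    rw [hM0, div_le_iff₀ (by positivity)]
    have h3 : (0 : ℝ) < 2 ^ s := by positivity
    nlinarith
  have hMpos : 0 < M := lt_of_lt_of_le hM00 hMlow
  -- transport
  have hinj : Set.InjOn pt (F : Set (Fin 2 → ℤ)) := by
    intro v hv v' hv' h
    rw [← hptc v hv, ← hptc v' hv', h]
  have hsum : ∀ f : ℂ → ℝ, ∑ x ∈ F.image pt, f x = ∑ v ∈ F, f (pt v) := fun f =>
    Finset.sum_image hinj
  refine ⟨F.image pt, fun x => ν (cell r x), ?_, fun x _ => n0 _, ?_, ?_⟩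
  · intro x hx
    obtain ⟨v, hv, rfl⟩ := Finset.mem_image.mp hx
    exact hptS v hv
  · rw [hsum]
    have : ∑ v ∈ F, ν (cell r (pt v)) = M := Finset.sum_congr rfl fun v hv => by rw [hptc v hv]
    rw [this]
    exact hMpos
  · have e1 : ∑ x ∈ F.image pt, ν (cell r x) = M := by
      rw [hsum]
      exact Finset.sum_congr rfl fun v hv => by rw [hptc v hv]
    rw [e1, hsum]
    have h3 : ∀ v ∈ F, ∑ y ∈ F.image pt, ν (cell r (pt v)) * ν (cell r y) * ker r a (pt v) y ≤
        ν v * (2 ^ a * (9 * G) + 2 ^ a * M) := by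
      intro v hv
      rw [hsum]
      have e2 : ∑ v' ∈ F, ν (cell r (pt v)) * ν (cell r (pt v')) * ker r a (pt v) (pt v') =
          ν v * ∑ v' ∈ F, ν v' * ker r a (pt v) (pt v') := by
        rw [Finset.mul_sum]
        apply Finset.sum_congr rfl
        intro v' hv'
        rw [hptc v hv, hptc v' hv']
        ring
      rw [e2]
      apply mul_le_mul_of_nonneg_left _ (n0 v)
      have h4 : ∀ v' ∈ F, ν v' * ker r a (pt v) (pt v') ≤
          (∑ l ∈ Finset.range m, 2 ^ a * (2 ^ l * r) ^ (-a) *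
            (if idx l v' ∈ nb l v then ν v' else 0)) + 2 ^ a * ν v' := by
        intro v' hv'
        have h5 := mul_le_mul_of_nonneg_left (ker_bound hr0 ha m (pt v') (pt v)) (n0 v')
        rw [hptc v hv, hptc v' hv', hkr, Real.one_rpow, mul_one] at h5
        refine h5.trans (le_of_eq ?_)
        rw [mul_add, Finset.mul_sum]
        congr 1
        · apply Finset.sum_congr rfl
          intro l _
          split_ifs
          · ring
          · ring
        · ring
      refine (Finset.sum_le_sum h4).trans ?_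
      rw [Finset.sum_add_distrib, ← Finset.mul_sum, ← hM, Finset.sum_comm]
      have h6 : ∀ l ∈ Finset.range m, ∑ v' ∈ F, 2 ^ a * (2 ^ l * r) ^ (-a) *
            (if idx l v' ∈ nb l v then ν v' else 0) ≤ 2 ^ a * 9 * (2 ^ l * r) ^ q := by
        intro l hl
        rw [Finset.mem_range] at hl
        rw [← Finset.mul_sum]
        have h7 : ∑ v' ∈ F, (if idx l v' ∈ nb l v then ν v' else 0) ≤ 9 * (2 ^ l * r) ^ s := by
          rw [← Finset.sum_filter]
          have h8 : ∑ v' ∈ F.filter (fun v' => idx l v' ∈ nb l v), ν v' =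
              ∑ b ∈ nb l v, ∑ v' ∈ F.filter (fun v' => idx l v' = b), ν v' := by
            rw [← Finset.sum_fiberwise_of_maps_to (g := idx l) (t := nb l v)
              (fun v' hv' => (Finset.mem_filter.mp hv').2)]
            apply Finset.sum_congr rfl
            intro b hb
            apply Finset.sum_congr _ fun _ _ => rfl
            ext v'
            simp only [Finset.mem_filter]
            constructor
            · rintro ⟨⟨u1, u2⟩, u3⟩
              exact ⟨u1, u3⟩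
            · rintro ⟨u1, u3⟩
              exact ⟨⟨u1, u3 ▸ hb⟩, u3⟩
          rw [h8]
          refine (Finset.sum_le_card_nsmul _ _ _ fun b _ => ncap l hl.le b).trans ?_
          rw [nb_card, nsmul_eq_mul]
          norm_num
        have h9 : (0 : ℝ) < 2 ^ l * r := by positivity
        calc 2 ^ a * (2 ^ l * r) ^ (-a) * ∑ v' ∈ F, (if idx l v' ∈ nb l v then ν v' else 0) ≤
              2 ^ a * (2 ^ l * r) ^ (-a) * (9 * (2 ^ l * r) ^ s) :=
                mul_le_mul_of_nonneg_left h7 (by positivity)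
          _ = 2 ^ a * 9 * ((2 ^ l * r) ^ (-a) * (2 ^ l * r) ^ s) := by ring
          _ = 2 ^ a * 9 * (2 ^ l * r) ^ q := by
            rw [← Real.rpow_add h9, hq]
            congr 2
            ring
      have h10 : ∑ l ∈ Finset.range m, ∑ v' ∈ F, 2 ^ a * (2 ^ l * r) ^ (-a) *
            (if idx l v' ∈ nb l v then ν v' else 0) ≤ 2 ^ a * (9 * G) := by
        refine (Finset.sum_le_sum h6).trans ?_
        rw [← Finset.mul_sum, mul_assoc]
        apply mul_le_mul_of_nonneg_left _ (by positivity)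
        exact mul_le_mul_of_nonneg_left (geo hq0 m hr0 hkr) (by norm_num)
      linarith
    refine (Finset.sum_le_sum h3).trans ?_
    rw [← Finset.sum_mul, ← hM]
    have h11 : M * (2 ^ a * (9 * G)) ≤ 2 ^ a * (9 * G) / M0 * M ^ 2 := by
      have h12 : (0 : ℝ) < 2 ^ a * (9 * G) := by positivity
      have h13 : M * M0 ≤ M ^ 2 := by nlinarith
      rw [div_mul_eq_mul_div, le_div_iff₀ hM00]
      nlinarith
    nlinarith [h11]

end L98X.Fr
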