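import Pool.Agent.H389R2.Dim.Lower

/-!
Lower bound for the Hausdorff dimension of the intersection of limits of random compact sets.
-/

set_option autoImplicit false

namespace L98X

open MeasureTheory TopologicalSpace Filter Topology Metric Set
open scoped ENNReal NNReal
open Pool.Agent.H389R2.Dim (Good Good.mono Good.anti le_dimH_of_good)

/-- Finite energy of a weight implies good. -/
theorem good_of_w {X : Type*} [MetricSpace X] {t δ E : ℝ} (hδ : 0 < δ) (hE : 0 < E) (ht : 0 ≤ t)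
    {K : Set X} (V : Finset X) (w : X → ℝ) (hw : ∀ x ∈ V, 0 ≤ w x) (hpos : 0 < ∑ x ∈ V, w x)
    (hVK : (V : Set X) ⊆ K)
    (h : ∑ x ∈ V, ∑ y ∈ V, w x * w y * (max (dist x y) δ) ^ (-t) ≤ E * (∑ x ∈ V, w x) ^ 2) :
    Good t δ (2 ^ (-t) / E) K := by
  classical
  intro s hs hcov
  have hp0 : ∀ p ∈ s, 0 < p.2 := fun p hp => lt_of_lt_of_le hδ (hs p hp)
  have h1 : ∀ x ∈ V, ∃ p ∈ s, x ∈ ball p.1 p.2 := by
    intro x hx
    obtain ⟨p, hp, hxp⟩ := Set.mem_iUnion₂.mp (hcov (hVK hx))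
    exact ⟨p, hp, hxp⟩
  choose! f hf1 hf2 using h1
  set M : ℝ := ∑ x ∈ V, w x with hM
  set N : X × ℝ → ℝ := fun p => ∑ x ∈ V.filter (fun x => f x = p), w x with hN
  have hN0 : ∀ p, 0 ≤ N p := fun p => Finset.sum_nonneg fun x hx => hw x (Finset.mem_filter.mp hx).1
  have h2 : M = ∑ p ∈ s, N p := by
    rw [hM, hN]
    exact (Finset.sum_fiberwise_of_maps_to (fun x hx => hf1 x hx) _).symm
  have h3 : ∑ p ∈ s, N p ^ 2 * (2 * p.2) ^ (-t) ≤ E * M ^ 2 := by
    refine le_trans ?_ h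
    have h4 : ∀ p ∈ s, N p ^ 2 * (2 * p.2) ^ (-t) ≤
        ∑ x ∈ V.filter (fun x => f x = p), ∑ y ∈ V, w x * w y * (max (dist x y) δ) ^ (-t) := by
      intro p hp
      have e5 : N p ^ 2 * (2 * p.2) ^ (-t) = ∑ x ∈ V.filter (fun x => f x = p),
          ∑ y ∈ V.filter (fun y => f y = p), w x * w y * (2 * p.2) ^ (-t) := by
        rw [sq, hN, Finset.sum_mul_sum, Finset.sum_mul]
        apply Finset.sum_congr rfl
        intro x _
        rw [Finset.sum_mul]
      rw [e5]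
      apply Finset.sum_le_sum
      intro x hx
      rw [Finset.mem_filter] at hx
      have h6 : ∑ y ∈ V.filter (fun y => f y = p), w x * w y * (2 * p.2) ^ (-t) ≤
          ∑ y ∈ V.filter (fun y => f y = p), w x * w y * (max (dist x y) δ) ^ (-t) := by
        apply Finset.sum_le_sum
        intro y hy
        rw [Finset.mem_filter] at hy
        have hx2 := hf2 x hx.1
        have hy2 := hf2 y hy.1
        rw [hx.2, mem_ball] at hx2
        rw [hy.2, mem_ball] at hy2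
        have h7 : dist x y ≤ 2 * p.2 := by
          have := dist_triangle_right x y p.1
          linarith
        have h8 : max (dist x y) δ ≤ 2 * p.2 := max_le h7 (by linarith [hs p hp, hp0 p hp])
        apply mul_le_mul_of_nonneg_left _ (mul_nonneg (hw x hx.1) (hw y hy.1))
        exact Real.rpow_le_rpow_of_nonpos (lt_of_lt_of_le hδ (le_max_right _ _)) h8 (by linarith)
      refine h6.trans (Finset.sum_le_sum_of_subset_of_nonneg (Finset.filter_subset _ _) ?_)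
      intro y hy _
      have := hw x hx.1
      have := hw y hy
      positivity
    refine (Finset.sum_le_sum h4).trans (le_of_eq ?_)
    exact Finset.sum_fiberwise_of_maps_to (fun x hx => hf1 x hx) _
  -- Cauchy-Schwarz
  have h4 : (∑ p ∈ s, N p) ^ 2 ≤ (∑ p ∈ s, N p ^ 2 * (2 * p.2) ^ (-t)) * ∑ p ∈ s, (2 * p.2) ^ t := by
    have h5 := Finset.sum_mul_sq_le_sq_mul_sq s (fun p => N p * (2 * p.2) ^ (-t / 2))
      (fun p => (2 * p.2) ^ (t / 2))
    have h6 : ∑ p ∈ s, (N p * (2 * p.2) ^ (-t / 2)) * (2 * p.2) ^ (t / 2) = ∑ p ∈ s, N p := by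
      apply Finset.sum_congr rfl
      intro p hp
      have : (0 : ℝ) < 2 * p.2 := by linarith [hp0 p hp]
      rw [mul_assoc, ← Real.rpow_add this]
      ring_nf
      simp
    have h7 : ∑ p ∈ s, (N p * (2 * p.2) ^ (-t / 2)) ^ 2 = ∑ p ∈ s, N p ^ 2 * (2 * p.2) ^ (-t) := by
      apply Finset.sum_congr rfl
      intro p hp
      have : (0 : ℝ) < 2 * p.2 := by linarith [hp0 p hp]
      rw [mul_pow, ← Real.rpow_natCast ((2 * p.2) ^ (-t / 2)) 2, ← Real.rpow_mul this.le]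
      congr 2
      push_cast; ring
    have h8 : ∑ p ∈ s, ((2 * p.2) ^ (t / 2)) ^ 2 = ∑ p ∈ s, (2 * p.2) ^ t := by
      apply Finset.sum_congr rfl
      intro p hp
      have : (0 : ℝ) < 2 * p.2 := by linarith [hp0 p hp]
      rw [← Real.rpow_natCast ((2 * p.2) ^ (t / 2)) 2, ← Real.rpow_mul this.le]
      congr 1
      push_cast; ring
    rw [h6, h7, h8] at h5
    exact h5
  have h5 : ∑ p ∈ s, (2 * p.2) ^ t = 2 ^ t * ∑ p ∈ s, p.2 ^ t := by
    rw [Finset.mul_sum]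
    apply Finset.sum_congr rfl
    intro p hp
    rw [Real.mul_rpow (by norm_num) (hp0 p hp).le]
  rw [← h2, h5] at h4
  have h6 : M ^ 2 ≤ E * M ^ 2 * (2 ^ t * ∑ p ∈ s, p.2 ^ t) := by
    refine h4.trans (mul_le_mul_of_nonneg_right h3 ?_)
    have : 0 ≤ ∑ p ∈ s, p.2 ^ t := Finset.sum_nonneg fun p hp => Real.rpow_nonneg (hp0 p hp).le _
    positivity
  have h7 : 1 ≤ E * (2 ^ t * ∑ p ∈ s, p.2 ^ t) := by
    have h8 : (0 : ℝ) < M ^ 2 := by positivity
    by_contra hcon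
    rw [not_le] at hcon
    nlinarith
  have h8 : (0 : ℝ) < 2 ^ t := by positivity
  rw [Real.rpow_neg (by norm_num), div_le_iff₀ hE, inv_le_iff_one_le_mul₀ h8]
  linarith [h7]

/-! ### Common points -/

variable {ι : Type*} [Fintype ι]

/-- The points at distance at most `ρ` from `Z` and from all sets of the family. -/
def Phi (Z : Set ℂ) (ρ : ℝ) (K : ι → NonemptyCompacts ℂ) : Set ℂ :=
  {x | infDist x Z ≤ ρ ∧ ∀ i, infDist x (K i : Set ℂ) ≤ ρ}

omit [Fintype ι] in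
theorem Phi_mono {Z : Set ℂ} {ρ ρ' : ℝ} (h : ρ ≤ ρ') (K : ι → NonemptyCompacts ℂ) :
    Phi Z ρ K ⊆ Phi Z ρ' K := fun _ hx => ⟨hx.1.trans h, fun i => (hx.2 i).trans h⟩

theorem closed_joint (ρ : ℝ) :
    IsClosed {p : (ι → NonemptyCompacts ℂ) × ℂ | ∀ i, infDist p.2 (p.1 i : Set ℂ) ≤ ρ} := by
  have h : {p : (ι → NonemptyCompacts ℂ) × ℂ | ∀ i, infDist p.2 (p.1 i : Set ℂ) ≤ ρ} =
      ⋂ i, {p : (ι → NonemptyCompacts ℂ) × ℂ | infDist p.2 (p.1 i : Set ℂ) ≤ ρ} := by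
    ext p; simp
  rw [h]
  apply isClosed_iInter
  intro i
  apply isClosed_le _ continuous_const
  have h1 : Continuous fun p : ℂ × NonemptyCompacts ℂ => infDist p.1 (p.2 : Set ℂ) :=
    Metric.lipschitz_infDist.continuous
  exact h1.comp (continuous_snd.prodMk ((continuous_apply i).comp continuous_fst))

theorem closed_exists {W : Set ℂ} (hW : IsCompact W) (ρ : ℝ) :
    IsClosed {K : ι → NonemptyCompacts ℂ | ∃ x ∈ W, ∀ i, infDist x (K i : Set ℂ) ≤ ρ} := by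
  have : CompactSpace W := isCompact_iff_compactSpace.mp hW
  have h1 : IsClosed {p : (ι → NonemptyCompacts ℂ) × W |
      ∀ i, infDist (p.2 : ℂ) (p.1 i : Set ℂ) ≤ ρ} :=
    (closed_joint ρ).preimage (continuous_fst.prodMk (continuous_subtype_val.comp continuous_snd))
  have h2 := isClosedMap_fst_of_compactSpace _ h1
  convert h2 using 1
  ext K
  constructor
  · rintro ⟨x, hx, h3⟩
    exact ⟨(K, ⟨x, hx⟩), h3, rfl⟩
  · rintro ⟨⟨K', ⟨x, hx⟩⟩, h3, rfl⟩
    exact ⟨x, hx, h3⟩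

theorem compact_thick {Z : Set ℂ} (hZ : IsCompact Z) (hZn : Z.Nonempty) (ρ : ℝ) :
    IsCompact {x : ℂ | infDist x Z ≤ ρ} := by
  have h : {x : ℂ | infDist x Z ≤ ρ} ⊆ cthickening ρ Z := by
    intro x hx
    rw [mem_cthickening_iff, ← ENNReal.ofReal_toReal (infEDist_ne_top hZn)]
    exact ENNReal.ofReal_le_ofReal hx
  exact hZ.cthickening.of_isClosed_subset
    (isClosed_le (continuous_infDist_pt Z) continuous_const) h

theorem open_sub {Z : Set ℂ} (hZ : IsCompact Z) (hZn : Z.Nonempty) (ρ : ℝ) {U : Set ℂ}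
    (hU : IsOpen U) : IsOpen {K : ι → NonemptyCompacts ℂ | Phi Z ρ K ⊆ U} := by
  have h := closed_exists (ι := ι) ((compact_thick hZ hZn ρ).diff hU) ρ
  rw [← isClosed_compl_iff]
  convert h using 1
  ext K
  rw [Set.mem_compl_iff, Set.mem_ofPred_eq, Set.not_subset]
  constructor
  · rintro ⟨x, hx, hxU⟩
    exact ⟨x, ⟨hx.1, hxU⟩, hx.2⟩
  · rintro ⟨x, ⟨hx1, hxU⟩, hx2⟩
    exact ⟨x, ⟨hx1, hx2⟩, hxU⟩

theorem closed_good {Z : Set ℂ} (hZ : IsCompact Z) (hZn : Z.Nonempty) (ρ t δ c : ℝ) :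
    IsClosed {K : ι → NonemptyCompacts ℂ | Good t δ c (Phi Z ρ K)} := by
  have h : {K : ι → NonemptyCompacts ℂ | Good t δ c (Phi Z ρ K)} =
      ⋂ s : Finset (ℂ × ℝ), {K : ι → NonemptyCompacts ℂ | (∀ p ∈ s, δ ≤ p.2) →
        Phi Z ρ K ⊆ ⋃ p ∈ s, ball p.1 p.2 → c ≤ ∑ p ∈ s, p.2 ^ t} := by
    ext K; simp [Good]
  rw [h]
  apply isClosed_iInter
  intro s
  by_cases h1 : (∀ p ∈ s, δ ≤ p.2) ∧ ¬ c ≤ ∑ p ∈ s, p.2 ^ t
  · have h2 : {K : ι → NonemptyCompacts ℂ | (∀ p ∈ s, δ ≤ p.2) →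
        Phi Z ρ K ⊆ ⋃ p ∈ s, ball p.1 p.2 → c ≤ ∑ p ∈ s, p.2 ^ t} =
        {K : ι → NonemptyCompacts ℂ | Phi Z ρ K ⊆ ⋃ p ∈ s, ball p.1 p.2}ᶜ := by
      ext K
      simp only [Set.mem_ofPred_eq, Set.mem_compl_iff]
      constructor
      · intro h3 h4; exact h1.2 (h3 h1.1 h4)
      · intro h3 _ h4; exact absurd h4 h3
    rw [h2]
    exact (open_sub hZ hZn ρ (isOpen_biUnion fun p _ => isOpen_ball)).isClosed_compl
  · have h2 : {K : ι → NonemptyCompacts ℂ | (∀ p ∈ s, δ ≤ p.2) →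
        Phi Z ρ K ⊆ ⋃ p ∈ s, ball p.1 p.2 → c ≤ ∑ p ∈ s, p.2 ^ t} = univ := by
      ext K
      simp only [Set.mem_ofPred_eq, Set.mem_univ, iff_true]
      intro h3 _
      by_contra h4
      exact h1 ⟨h3, h4⟩
    rw [h2]; exact isClosed_univ

omit [Fintype ι] in
theorem Phi_closed {Z : Set ℂ} (ρ : ℝ) (K : ι → NonemptyCompacts ℂ) : IsClosed (Phi Z ρ K) := by
  have h : Phi Z ρ K = {x | infDist x Z ≤ ρ} ∩ ⋂ i, {x | infDist x (K i : Set ℂ) ≤ ρ} := by
    ext x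
    simp [Phi]
  rw [h]
  exact (isClosed_le (continuous_infDist_pt Z) continuous_const).inter
    (isClosed_iInter fun i => isClosed_le (continuous_infDist_pt _) continuous_const)

omit [Fintype ι] in
theorem Phi_compact {Z : Set ℂ} (hZ : IsCompact Z) (hZn : Z.Nonempty) (ρ : ℝ)
    (K : ι → NonemptyCompacts ℂ) : IsCompact (Phi Z ρ K) :=
  (compact_thick hZ hZn ρ).of_isClosed_subset (Phi_closed ρ K) fun _ hx => hx.1

omit [Fintype ι] in
/-- The limit of the approximations. -/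
theorem Phi_iInter {Z : Set ℂ} (hZ : IsCompact Z) (hZn : Z.Nonempty) {ρ : ℕ → ℝ}
    (hρ : Tendsto ρ atTop (𝓝 0)) (K : ι → NonemptyCompacts ℂ) :
    ⋂ m, Phi Z (ρ m) K ⊆ Z ∩ ⋂ i, (K i : Set ℂ) := by
  intro x hx
  rw [Set.mem_iInter] at hx
  have h1 : infDist x Z ≤ 0 := ge_of_tendsto' hρ fun m => (hx m).1
  refine ⟨(hZ.isClosed.mem_iff_infDist_zero hZn).mpr (le_antisymm h1 infDist_nonneg), ?_⟩
  rw [Set.mem_iInter]
  intro i
  have h2 : infDist x (K i : Set ℂ) ≤ 0 := ge_of_tendsto' hρ fun m => (hx m).2 i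
  exact ((K i).isCompact.isClosed.mem_iff_infDist_zero (K i).nonempty).mpr
    (le_antisymm h2 infDist_nonneg)

/-- The lower bound for limits in law. -/
theorem low_of_tendsto {Z : Set ℂ} (hZ : IsCompact Z) (hZn : Z.Nonempty)
    [MeasurableSpace (ι → NonemptyCompacts ℂ)] [OpensMeasurableSpace (ι → NonemptyCompacts ℂ)]
    {t c b : ℝ} (ht : 0 < t) (hc : 0 < c) (hb : 0 < b)
    {νs : ℕ → ProbabilityMeasure (ι → NonemptyCompacts ℂ)}
    {ν : ProbabilityMeasure (ι → NonemptyCompacts ℂ)} (hν : Tendsto νs atTop (𝓝 ν))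
    {r : ℕ → ℝ} (hra : Antitone r) (hrt : Tendsto r atTop (𝓝 0))
    {ε : ℝ≥0∞}
    (h : ∀ m, ∃ᶠ n in atTop, (νs n : Measure (ι → NonemptyCompacts ℂ))
      {K | ¬ Good t (r m) c (Phi Z (b * r m) K)} ≤ ε) :
    (ν : Measure (ι → NonemptyCompacts ℂ))
      {K | ¬ ENNReal.ofReal t ≤ dimH (Z ∩ ⋂ i, (K i : Set ℂ))} ≤ ε := by
  have hopen : ∀ m, IsOpen {K : ι → NonemptyCompacts ℂ | ¬ Good t (r m) c (Phi Z (b * r m) K)} := by
    intro m
    exact (closed_good hZ hZn (b * r m) t (r m) c).isOpen_compl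
  have h2 : ∀ m, (ν : Measure (ι → NonemptyCompacts ℂ))
      {K | ¬ Good t (r m) c (Phi Z (b * r m) K)} ≤ ε := by
    intro m
    refine (ProbabilityMeasure.le_liminf_measure_open_of_tendsto hν (hopen m)).trans ?_
    exact liminf_le_of_frequently_le (h m)
  set B : ℕ → Set (ι → NonemptyCompacts ℂ) := fun m =>
    {K | ¬ Good t (r m) c (Phi Z (b * r m) K)} with hB
  have h3 : {K : ι → NonemptyCompacts ℂ |
      ¬ ENNReal.ofReal t ≤ dimH (Z ∩ ⋂ i, (K i : Set ℂ))} ⊆ ⋃ m : ℕ, B m := by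
    intro K hK
    by_contra hcon
    simp only [hB, Set.mem_iUnion, Set.mem_ofPred_eq, not_exists, not_not] at hcon
    apply hK
    have hcomp : IsCompact (Z ∩ ⋂ i, (K i : Set ℂ)) :=
      hZ.inter_right (isClosed_iInter fun i => (K i).isCompact.isClosed)
    apply le_dimH_of_good ht hc hcomp
    intro δ hδ s hs hcov
    have hU : IsOpen (⋃ p ∈ s, ball p.1 p.2) := isOpen_biUnion fun p _ => isOpen_ball
    have hbr : Tendsto (fun m => b * r m) atTop (𝓝 0) := by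
      have := hrt.const_mul b
      rwa [mul_zero] at this
    have hanti : Antitone fun m => Phi Z (b * r m) K := fun m m' hm =>
      Phi_mono (mul_le_mul_of_nonneg_left (hra hm) hb.le) K
    obtain ⟨m0, hm0⟩ := exists_subset_nhds_of_isCompact' (V := fun m => Phi Z (b * r m) K)
      (U := ⋃ p ∈ s, ball p.1 p.2) hanti.directed_ge
      (fun m => Phi_compact hZ hZn _ K) (fun m => Phi_closed _ K) (fun x hx =>
        hU.mem_nhds (hcov (Phi_iInter hZ hZn hbr K hx)))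
    obtain ⟨m1, hm1⟩ := (hrt.eventually_lt_const hδ).exists
    have hm2 : r (max m0 m1) ≤ δ := (hra (le_max_right m0 m1)).trans hm1.le
    exact hcon (max m0 m1) s (fun p hp => hm2.trans (hs p hp))
      ((hanti (le_max_left m0 m1)).trans hm0)
  refine le_trans (measure_mono h3) ?_
  have hmono : Monotone B := by
    intro m m' hmm K hK hG
    apply hK
    exact (hG.mono (Phi_mono (mul_le_mul_of_nonneg_left (hra hmm) hb.le) K)).anti (hra hmm)
  rw [hmono.measure_iUnion]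
  exact iSup_le fun m => h2 m

end L98X
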