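import Pool.Agent.L5helper98.XP.Grid
import Pool.Agent.L5helper98.XP.Low

/-!
Lower bound for the dimension of the set of common points of independent paths, near the common
end point.
-/

set_option autoImplicit false

namespace L98X

open H974 H973 H12S H934E H934F Finset MeasureTheory TopologicalSpace Filter Topology
open Pool.Agent.H389R2.Dim (Good Good.mono Good.anti)

variable {ι : Type*} [Fintype ι] [DecidableEq ι]

omit [DecidableEq ι] in
theorem exists_L (R : ι → H934E.Rect) {ρ : ℝ} (hρ : 0 < ρ) :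
    ∃ L : ℝ, 0 < L ∧ L ≤ ρ ∧ ∀ i, L ≤ (R i).L0 := by
  classical
  rcases isEmpty_or_nonempty ι with hι | hι
  · exact ⟨ρ, hρ, le_rfl, fun i => (hι.false i).elim⟩
  · refine ⟨min ρ (Finset.univ.inf' Finset.univ_nonempty fun i => (R i).L0), ?_,
      min_le_left _ _, fun i => (min_le_right _ _).trans (Finset.inf'_le _ (Finset.mem_univ i))⟩
    apply lt_min hρ
    rw [Finset.lt_inf'_iff]
    exact fun i _ => (R i).L0_pos

/-- The compact region. -/
def Zr (η L : ℝ) : Set ℂ := {x | |x.re| ≤ x.im ∧ η ≤ x.im ∧ x.im ≤ L / 4}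

theorem Zr_compact (η L : ℝ) : IsCompact (Zr η L) := by
  apply Metric.isCompact_of_isClosed_isBounded
  · have h : Zr η L = {x : ℂ | |x.re| ≤ x.im} ∩ ({x : ℂ | η ≤ x.im} ∩ {x : ℂ | x.im ≤ L / 4}) := by
      ext x; simp [Zr]
    rw [h]
    exact (isClosed_le Complex.continuous_re.abs Complex.continuous_im).inter
      ((isClosed_le continuous_const Complex.continuous_im).inter
        (isClosed_le Complex.continuous_im continuous_const))
  · apply (Metric.isBounded_closedBall (x := (0 : ℂ)) (r := |L| + |L|)).subset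
    rintro x ⟨h1, h2, h3⟩
    rw [mem_closedBall_zero_iff]
    have h := Complex.norm_le_abs_re_add_abs_im x
    have h4 : 0 ≤ x.im := (abs_nonneg _).trans h1
    have h5 : L ≤ |L| := le_abs_self L
    rw [abs_of_nonneg h4] at h
    have h6 := abs_nonneg L
    linarith

theorem Zr_nonempty {η L : ℝ} (hη : 0 < η) (hL : 4 * η ≤ L) : (Zr η L).Nonempty := by
  refine ⟨⟨0, η⟩, ?_, le_rfl, ?_⟩
  · simp [hη.le]
  · simp only
    linarith

omit [Fintype ι] [DecidableEq ι] in
theorem Zr_sub {η L ρ : ℝ} (hη : 0 < η) (hL : L ≤ ρ) (R : ι → H934E.Rect)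
    (hR : ∀ i, L ≤ (R i).L0) : Zr η L ⊆ (⋂ i, (R i).D) ∩ Metric.ball 0 ρ := by
  rintro x ⟨h1, h2, h3⟩
  have h4 := abs_le.mp h1
  refine ⟨?_, ?_⟩
  · rw [Set.mem_iInter]
    intro i
    have hA := (R i).L0_A
    have hB := (R i).L0_B
    have hH := (R i).L0_H
    have := hR i
    unfold Rect.D
    simp only [Set.mem_ofPred_eq]
    refine ⟨by linarith, by linarith, by linarith, by linarith⟩
  · rw [mem_ball_zero_iff]
    have h := Complex.norm_le_abs_re_add_abs_im x
    have h5 : 0 ≤ x.im := by linarith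
    rw [abs_of_nonneg h5] at h
    linarith

/-- `Good` is monotone in the constant. -/
theorem good_c {X : Type*} [MetricSpace X] {t δ c c' : ℝ} {K : Set X}
    (h : Good t δ c K) (hc : c' ≤ c) : Good t δ c' K :=
  fun s hs hcov => hc.trans (h s hs hcov)

/-- A good event gives a good set. -/
theorem good_of_Gd {R : ι → H934E.Rect} {δ : ι → ℝ} (hδ : ∀ i, 0 < δ i) {h r t E0 c C : ℝ}
    (hr : 0 < r) (ht : 0 < t) (hE : 0 < E0) {U : ι → Finset Edg} {B Z : Set ℂ} (hBZ : B ⊆ Z)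
    {A : ι → ℂ → Finset Edg → Prop} (hA : ∀ i, LocOK (R i) (δ i) h r (U i) B c C (A i))
    {T : Finset ℂ} (hT : ∀ x ∈ T, x ∈ B) {m : ℂ → ℝ} (hm : ∀ x ∈ T, 0 ≤ m x)
    {G : Finset (ι × Edg)} (hG : G ⊆ tot (fun i => (R i).edges (δ i))) (hg : Gd T m A r t E0 G) :
    Good t r (2 ^ (-t) / E0) (Phi Z (4 * r) (fun i => (R i).trace (hδ i) (sec G i))) := by
  obtain ⟨g1, g2⟩ := hg
  refine good_of_w hr hE ht.le (VV T A G) m (fun x hx => hm x (mem_VV.mp hx).1) g1 ?_ g2
  intro x hx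
  rw [Finset.mem_coe, mem_VV] at hx
  refine ⟨?_, fun i => ?_⟩
  · rw [Metric.infDist_zero_of_mem (hBZ (hT x hx.1))]
    linarith
  · exact (hA i).2.2.2 x (hT x hx.1) (sec G i) (sec_sub hG i) (hx.2 i)

/-- The main estimate on the lattice. -/
theorem main_lattice {t : ℝ} (ht : 0 < t) (ht2 : (Fintype.card ι : ℝ) / 4 + t < 2) :
    ∃ p E0 : ℝ, 0 < p ∧ p ≤ 1 ∧ 0 < E0 ∧ ∀ (R : ι → H934E.Rect) (L : ℝ), 0 < L →
      (∀ i, L ≤ (R i).L0) → ∀ (J : ℕ) (m : ℕ) (δ : ι → ℝ) (hδ : ∀ i, 0 < δ i),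
      (∀ i, 32 * δ i ≤ L / (16 * 16 ^ J) / 2 ^ (m + 5)) →
      QK (fun i => (R i).edges (δ i)) (fun G =>
        ¬ Good t (L / (16 * 16 ^ J) / 2 ^ (m + 5)) (2 ^ (-t) / (E0 * (L / (16 * 16 ^ J)) ^ (-t)))
          (Phi (Zr (L / (16 * 16 ^ J)) L) (4 * (L / (16 * 16 ^ J) / 2 ^ (m + 5)))
            (fun i => (R i).trace (hδ i) (sec G i)))) ≤ (1 - p) ^ J := by
  obtain ⟨c, C, hc, hC, hloc⟩ := loc_b
  obtain ⟨Λ, hΛ, hen⟩ := Tg_energy (a := (Fintype.card ι : ℝ) / 4 + t) (by positivity) ht2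
  obtain ⟨p, E0, hp, hp1, hE0, hmom⟩ := mom (ι := ι) (D0 := 2) hc hC hΛ two_pos ht
  refine ⟨p, E0, hp, hp1, hE0, ?_⟩
  intro R L hL hRL J m δ hδ hδr
  set η : ℝ := L / (16 * 16 ^ J) with hη
  have hη0 : 0 < η := by positivity
  set r : ℝ := η / 2 ^ (m + 5) with hr
  have hr0 : 0 < r := by positivity
  have h2m : (32 : ℝ) ≤ 2 ^ (m + 5) := by
    have : (1 : ℝ) ≤ 2 ^ m := one_le_pow₀ (by norm_num)
    rw [pow_add]
    norm_num
    linarith
  have hrη : 32 * r ≤ η := by
    rw [hr]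
    rw [← mul_div_assoc, div_le_iff₀ (by positivity)]
    nlinarith
  -- the scales
  set hs : ℕ → ℝ := fun j => 16 ^ j * η with hhs
  have hs1 : ∀ j, η ≤ hs j := by
    intro j
    have : (1 : ℝ) ≤ 16 ^ j := one_le_pow₀ (by norm_num)
    simp only [hhs]
    nlinarith
  have hsL : ∀ j < J, 256 * hs j ≤ L := by
    intro j hj
    have h1 : (16 : ℝ) ^ (j + 1) ≤ 16 ^ J := pow_le_pow_right₀ (by norm_num) hj
    have h2 : (16 : ℝ) ^ (j + 1) = 16 * 16 ^ j := by rw [pow_succ]; ring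
    have h3 : η * (16 * 16 ^ J) = L := by rw [hη]; field_simp
    simp only [hhs]
    have h5 : (0 : ℝ) < 16 ^ J := by positivity
    nlinarith
  set u : ι → ℤ := fun i => ⌊η / δ i⌋ with hu
  have hu1 : ∀ i, (u i : ℝ) * δ i ≤ η := by
    intro i
    have := Int.floor_le (η / δ i)
    rwa [le_div_iff₀ (hδ i)] at this
  have hu2 : ∀ i, η ≤ (u i : ℝ) * δ i + δ i := by
    intro i
    have := Int.lt_floor_add_one (η / δ i)
    rw [div_lt_iff₀ (hδ i)] at this
    simp only [hu]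
    linarith
  have hδη : ∀ i, 1024 * δ i ≤ η := by
    intro i
    have := hδr i
    linarith
  have hu3 : ∀ i, 1 ≤ u i := by
    intro i
    have h1 : (0 : ℝ) < u i := by
      by_contra hcon
      push Not at hcon
      have := hu2 i
      have := hδη i
      have := hδ i
      nlinarith
    exact_mod_cast h1
  have hn1 : ∀ i j, (((16 ^ j * u i : ℤ)) : ℝ) * δ i ≤ hs j := by
    intro i j
    push_cast
    simp only [hhs]
    have : (0 : ℝ) < 16 ^ j := by positivity
    nlinarith [hu1 i]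
  have hn2 : ∀ i j, 99 * hs j ≤ 100 * ((((16 ^ j * u i : ℤ)) : ℝ) * δ i) := by
    intro i j
    push_cast
    simp only [hhs]
    have h1 : (0 : ℝ) < 16 ^ j := by positivity
    have h2 : 99 * η ≤ 100 * ((u i : ℝ) * δ i) := by linarith [hu2 i, hδη i]
    nlinarith
  have hex : ∀ j i, ∃ A : ℂ → Finset Edg → Prop, j < J →
      LocOK (R i) (δ i) (hs j) r (H934F.SR (16 ^ j * u i)) (Bx (hs j)) c C A := by
    intro j i
    by_cases hj : j < J
    · obtain ⟨A, hA⟩ := hloc (R i) (δ i) (hs j) r (16 ^ j * u i) (hδ i) (hδr i)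
        (by have := hs1 j; linarith) (by
          have h1 := hsL j hj
          have h2 := hRL i
          have h3 := hs1 j
          linarith) (hn1 i j) (hn2 i j)
      exact ⟨A, fun _ => hA⟩
    · exact ⟨fun _ _ => True, fun h => absurd h hj⟩
  choose A hA using hex
  -- the grids
  set nn : ℕ → ℤ := fun j => 16 ^ j * 2 ^ (m + 4) with hnn
  have hnn1 : ∀ j, 1 ≤ nn j := by
    intro j
    simp only [hnn]
    have h1 : (1 : ℤ) ≤ 16 ^ j := one_le_pow₀ (by norm_num)
    have h2 : (1 : ℤ) ≤ 2 ^ (m + 4) := one_le_pow₀ (by norm_num)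
    nlinarith
  have hnn2 : ∀ j, hs j = 2 * r * nn j := by
    intro j
    simp only [hnn, hhs, hr]
    push_cast
    rw [show m + 5 = (m + 4) + 1 by ring, pow_succ (2 : ℝ) (m + 4)]
    field_simp
  set S : ι → Finset Edg := fun i => (R i).edges (δ i) with hS
  set Gj : ℕ → Finset (ι × Edg) → Prop := fun j =>
    Gd (Tg r (nn j)) (fun _ => 1) (A j) r t (E0 * (hs j) ^ (-t)) with hGj
  have hTB : ∀ j, ∀ x ∈ Tg r (nn j), x ∈ Bx (hs j) := fun j x hx => Tg_mem hr0 (hnn2 j) hx
  have hBZ : ∀ j < J, Bx (hs j) ⊆ Zr η L := by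
    rintro j hj x ⟨x1, x2, x3⟩
    have h1 := hs1 j
    have h2 := hsL j hj
    refine ⟨?_, ?_, ?_⟩
    · linarith
    · linarith
    · have h0 : 0 < hs j := by linarith
      linarith
  have hpj : ∀ j < J, p ≤ QK S (Gj j) := by
    intro j hj
    have hsj : 0 < hs j := lt_of_lt_of_le hη0 (hs1 j)
    refine hmom S (A j) (Tg r (nn j)) (fun _ => 1) r (hs j) hr0 hsj (fun _ _ => zero_le_one)
      ?_ ?_ ?_ ?_ ?_
    · rw [Tg_one hr0 (by have := hnn1 j; omega)]
      have : (1 : ℝ) ≤ nn j := by exact_mod_cast hnn1 j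
      positivity
    · intro i x hx
      exact (hA j i hj).2.1 x (hTB j x hx)
    · intro i x hx y hy
      exact (hA j i hj).2.2.1 x (hTB j x hx) y (hTB j y hy)
    · intro x hx y hy
      apply max_le (Bx_dist (hTB j x hx) (hTB j y hy))
      have := hs1 j
      linarith
    · exact hen r (hs j) (nn j) hr0 (hnn1 j) (hnn2 j)
  have hscal := scalesK (S := S) hp1 J (fun j => tot (fun i => H934F.SR (16 ^ j * u i)))
    (fun j hj => tot_mono fun i => by
      apply t13_SR (R i) (hδ i)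
      · have h1 : (1 : ℤ) ≤ 16 ^ j := one_le_pow₀ (by norm_num)
        nlinarith [hu3 i]
      · have h1 := hn1 i j
        have h2 := hsL j hj
        have h3 := hRL i
        have h4 := hs1 j
        nlinarith)
    (fun j hj l hl => tot_disj fun i => by
      apply t6_disj
      · have h1 : (1 : ℤ) ≤ 16 ^ l := one_le_pow₀ (by norm_num)
        nlinarith [hu3 i]
      · have h1 : (16 : ℤ) ^ (l + 1) ≤ 16 ^ j := pow_le_pow_right₀ (by norm_num) hl
        have h2 : (16 : ℤ) ^ (l + 1) = 16 * 16 ^ l := by rw [pow_succ]; ring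
        rw [h2] at h1
        have h3 := hu3 i
        calc 16 * ((16 : ℤ) ^ l * u i) = (16 * 16 ^ l) * u i := by ring
          _ ≤ 16 ^ j * u i := mul_le_mul_of_nonneg_right h1 (by omega))
    Gj
    (fun j hj G => Gd_local (fun i x hx F => (hA j i hj).1 x (hTB j x hx) F) G)
    hpj
  refine le_trans ?_ hscal
  apply Pr_mono hf_ok
  intro G hG hbad j hj hgd
  apply hbad
  have h1 := good_of_Gd (Z := Zr η L) hδ hr0 ht
    (show 0 < E0 * hs j ^ (-t) by
      have : 0 < hs j := lt_of_lt_of_le hη0 (hs1 j)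
      positivity) (hBZ j hj) (fun i => hA j i hj) (hTB j) (fun _ _ => zero_le_one) hG hgd
  refine good_c h1 ?_
  have h2 : hs j ^ (-t) ≤ η ^ (-t) :=
    Real.rpow_le_rpow_of_nonpos hη0 (hs1 j) (by linarith)
  have h3 : 0 < hs j ^ (-t) := Real.rpow_pos_of_pos (lt_of_lt_of_le hη0 (hs1 j)) _
  apply div_le_div_of_nonneg_left (by positivity) (by positivity)
  exact mul_le_mul_of_nonneg_left h2 hE0.le

/-- Lower bound for the dimension of the set of common points. -/
theorem lowA (R : ι → H934E.Rect) (δ : ι → ℕ → ℝ) (hδ : ∀ i n, 0 < δ i n)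
    (hlim : ∀ i, Tendsto (δ i) atTop (𝓝 0)) (μ : ι → ProbabilityMeasure (NonemptyCompacts ℂ))
    (hμ : ∀ i, Tendsto (fun n => (R i).law (hδ i n)) atTop (𝓝 (μ i)))
    {t : ℝ} (ht : 0 < t) (ht2 : (Fintype.card ι : ℝ) / 4 + t < 2) {ρ : ℝ} (hρ : 0 < ρ) :
    ∀ᵐ K ∂(ProbabilityMeasure.pi μ : Measure (ι → NonemptyCompacts ℂ)),
      ENNReal.ofReal t ≤
        dimH ((⋂ i, (K i : Set ℂ)) ∩ (⋂ i, (R i).D) ∩ Metric.ball 0 ρ) := by
  obtain ⟨p, E0, hp, hp1, hE0, hmain⟩ := main_lattice (ι := ι) ht ht2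
  obtain ⟨L, hL0, hLρ, hLR⟩ := exists_L R hρ
  set ν : ProbabilityMeasure (ι → NonemptyCompacts ℂ) := ProbabilityMeasure.pi μ with hν
  set νs : ℕ → ProbabilityMeasure (ι → NonemptyCompacts ℂ) := fun n =>
    ProbabilityMeasure.pi (fun i => (R i).law (hδ i n)) with hνs
  have hconv : Tendsto νs atTop (𝓝 ν) := by
    have h1 : Tendsto (fun n => fun i => (R i).law (hδ i n)) atTop (𝓝 μ) :=
      tendsto_pi_nhds.mpr hμ
    exact (ProbabilityMeasure.continuous_pi.tendsto μ).comp h1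
  rw [ae_iff, ← nonpos_iff_eq_zero]
  apply ENNReal.le_of_forall_pos_le_add
  intro ε hε _
  rw [zero_add]
  -- number of scales
  obtain ⟨J, hJ⟩ : ∃ J : ℕ, ENNReal.ofReal ((1 - p) ^ J) ≤ ε := by
    have h1 : Tendsto (fun J : ℕ => ENNReal.ofReal ((1 - p) ^ J)) atTop (𝓝 0) := by
      have h2 : Tendsto (fun J : ℕ => (1 - p) ^ J) atTop (𝓝 0) :=
        tendsto_pow_atTop_nhds_zero_of_lt_one (by linarith) (by linarith)
      have h3 := ENNReal.tendsto_ofReal h2
      rwa [ENNReal.ofReal_zero] at h3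
    exact ((h1.eventually_lt_const (by exact_mod_cast hε)).exists).imp fun J hJ => hJ.le
  set η : ℝ := L / (16 * 16 ^ J) with hη
  have hη0 : 0 < η := by positivity
  have hη4 : 4 * η ≤ L := by
    rw [hη, ← mul_div_assoc, div_le_iff₀ (by positivity)]
    have : (1 : ℝ) ≤ 16 ^ J := one_le_pow₀ (by norm_num)
    nlinarith
  have key := low_of_tendsto (Zr_compact η L) (Zr_nonempty hη0 hη4) ht
    (c := 2 ^ (-t) / (E0 * η ^ (-t))) (b := 4) (by positivity) (by norm_num) hconv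
    (r := fun m => η / 2 ^ (m + 5)) (by
      intro m m' hm
      apply div_le_div_of_nonneg_left hη0.le (by positivity)
      exact pow_le_pow_right₀ (by norm_num) (by omega)) (by
      have h1 : Tendsto (fun m : ℕ => (2 : ℝ) ^ (m + 5)) atTop atTop :=
        (tendsto_pow_atTop_atTop_of_one_lt (by norm_num)).comp (tendsto_add_atTop_nat 5)
      exact h1.const_div_atTop η) (ε := ENNReal.ofReal ((1 - p) ^ J)) (by
      intro m
      apply Eventually.frequently
      have hev : ∀ᶠ n in atTop, ∀ i, δ i n < η / 2 ^ (m + 5) / 32 := by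
        rw [eventually_all]
        intro i
        exact (hlim i).eventually_lt_const (by positivity)
      filter_upwards [hev] with n hn
      have hmeas : MeasurableSet {K : ι → NonemptyCompacts ℂ |
          ¬ Good t (η / 2 ^ (m + 5)) (2 ^ (-t) / (E0 * η ^ (-t)))
            (Phi (Zr η L) (4 * (η / 2 ^ (m + 5))) K)} :=
        (closed_good (Zr_compact η L) (Zr_nonempty hη0 hη4) _ _ _ _).isOpen_compl.measurableSet
      have h1 := pi_law_apply R (δ := fun i => δ i n) (fun i => hδ i n) hmeas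
      rw [hνs]
      simp only [ProbabilityMeasure.toMeasure_pi]
      rw [h1]
      apply ENNReal.ofReal_le_ofReal
      exact hmain R L hL0 hLR J m (fun i => δ i n) (fun i => hδ i n)
        (fun i => by have := hn i; rw [lt_div_iff₀ (by norm_num)] at this; linarith))
  refine (measure_mono ?_).trans (key.trans hJ)
  intro K hK hcon
  apply hK
  refine hcon.trans (dimH_mono ?_)
  rintro x ⟨hx1, hx2⟩
  have h3 := Zr_sub hη0 hLρ R hLR hx1
  exact ⟨⟨hx2, h3.1⟩, h3.2⟩

end L98X
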