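import Pool.Agent.L5helper98.XP.FS
import Pool.Agent.L5helper98.XP.LowA
import Pool.Agent.H443R3.BT.Fix

/-!
Upper bounds for the intersection of independent traces and of a fixed set.
-/

set_option autoImplicit false

namespace L98X

open H974 H973 H12S H934E H934F Finset MeasureTheory TopologicalSpace Filter Topology
open scoped ENNReal NNReal

variable {ι : Type*} [Fintype ι]

/-- The event that all sets meet a closed disc. -/
def HK (z : ℂ) (r : ℝ) : Set (ι → NonemptyCompacts ℂ) :=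
  {K | ∀ i, ((K i : Set ℂ) ∩ Metric.closedBall z r).Nonempty}

omit [Fintype ι] in
theorem HK_cont [Nonempty ι] :
    FS.Cont (fun K : ι → NonemptyCompacts ℂ => ⋂ i, (K i : Set ℂ)) HK := by
  constructor
  · rintro K z r ⟨y, h1, h2⟩ i
    exact ⟨y, Set.mem_iInter.mp h1 i, h2⟩
  · intro z r r' hr K hK i
    obtain ⟨y, h1, h2⟩ := hK i
    exact ⟨y, h1, Metric.closedBall_subset_closedBall hr h2⟩

theorem HK_meas (z : ℂ) (r : ℝ) : MeasurableSet (HK z r : Set (ι → NonemptyCompacts ℂ)) := by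
  have h : (HK z r : Set (ι → NonemptyCompacts ℂ)) =
      ⋂ i, {K | ((K i : Set ℂ) ∩ Metric.closedBall z r).Nonempty} := by
    ext K; simp [HK]
  rw [h]
  apply MeasurableSet.iInter
  intro i
  have h2 : IsClosed {K : NonemptyCompacts ℂ | ((K : Set ℂ) ∩ Metric.closedBall z r).Nonempty} :=
    NonemptyCompacts.isClosed_inter_nonempty_of_isClosed Metric.isClosed_closedBall
  have h3 : Measurable fun K : ι → NonemptyCompacts ℂ => K i := measurable_pi_apply i
  exact h3 h2.measurableSet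

/-- Hitting probabilities for independent traces. -/
theorem HK_bound : ∃ C : ℝ, 0 < C ∧ ∀ (R : ι → H934E.Rect) (δ : ι → ℕ → ℝ)
    (hδ : ∀ i n, 0 < δ i n) (_ : ∀ i, Tendsto (δ i) atTop (𝓝 0))
    (μ : ι → ProbabilityMeasure (NonemptyCompacts ℂ))
    (_ : ∀ i, Tendsto (fun n => (R i).law (hδ i n)) atTop (𝓝 (μ i)))
    (z : ℂ) (r d : ℝ), 0 < r → r ≤ d → Metric.ball z d ⊆ (⋂ i, (R i).D) →
    (ProbabilityMeasure.pi μ : Measure (ι → NonemptyCompacts ℂ)) (HK z r) ≤
      ENNReal.ofReal (C * (r / d) ^ ((Fintype.card ι : ℝ) / 4)) := by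
  obtain ⟨c, C, -, hC, hh⟩ := H934F.hit74 H985T.st_A H934SL.st_L
  refine ⟨C ^ (Fintype.card ι), by positivity, ?_⟩
  intro R δ hδ hlim μ hμ z r d hr hrd hb
  have hd : 0 < d := hr.trans_le hrd
  have e1 : (HK z r : Set (ι → NonemptyCompacts ℂ)) = Set.univ.pi (fun _ =>
      {K : NonemptyCompacts ℂ | ((K : Set ℂ) ∩ Metric.closedBall z r).Nonempty}) := by
    ext K; simp [HK]
  rw [ProbabilityMeasure.toMeasure_pi, e1, Measure.pi_pi]
  have h1 : ∀ i, (μ i : Measure (NonemptyCompacts ℂ))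
      {K : NonemptyCompacts ℂ | ((K : Set ℂ) ∩ Metric.closedBall z r).Nonempty} ≤
      ENNReal.ofReal (C * (r / d) ^ (1/4 : ℝ)) := by
    intro i
    have h2 := (hh (R i) (δ i) (hδ i) (hlim i) (μ i) (hμ i)).2 z r d hr hrd
      (hb.trans (Set.iInter_subset _ i))
    exact (ENNReal.le_ofReal_iff_toReal_le (measure_ne_top _ _) (by positivity)).mpr h2
  refine (Finset.prod_le_prod' fun i _ => h1 i).trans ?_
  rw [Finset.prod_const, Finset.card_univ, ← ENNReal.ofReal_pow (by positivity), mul_pow,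
    ← Real.rpow_natCast ((r / d) ^ (1/4 : ℝ)), ← Real.rpow_mul (by positivity),
    show (1/4 : ℝ) * (Fintype.card ι : ℝ) = (Fintype.card ι : ℝ) / 4 by ring]

theorem isOpen_DE (R : H934E.Rect) : IsOpen R.D := t10_open R

/-- Independent traces and a fixed set. -/
theorem fixedK [Nonempty ι] (R : ι → H934E.Rect) (δ : ι → ℕ → ℝ) (hδ : ∀ i n, 0 < δ i n)
    (hlim : ∀ i, Tendsto (δ i) atTop (𝓝 0)) (μ : ι → ProbabilityMeasure (NonemptyCompacts ℂ))
    (hμ : ∀ i, Tendsto (fun n => (R i).law (hδ i n)) atTop (𝓝 (μ i)))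
    {A : Set ℂ} (hA : A ⊆ ⋂ i, (R i).D) :
    ∀ᵐ K ∂(ProbabilityMeasure.pi μ : Measure (ι → NonemptyCompacts ℂ)),
      dimH ((⋂ i, (K i : Set ℂ)) ∩ A) ≤ dimH A - (Fintype.card ι : ℝ≥0∞) / 4 ∧
        (dimH A < (Fintype.card ι : ℝ≥0∞) / 4 → (⋂ i, (K i : Set ℂ)) ∩ A = ∅) := by
  obtain ⟨C, hC, hh⟩ := HK_bound (ι := ι)
  have hit := hh R δ hδ hlim μ hμ
  set N := Fintype.card ι with hN
  have hN0 : 0 < N := Fintype.card_pos
  set a : ℝ := (N : ℝ) / 4 with ha
  have ha0 : 0 < a := by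
    have : (0 : ℝ) < N := by exact_mod_cast hN0
    positivity
  have ea : (N : ℝ≥0∞) / 4 = ENNReal.ofReal a := by
    rw [ha, ENNReal.ofReal_div_of_pos (by norm_num), ENNReal.ofReal_natCast,
      show ENNReal.ofReal 4 = 4 by simp]
  rw [ea]
  set D : Set ℂ := ⋂ i, (R i).D with hD
  have hDo : IsOpen D := isOpen_iInter_of_finite fun i => isOpen_DE (R i)
  set ν : Measure (ι → NonemptyCompacts ℂ) :=
    (ProbabilityMeasure.pi μ : Measure (ι → NonemptyCompacts ℂ)) with hν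
  have hb : ∀ n : ℕ, ∀ z ∈ A ∩ H443B.inn D n, ∀ r : ℝ, 0 < r → r ≤ 1 / ((n : ℝ) + 1) →
      ν (HK z r) ≤ ENNReal.ofReal (C * ((n : ℝ) + 1) ^ a) * ENNReal.ofReal r ^ a := by
    intro n z hz r hr hr2
    have h1 := hit z r (1 / ((n : ℝ) + 1)) hr hr2 hz.2
    have e : C * (r / (1 / ((n : ℝ) + 1))) ^ a = C * ((n : ℝ) + 1) ^ a * r ^ a := by
      rw [mul_assoc, ← Real.mul_rpow (by positivity) hr.le]
      congr 2
      field_simp
    rw [e] at h1
    rw [ENNReal.ofReal_rpow_of_pos hr, ← ENNReal.ofReal_mul (by positivity)]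
    exact h1
  have hr0 : ∀ n : ℕ, (0 : ℝ) < 1 / ((n : ℝ) + 1) := fun n => by positivity
  have h1 : ∀ᵐ K ∂ν, ∀ (n : ℕ) (s : ℚ), a < (s : ℝ) → dimH A < ENNReal.ofReal s →
        μH[(s : ℝ) - a] ((⋂ i, (K i : Set ℂ)) ∩ (A ∩ H443B.inn D n)) = 0 := by
    rw [ae_all_iff]
    intro n
    rw [ae_all_iff]
    intro s
    by_cases h3 : a < (s : ℝ)
    · by_cases h4 : dimH A < ENNReal.ofReal s
      · have h5 : μH[(s : ℝ)] (A ∩ H443B.inn D n) = 0 := by
          have h6 : dimH (A ∩ H443B.inn D n) < ((Real.toNNReal s : ℝ≥0) : ℝ≥0∞) :=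
            (dimH_mono Set.inter_subset_left).trans_lt h4
          have h7 := hausdorffMeasure_of_dimH_lt h6
          rwa [Real.coe_toNNReal _ (by linarith)] at h7
        filter_upwards [FS.inter_zero ha0 HK_cont (hr0 n) ENNReal.ofReal_ne_top HK_meas (hb n)
          h3 h5] with K hK
        intro _ _
        exact hK
      · exact Eventually.of_forall fun K _ h => absurd h h4
    · exact Eventually.of_forall fun K h => absurd h h3
  have h2 : ∀ᵐ K ∂ν, ∀ n : ℕ, dimH A < ENNReal.ofReal a →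
      (⋂ i, (K i : Set ℂ)) ∩ (A ∩ H443B.inn D n) = ∅ := by
    rw [ae_all_iff]
    intro n
    by_cases h4 : dimH A < ENNReal.ofReal a
    · have h5 : μH[a] (A ∩ H443B.inn D n) = 0 := by
        have h6 : dimH (A ∩ H443B.inn D n) < ((Real.toNNReal a : ℝ≥0) : ℝ≥0∞) :=
          (dimH_mono Set.inter_subset_left).trans_lt h4
        have h7 := hausdorffMeasure_of_dimH_lt h6
        rwa [Real.coe_toNNReal _ ha0.le] at h7
      filter_upwards [FS.polar ha0 HK_cont (hr0 n) ENNReal.ofReal_ne_top (hb n) h5] with K hK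
      intro _
      exact hK
    · exact Eventually.of_forall fun K h => absurd h h4
  filter_upwards [h1, h2] with K k1 k2
  have hAU := H443B.iUnion_inn hDo hA
  have hpol : dimH A < ENNReal.ofReal a → (⋂ i, (K i : Set ℂ)) ∩ A = ∅ := by
    intro h
    rw [hAU, Set.inter_iUnion]
    exact Set.iUnion_eq_empty.mpr fun n => k2 n h
  refine ⟨?_, hpol⟩
  rcases lt_or_ge (dimH A) (ENNReal.ofReal a) with h | h
  · rw [hpol h, dimH_empty]
    exact zero_le
  · apply ENNReal.le_sub_of_add_le_right ENNReal.ofReal_ne_top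
    apply le_of_forall_gt_imp_ge_of_dense
    intro x hx
    obtain ⟨q, -, hq1, hq2⟩ := ENNReal.lt_iff_exists_rat_btwn.mp hx
    have hq4 : a < (q : ℝ) := by
      by_contra hcon
      have h5 : ((Real.toNNReal q : ℝ≥0) : ℝ≥0∞) ≤ ENNReal.ofReal a := by
        show ENNReal.ofReal (q : ℝ) ≤ _
        exact ENNReal.ofReal_le_ofReal (not_lt.mp hcon)
      exact absurd (hq1.trans_le h5) (not_lt.mpr h)
    have hsub : dimH ((⋂ i, (K i : Set ℂ)) ∩ A) ≤ ENNReal.ofReal ((q : ℝ) - a) := by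
      rw [hAU, Set.inter_iUnion, dimH_iUnion]
      apply iSup_le
      intro n
      have h6 := k1 n q hq4 hq1
      apply dimH_le_of_hausdorffMeasure_ne_top (d := Real.toNNReal ((q : ℝ) - a))
      rw [Real.coe_toNNReal _ (by linarith), h6]
      exact ENNReal.zero_ne_top
    calc dimH ((⋂ i, (K i : Set ℂ)) ∩ A) + ENNReal.ofReal a ≤
          ENNReal.ofReal ((q : ℝ) - a) + ENNReal.ofReal a := by gcongr
      _ = ENNReal.ofReal q := by
          rw [← ENNReal.ofReal_add (by linarith) ha0.le]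
          congr 1
          ring
      _ ≤ x := hq2.le

end L98X
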