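import Pool.Agent.L5helper98.XP.Hit2
import Pool.Agent.L5helper98.XP.Frost
import Pool.Agent.L5helper98.XP.Up
import Pool.Agent.H934R4.GL.Asm

/-!
Lower bound for the dimension of the common points of independent traces and of a fixed compact set.
-/

set_option autoImplicit false

namespace L98X

open H974 H973 H12S H934E H934F Finset MeasureTheory TopologicalSpace Filter Topology
open Pool.Agent.H389R2.Dim (Good Good.mono Good.anti)
open scoped ENNReal NNReal

theorem rd_cont (R : H934E.Rect) : Continuous R.rd := by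
  have h1 : Continuous R.rx := by
    have : R.rx = fun z : ℂ => min (z.re + R.A) (R.B - z.re) := rfl
    rw [this]
    exact (Complex.continuous_re.add continuous_const).min
      (continuous_const.sub Complex.continuous_re)
  have h2 : Continuous R.ry := by
    have : R.ry = fun z : ℂ => min z.im (R.H - z.im) := rfl
    rw [this]
    exact Complex.continuous_im.min (continuous_const.sub Complex.continuous_im)
  exact h1.min h2

theorem rx_pos {R : H934E.Rect} {z : ℂ} (hz : z ∈ R.D) : 0 < R.rx z := by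
  obtain ⟨h1, h2, h3, h4⟩ := hz
  exact lt_min (by linarith) (by linarith)

theorem ry_pos {R : H934E.Rect} {z : ℂ} (hz : z ∈ R.D) : 0 < R.ry z := by
  obtain ⟨h1, h2, h3, h4⟩ := hz
  exact lt_min (by linarith) (by linarith)

theorem den_pos {R : H934E.Rect} {z : ℂ} (hz : z ∈ R.D) :
    0 < (‖z - R.pa‖ * (‖z - R.pa‖ + R.ra)) * (‖z‖ * (‖z‖ + R.rb)) := by
  obtain ⟨h1, h2, h3, h4⟩ := hz
  have a1 : 0 < ‖z - R.pa‖ := by
    rw [norm_pos_iff, sub_ne_zero]
    rintro rfl
    simp only [Rect.pa] at h4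
    exact lt_irrefl _ h4
  have a2 : 0 < ‖z‖ := by
    rw [norm_pos_iff]
    rintro rfl
    exact lt_irrefl _ h3
  have a3 : 0 < R.ra := lt_min (by linarith [R.ht1]) (by linarith [R.ht2])
  have a4 : 0 < R.rb := lt_min R.hA R.hB
  positivity

theorem Th_pos {R : H934E.Rect} {z : ℂ} (hz : z ∈ R.D) : 0 < R.Th z := by
  unfold Rect.Th
  have h1 := rx_pos hz
  have h2 := ry_pos hz
  have h3 := den_pos hz
  have h4 := R.hH
  positivity

theorem Th_cont (R : H934E.Rect) : ContinuousOn R.Th R.D := by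
  unfold Rect.Th
  apply ContinuousOn.div
  · have h1 : Continuous R.rx := by
      have : R.rx = fun z : ℂ => min (z.re + R.A) (R.B - z.re) := rfl
      rw [this]
      exact (Complex.continuous_re.add continuous_const).min
        (continuous_const.sub Complex.continuous_re)
    have h2 : Continuous R.ry := by
      have : R.ry = fun z : ℂ => min z.im (R.H - z.im) := rfl
      rw [this]
      exact Complex.continuous_im.min (continuous_const.sub Complex.continuous_im)
    exact ((h1.mul h2).mul continuous_const).continuousOn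
  · apply Continuous.continuousOn
    have h1 : Continuous fun z : ℂ => ‖z - R.pa‖ := (continuous_id.sub continuous_const).norm
    have h2 : Continuous fun z : ℂ => ‖z‖ := continuous_norm
    exact (h1.mul (h1.add continuous_const)).mul (h2.mul (h2.add continuous_const))
  · intro z hz
    exact (den_pos hz).ne'

/-- One point lower bound on compact sets. -/
theorem one_low (R : H934E.Rect) {S : Set ℂ} (hS : IsCompact S) (hSD : S ⊆ R.D) :
    ∃ c r0 : ℝ, 0 < c ∧ 0 < r0 ∧ ∀ (δ : ℕ → ℝ) (hδ : ∀ i, 0 < δ i), Tendsto δ atTop (𝓝 0) →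
      ∀ μ : ProbabilityMeasure (NonemptyCompacts ℂ), Tendsto (fun i => R.law (hδ i)) atTop (𝓝 μ) →
      ∀ x ∈ S, ∀ r : ℝ, 0 < r → r ≤ r0 → c * r ^ (1/4 : ℝ) ≤
        (μ : Measure (NonemptyCompacts ℂ)).real
          {K : NonemptyCompacts ℂ | ((K : Set ℂ) ∩ Metric.closedBall x r).Nonempty} := by
  rcases S.eq_empty_or_nonempty with rfl | hne
  · exact ⟨1, 1, one_pos, one_pos, fun _ _ _ _ _ x hx => absurd hx (Set.notMem_empty x)⟩
  have hAB : 0 < R.A + R.B := add_pos R.hA R.hB
  obtain ⟨c, C, hc, -, hgl⟩ := H934G.st_gl H985T.st_A H934SL.st_L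
    (max ((R.A + R.B) / R.H) (R.H / (R.A + R.B)))
  have k1 : R.A + R.B ≤ max ((R.A + R.B) / R.H) (R.H / (R.A + R.B)) * R.H := by
    have := mul_le_mul_of_nonneg_right (le_max_left ((R.A + R.B) / R.H) (R.H / (R.A + R.B)))
      R.hH.le
    rwa [div_mul_cancel₀ _ R.hH.ne'] at this
  have k2 : R.H ≤ max ((R.A + R.B) / R.H) (R.H / (R.A + R.B)) * (R.A + R.B) := by
    have := mul_le_mul_of_nonneg_right (le_max_right ((R.A + R.B) / R.H) (R.H / (R.A + R.B)))
      hAB.le
    rwa [div_mul_cancel₀ _ hAB.ne'] at this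
  have h1 := hgl R k1 k2
  obtain ⟨z0, hz0, hmin0⟩ := hS.exists_isMinOn hne (rd_cont R).continuousOn
  obtain ⟨z1, hz1, hmin1⟩ := hS.exists_isMinOn hne ((Th_cont R).mono hSD)
  have hd0 : 0 < R.rd z0 := lt_min (rx_pos (hSD hz0)) (ry_pos (hSD hz0))
  have ht0 : 0 < R.Th z1 := Th_pos (hSD hz1)
  have hH := R.hH
  refine ⟨c * ((1 / R.H) ^ (1/4 : ℝ) * R.Th z1 ^ (1/3 : ℝ)), R.rd z0 / 4, by positivity,
    by positivity, ?_⟩
  intro δ hδ hlim μ hμ x hx r hr hr0
  have h2 := hmin0 hx
  have h3 := hmin1 hx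
  simp only [Set.mem_ofPred_eq] at h2 h3
  have h4 := (h1 δ hδ hlim μ hμ x r (hSD hx) hr (by linarith)).1
  refine le_trans ?_ h4
  have h5 : 0 < R.rd x := hd0.trans_le h2
  have h6 : R.rd x ≤ R.H := by
    have hz := hSD hx
    obtain ⟨_, _, h7, h8⟩ := hz
    refine (min_le_right _ _).trans ((min_le_left _ _).trans h8.le)
  have h7 : (1 / R.H) ^ (1/4 : ℝ) * r ^ (1/4 : ℝ) ≤ (r / R.rd x) ^ (1/4 : ℝ) := by
    rw [← Real.mul_rpow (by positivity) hr.le]
    apply Real.rpow_le_rpow (by positivity) _ (by norm_num)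
    rw [one_div, inv_mul_eq_div]
    exact div_le_div_of_nonneg_left hr.le h5 h6
  have h8 : R.Th z1 ^ (1/3 : ℝ) ≤ R.Th x ^ (1/3 : ℝ) :=
    Real.rpow_le_rpow ht0.le h3 (by norm_num)
  calc c * ((1 / R.H) ^ (1/4 : ℝ) * R.Th z1 ^ (1/3 : ℝ)) * r ^ (1/4 : ℝ) =
        c * (((1 / R.H) ^ (1/4 : ℝ) * r ^ (1/4 : ℝ)) * R.Th z1 ^ (1/3 : ℝ)) := by ring
    _ ≤ c * ((r / R.rd x) ^ (1/4 : ℝ) * R.Th x ^ (1/3 : ℝ)) := by
      apply mul_le_mul_of_nonneg_left _ hc.le
      exact mul_le_mul h7 h8 (by positivity) (by positivity)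

/-- One point lower bound on the lattice. -/
theorem one_lat (R : H934E.Rect) {c r : ℝ} (hc : 0 < c) (hr : 0 < r)
    (δ : ℕ → ℝ) (hδ : ∀ i, 0 < δ i)
    (μ : ProbabilityMeasure (NonemptyCompacts ℂ)) (hμ : Tendsto (fun i => R.law (hδ i)) atTop (𝓝 μ))
    (x : ℂ) (h : c * r ^ (1/4 : ℝ) ≤ (μ : Measure (NonemptyCompacts ℂ)).real
          {K : NonemptyCompacts ℂ | ((K : Set ℂ) ∩ Metric.closedBall x r).Nonempty}) :
    ∀ᶠ n in atTop, c / 2 * r ^ (1/4 : ℝ) ≤
      Q (R.edges (δ n)) (fun F => (R.path (δ n) F ∩ Metric.ball x (2 * r)).Nonempty) := by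
  have hopen : IsOpen {K : NonemptyCompacts ℂ | ((K : Set ℂ) ∩ Metric.ball x (2 * r)).Nonempty} :=
    NonemptyCompacts.isOpen_inter_nonempty_of_isOpen Metric.isOpen_ball
  have h1 : ENNReal.ofReal (c * r ^ (1/4 : ℝ)) ≤ (μ : Measure (NonemptyCompacts ℂ))
      {K : NonemptyCompacts ℂ | ((K : Set ℂ) ∩ Metric.ball x (2 * r)).Nonempty} := by
    refine le_trans ?_ (measure_mono (s := {K : NonemptyCompacts ℂ |
      ((K : Set ℂ) ∩ Metric.closedBall x r).Nonempty}) ?_)
    · rw [ENNReal.ofReal_le_iff_le_toReal (measure_ne_top _ _)]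
      exact h
    · rintro K ⟨y, hy1, hy2⟩
      refine ⟨y, hy1, ?_⟩
      rw [Metric.mem_closedBall] at hy2
      rw [Metric.mem_ball]
      linarith
  have h2 := ProbabilityMeasure.le_liminf_measure_open_of_tendsto hμ hopen
  have hpos : 0 < c * r ^ (1/4 : ℝ) := by positivity
  have h3 : ENNReal.ofReal (c / 2 * r ^ (1/4 : ℝ)) < ENNReal.ofReal (c * r ^ (1/4 : ℝ)) := by
    rw [ENNReal.ofReal_lt_ofReal_iff hpos]
    have : c / 2 * r ^ (1/4 : ℝ) = c * r ^ (1/4 : ℝ) / 2 := by ring
    rw [this]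
    linarith
  have h4 := eventually_lt_of_lt_liminf (h3.trans_le (h1.trans h2))
  filter_upwards [h4] with n hn
  rw [R.law_apply (hδ n) hopen.measurableSet] at hn
  by_contra hcon
  rw [not_le] at hcon
  exact absurd hn (not_lt.mpr (ENNReal.ofReal_le_ofReal hcon.le))

/-- A positive lower bound for finitely many positive numbers. -/
theorem ex_min {ι : Type*} [Finite ι] (f : ι → ℝ) (hf : ∀ i, 0 < f i) :
    ∃ c : ℝ, 0 < c ∧ ∀ i, c ≤ f i := by
  cases nonempty_fintype ι
  rcases isEmpty_or_nonempty ι with hι | hι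
  · exact ⟨1, one_pos, fun i => (hι.false i).elim⟩
  · refine ⟨Finset.univ.inf' Finset.univ_nonempty f, ?_,
      fun i => Finset.inf'_le _ (Finset.mem_univ i)⟩
    rw [Finset.lt_inf'_iff]
    exact fun i _ => hf i

variable {ι : Type*} [Fintype ι] [DecidableEq ι]

/-- A piece of small diameter of a compact set of large dimension. -/
theorem piece {S : Set ℂ} (hS : IsCompact S) {a : ℝ≥0∞} (h : a < dimH S) {e : ℝ} (he : 0 < e) :
    ∃ z : ℂ, a < dimH (S ∩ Metric.closedBall z e) := by
  obtain ⟨t, _, hfin, hcov⟩ := hS.finite_cover_balls he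
  have h1 : S ⊆ ⋃ z ∈ t, S ∩ Metric.closedBall z e := by
    intro x hx
    obtain ⟨z, hz, hxz⟩ := Set.mem_iUnion₂.mp (hcov hx)
    exact Set.mem_iUnion₂.mpr ⟨z, hz, hx, Metric.ball_subset_closedBall hxz⟩
  have h2 := h.trans_le (dimH_mono h1)
  rw [dimH_bUnion hfin.countable] at h2
  obtain ⟨z, hz⟩ := lt_iSup_iff.mp h2
  obtain ⟨_, hz'⟩ := lt_iSup_iff.mp hz
  exact ⟨z, hz'⟩

/-- Lower bound for compact sets. -/
theorem lowB (R : ι → H934E.Rect) (δ : ι → ℕ → ℝ) (hδ : ∀ i n, 0 < δ i n)
    (hlim : ∀ i, Tendsto (δ i) atTop (𝓝 0)) (μ : ι → ProbabilityMeasure (NonemptyCompacts ℂ))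
    (hμ : ∀ i, Tendsto (fun n => (R i).law (hδ i n)) atTop (𝓝 (μ i)))
    {t : ℝ} (ht : 0 < t) {S : Set ℂ} (hS : IsCompact S) (hSD : S ⊆ ⋂ i, (R i).D)
    (hdim : ENNReal.ofReal ((Fintype.card ι : ℝ) / 4 + t) < dimH S) :
    (ProbabilityMeasure.pi μ : Measure (ι → NonemptyCompacts ℂ))
      {K | ¬ ENNReal.ofReal t ≤ dimH (S ∩ ⋂ i, (K i : Set ℂ))} < 1 := by
  set N := Fintype.card ι with hN
  set a : ℝ := (N : ℝ) / 4 + t with ha
  have ha0 : 0 < a := by positivity
  obtain ⟨d, hd, hdS⟩ := hS.exists_thickening_subset_open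
    (isOpen_iInter_of_finite fun i => isOpen_DE (R i)) hSD
  obtain ⟨z, hz⟩ := piece hS hdim (e := d / 32) (by positivity)
  set Z : Set ℂ := S ∩ Metric.closedBall z (d / 32) with hZ
  have hZc : IsCompact Z := hS.inter_right Metric.isClosed_closedBall
  have hZS : Z ⊆ S := Set.inter_subset_left
  have hZne : Z.Nonempty := by
    rw [Set.nonempty_iff_ne_empty]
    intro h0
    rw [h0, dimH_empty] at hz
    exact absurd hz (not_lt.mpr zero_le)
  have hZball : ∀ x ∈ Z, ∀ i, Metric.ball x d ⊆ (R i).D := by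
    intro x hx i
    refine (Metric.ball_subset_thickening (hZS hx) d).trans (hdS.trans ?_)
    exact Set.iInter_subset _ i
  have hZdist : ∀ x ∈ Z, ∀ y ∈ Z, 16 * dist x y ≤ d := by
    intro x hx y hy
    have h1 := Metric.mem_closedBall.mp hx.2
    have h2 := Metric.mem_closedBall.mp hy.2
    have h3 := dist_triangle_right x y z
    linarith
  obtain ⟨s, hs1, hs2⟩ := ENNReal.lt_iff_exists_nnreal_btwn.mp hz
  have has : a < s := by
    rw [ENNReal.ofReal_lt_coe_iff ha0.le] at hs1
    exact hs1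
  have hμs : μH[(s : ℝ)] Z ≠ 0 := by
    rw [hausdorffMeasure_of_lt_dimH hs2]
    exact ENNReal.top_ne_zero
  obtain ⟨Λ, hΛ, hfr⟩ := Fr.frost hZc ha0.le has hμs
  choose c r0 hc hr0 hlow using fun i =>
    one_low (R i) hZc (hZS.trans (hSD.trans (Set.iInter_subset _ i)))
  obtain ⟨c1, hc1, hc1'⟩ := ex_min c hc
  obtain ⟨r1, hr1, hr1'⟩ := ex_min r0 hr0
  obtain ⟨C, hC, hhit⟩ := hit2
  obtain ⟨p, E0, hp, hp1, hE0, hmom⟩ := mom (ι := ι) (c := c1 / 2)
    (C := C * ((2 / d) ^ (1/4 : ℝ) * 2 ^ (1/4 : ℝ))) (Λ := Λ) (D0 := d + 1) (t := t)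
    (by positivity) (by positivity) hΛ (by positivity) ht
  -- the radii
  obtain ⟨m0, hm0⟩ : ∃ m0 : ℕ, ((1 : ℝ) / 2) ^ m0 < min (min r1 (d / 2)) 1 :=
    exists_pow_lt_of_lt_one (by positivity) (by norm_num)
  have hrm : ∀ m : ℕ, ((1 : ℝ) / 2) ^ (m + m0) < min (min r1 (d / 2)) 1 := by
    intro m
    refine lt_of_le_of_lt ?_ hm0
    exact pow_le_pow_of_le_one (by norm_num) (by norm_num) (by omega)
  have hconv : Tendsto (fun n => ProbabilityMeasure.pi (fun i => (R i).law (hδ i n))) atTop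
      (𝓝 (ProbabilityMeasure.pi μ)) := by
    have h1 : Tendsto (fun n => fun i => (R i).law (hδ i n)) atTop (𝓝 μ) :=
      tendsto_pi_nhds.mpr hμ
    exact (ProbabilityMeasure.continuous_pi.tendsto μ).comp h1
  have key := low_of_tendsto (ι := ι) hZc hZne ht
    (c := 2 ^ (-t) / E0) (b := 4) (by positivity) (by norm_num) hconv
    (r := fun m => ((1 : ℝ) / 2) ^ (m + m0)) (by
      intro m m' hm
      exact pow_le_pow_of_le_one (by norm_num) (by norm_num) (by omega)) (by
      exact (tendsto_pow_atTop_nhds_zero_of_lt_one (by norm_num) (by norm_num)).comp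
        (tendsto_add_atTop_nat m0)) (ε := ENNReal.ofReal (1 - p)) (by
      intro m
      apply Eventually.frequently
      set r : ℝ := ((1 : ℝ) / 2) ^ (m + m0) with hr
      have hr00 : 0 < r := by positivity
      have hrlt := hrm m
      rw [← hr, lt_min_iff, lt_min_iff] at hrlt
      obtain ⟨⟨hra, hrb⟩, hrc⟩ := hrlt
      obtain ⟨T, w, hT, hw, hwpos, hen⟩ := hfr (m + m0)
      have hev1 : ∀ᶠ n in atTop, ∀ i, δ i n < 2 * r := by
        rw [eventually_all]
        intro i
        exact (hlim i).eventually_lt_const (by positivity)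
      have hev2 : ∀ᶠ n in atTop, ∀ i, ∀ x ∈ T, c1 / 2 * r ^ (1/4 : ℝ) ≤
          Q ((R i).edges (δ i n))
            (fun F => ((R i).path (δ i n) F ∩ Metric.ball x (2 * r)).Nonempty) := by
        rw [eventually_all]
        intro i
        rw [Finset.eventually_all]
        intro x hx
        have h1 := hlow i (δ i) (hδ i) (hlim i) (μ i) (hμ i) x (hT x hx) r hr00
          (hra.le.trans (hr1' i))
        refine one_lat (R i) hc1 hr00 (δ i) (hδ i) (μ i) (hμ i) x (le_trans ?_ h1)
        exact mul_le_mul_of_nonneg_right (hc1' i) (by positivity)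
      filter_upwards [hev1, hev2] with n hn1 hn2
      have hmeas : MeasurableSet {K : ι → NonemptyCompacts ℂ |
          ¬ Good t r (2 ^ (-t) / E0) (Phi Z (4 * r) K)} :=
        (closed_good hZc hZne _ _ _ _).isOpen_compl.measurableSet
      have h1 := pi_law_apply R (δ := fun i => δ i n) (fun i => hδ i n) hmeas
      simp only [ProbabilityMeasure.toMeasure_pi]
      rw [h1]
      apply ENNReal.ofReal_le_ofReal
      have h2 := hmom (fun i => (R i).edges (δ i n))
        (fun i x F => ((R i).path (δ i n) F ∩ Metric.ball x (2 * r)).Nonempty) T w r 1 hr00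
        one_pos hw hwpos (by
          intro i x hx
          rw [div_one]
          exact hn2 i x hx) (by
          intro i x hx y hy
          have h3 := hhit (R i) x y (2 * r) d (δ i n) (by positivity) (by linarith)
            (hZball x (hT x hx) i) (hZball y (hT y hy) i) (hZdist x (hT x hx) y (hT y hy))
            (hδ i n) (hn1 i).le
          refine h3.trans ?_
          rw [div_one]
          have hu : 0 < max (dist x y) r := lt_of_lt_of_le hr00 (le_max_right _ _)
          have h4 : (2 * r / d) ^ (1/4 : ℝ) = (2 / d) ^ (1/4 : ℝ) * r ^ (1/4 : ℝ) := by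
            rw [← Real.mul_rpow (by positivity) hr00.le]
            congr 1
            ring
          have h5 : (2 * r / max (dist x y) (2 * r)) ^ (1/4 : ℝ) ≤
              2 ^ (1/4 : ℝ) * (r / max (dist x y) r) ^ (1/4 : ℝ) := by
            rw [← Real.mul_rpow (by norm_num) (by positivity)]
            apply Real.rpow_le_rpow (by positivity) _ (by norm_num)
            rw [mul_div_assoc]
            apply mul_le_mul_of_nonneg_left _ (by norm_num)
            apply div_le_div_of_nonneg_left hr00.le hu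
            exact max_le_max le_rfl (by linarith)
          rw [h4]
          calc C * ((2 / d) ^ (1/4 : ℝ) * r ^ (1/4 : ℝ) *
                (2 * r / max (dist x y) (2 * r)) ^ (1/4 : ℝ)) ≤
                C * ((2 / d) ^ (1/4 : ℝ) * r ^ (1/4 : ℝ) *
                  (2 ^ (1/4 : ℝ) * (r / max (dist x y) r) ^ (1/4 : ℝ))) := by
                apply mul_le_mul_of_nonneg_left _ hC.le
                exact mul_le_mul_of_nonneg_left h5 (by positivity)
            _ = _ := by ring) (by
          intro x hx y hy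
          rw [mul_one]
          apply max_le
          · have h3 := hZdist x (hT x hx) y (hT y hy)
            have h4 : 0 ≤ dist x y := dist_nonneg
            linarith
          · linarith) (by
          rw [Real.one_rpow, mul_one]
          exact hen)
      rw [Real.one_rpow, mul_one] at h2
      have h3 : QK (fun i => (R i).edges (δ i n)) (fun G =>
          (fun i => (R i).trace (hδ i n) (sec G i)) ∈ {K : ι → NonemptyCompacts ℂ |
            ¬ Good t r (2 ^ (-t) / E0) (Phi Z (4 * r) K)}) ≤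
          QK (fun i => (R i).edges (δ i n)) (fun G => ¬ Gd T w
            (fun i x F => ((R i).path (δ i n) F ∩ Metric.ball x (2 * r)).Nonempty) r t E0 G) := by
        apply Pr_mono hf_ok
        intro G hG hbad hgd
        apply hbad
        obtain ⟨g1, g2⟩ := hgd
        refine good_of_w hr00 hE0 ht.le (VV T (fun i x F =>
            ((R i).path (δ i n) F ∩ Metric.ball x (2 * r)).Nonempty) G) w
            (fun x hx => hw x (mem_VV.mp hx).1) g1 ?_ g2
        intro x hx
        rw [Finset.mem_coe, mem_VV] at hx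
        refine ⟨?_, fun i => ?_⟩
        · rw [Metric.infDist_zero_of_mem (hT x hx.1)]
          positivity
        · obtain ⟨y, hy1, hy2⟩ := hx.2 i
          have h5 : Metric.infDist x ((R i).path (δ i n) (sec G i)) ≤ dist x y :=
            Metric.infDist_le_dist_of_mem hy1
          rw [Metric.mem_ball, dist_comm] at hy2
          show Metric.infDist x ((R i).path (δ i n) (sec G i)) ≤ 4 * r
          linarith
      refine h3.trans ?_
      rw [QK, Pr_not]
      linarith)
  have h9 : (ProbabilityMeasure.pi μ : Measure (ι → NonemptyCompacts ℂ))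
      {K | ¬ ENNReal.ofReal t ≤ dimH (S ∩ ⋂ i, (K i : Set ℂ))} ≤ ENNReal.ofReal (1 - p) := by
    refine (measure_mono ?_).trans key
    intro K hK hcon
    exact hK (hcon.trans (dimH_mono (Set.inter_subset_inter_left _ hZS)))
  refine h9.trans_lt ?_
  rw [ENNReal.ofReal_lt_one]
  linarith

end L98X
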