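import Pool.Agent.L5helper98.XP.FinA
import Pool.Agent.L5helper98.XP.LowB

/-!
The common points of independent exploration paths and of a fixed `σ`-compact set: curves in
natural parametrisation.
-/

set_option autoImplicit false

namespace L98X

open H984N MeasureTheory TopologicalSpace Filter Topology
open scoped ENNReal NNReal

variable {ι : Type*} [Fintype ι] [DecidableEq ι]

/-- Lower bound for `σ`-compact sets. -/
theorem lowC (R : ι → H984N.Rect) (δ : ι → ℕ → ℝ) (hδ : ∀ i n, 0 < δ i n)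
    (hlim : ∀ i, Tendsto (δ i) atTop (𝓝 0)) (μ : ι → ProbabilityMeasure X)
    (hμ : ∀ i, Tendsto (fun n => (R i).law (δ i n)) atTop (𝓝 (μ i)))
    {t : ℝ} (ht : 0 < t) {S : Set ℂ} (hS : IsSigmaCompact S) (hSD : S ⊆ ⋂ i, (R i).D)
    (hdim : ENNReal.ofReal ((Fintype.card ι : ℝ) / 4 + t) < dimH S) :
    (Measure.pi fun i => (μ i : Measure X))
      {p | ¬ ENNReal.ofReal t ≤ dimH (S ∩ ⋂ i, Set.range (p i).1)} < 1 := by
  obtain ⟨K, hK, rfl⟩ := hS
  rw [dimH_iUnion] at hdim
  obtain ⟨n, hn⟩ := lt_iSup_iff.mp hdim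
  have hμ' : ∀ i, Tendsto (fun n => (H443B.toE (R i)).law (hδ i n)) atTop
      (𝓝 ((μ i).map H443B.rgX_cont.measurable.aemeasurable)) := fun i =>
    H443B.limit_trace (R i) (hδ i) (hlim i) (hμ i)
  have h1 := lowB (fun i => H443B.toE (R i)) δ hδ hlim _ hμ' ht (hK n)
    ((Set.subset_iUnion K n).trans hSD) hn
  have e : (ProbabilityMeasure.pi (fun i => (μ i).map
      H443B.rgX_cont.measurable.aemeasurable) : Measure (ι → NonemptyCompacts ℂ)) =
      (Measure.pi fun i => (μ i : Measure X)).map (fun p i => H443B.rgX (p i)) := by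
    rw [Measure.pi_map_pi (fun i => H443B.rgX_cont.measurable.aemeasurable)]
    rfl
  rw [e] at h1
  have hm : Measurable (fun (p : ι → X) (i : ι) => H443B.rgX (p i)) :=
    measurable_pi_lambda _ fun i => H443B.rgX_cont.measurable.comp (measurable_pi_apply i)
  refine lt_of_le_of_lt ?_ h1
  refine (measure_mono ?_).trans (Measure.le_map_apply hm.aemeasurable _)
  intro p hp hcon
  apply hp
  refine hcon.trans (dimH_mono ?_)
  exact Set.inter_subset_inter_left _ (Set.subset_iUnion K n)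

/-- The common points of independent exploration paths and a fixed set. -/
theorem finB {k : ℕ} (hk : 0 < k) (R : Fin k → H984N.Rect) (δ : Fin k → ℕ → ℝ)
    (hδ : ∀ i n, 0 < δ i n) (hlim : ∀ i, Tendsto (δ i) atTop (𝓝 0))
    (μ : Fin k → ProbabilityMeasure X)
    (hμ : ∀ i, Tendsto (fun n => (R i).law (δ i n)) atTop (𝓝 (μ i)))
    {S : Set ℂ} (hS : IsSigmaCompact S) (hSD : S ⊆ ⋂ i, (R i).D) :
    essSup (fun p => dimH (S ∩ ⋂ i, Set.range (p i).1)) (Measure.pi fun i => (μ i : Measure X)) =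
      dimH S - k / 4 ∧
    (∀ j, essSup (fun p => dimH {s : unitInterval | (p j).1 s ∈ S ∩ ⋂ i, Set.range (p i).1})
      (Measure.pi fun i => (μ i : Measure X)) = 4 / 7 * (dimH S - k / 4)) ∧
    ((k : ℝ≥0∞) / 4 < dimH S →
      0 < (Measure.pi fun i => (μ i : Measure X)) {p | (S ∩ ⋂ i, Set.range (p i).1).Nonempty}) ∧
    (dimH S < k / 4 →
      ∀ᵐ p ∂(Measure.pi fun i => (μ i : Measure X)), S ∩ ⋂ i, Set.range (p i).1 = ∅) := by
  have hne : Nonempty (Fin k) := ⟨⟨0, hk⟩⟩
  set ν : Measure (Fin k → X) := Measure.pi fun i => (μ i : Measure X) with hν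
  have hν1 : ν Set.univ = 1 := measure_univ
  have ek : ENNReal.ofReal ((k : ℝ) / 4) = (k : ℝ≥0∞) / 4 := by
    rw [ENNReal.ofReal_div_of_pos (by norm_num), ENNReal.ofReal_natCast,
      show ENNReal.ofReal 4 = 4 by simp]
  have hμ' : ∀ i, Tendsto (fun n => (H443B.toE (R i)).law (hδ i n)) atTop
      (𝓝 ((μ i).map H443B.rgX_cont.measurable.aemeasurable)) := fun i =>
    H443B.limit_trace (R i) (hδ i) (hlim i) (hμ i)
  have hup0 := transfer μ (fixedK (fun i => H443B.toE (R i)) δ hδ hlim _ hμ' (A := S) hSD)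
  have hup : ∀ᵐ p ∂ν, dimH (S ∩ ⋂ i, Set.range (p i).1) ≤ dimH S - k / 4 ∧
      (dimH S < k / 4 → S ∩ ⋂ i, Set.range (p i).1 = ∅) := by
    filter_upwards [hup0] with p hp
    rw [coe_rgK, Set.inter_comm, Fintype.card_fin] at hp
    exact hp
  have hlow : ∀ t : ℝ, 0 < t → (k : ℝ≥0∞) / 4 + ENNReal.ofReal t < dimH S →
      ν {p | ¬ ENNReal.ofReal t ≤ dimH (S ∩ ⋂ i, Set.range (p i).1)} < 1 := by
    intro t ht htS
    apply lowC R δ hδ hlim μ hμ ht hS hSD
    rw [Fintype.card_fin, ENNReal.ofReal_add (by positivity) ht.le, ek]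
    exact htS
  have huni : ∀ᵐ p ∂ν, ∀ j, ∀ E : Set unitInterval, dimH ((p j).1 '' E) = 7 / 4 * dimH E := by
    rw [ae_all_iff]
    intro j
    have h1 := (Pool.Agent.Results.MP_fe58d8_pr.UniformDimension.result (R j)).2 (δ j) (hδ j)
      (hlim j) (μ j) (hμ j)
    exact (Measure.quasiMeasurePreserving_eval (μ := fun i => (μ i : Measure X)) j).ae h1
  have hess : essSup (fun p => dimH (S ∩ ⋂ i, Set.range (p i).1)) ν = dimH S - k / 4 := by
    apply le_antisymm
    · exact essSup_le_of_ae_le _ (by filter_upwards [hup] with p hp using hp.1)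
    · by_contra hcon
      rw [not_le] at hcon
      obtain ⟨t, ht1, ht2⟩ := ENNReal.lt_iff_exists_nnreal_btwn.mp hcon
      have ht0 : 0 < t := by
        have : (0 : ℝ≥0∞) < t := lt_of_le_of_lt zero_le ht1
        exact_mod_cast this
      have h1 : (k : ℝ≥0∞) / 4 + t < dimH S := by
        rw [add_comm]
        exact lt_tsub_iff_right.mp ht2
      have h2 := hlow t (by exact_mod_cast ht0) (by rwa [ENNReal.ofReal_coe_nnreal])
      have h3 := ae_lt_of_essSup_lt ht1
      rw [ENNReal.ofReal_coe_nnreal] at h2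
      have h4 : ν {p | ¬ (t : ℝ≥0∞) ≤ dimH (S ∩ ⋂ i, Set.range (p i).1)} = 1 := by
        rw [← hν1]
        apply measure_congr
        filter_upwards [h3] with p hp
        have : p ∈ {p : Fin k → X | ¬ (t : ℝ≥0∞) ≤ dimH (S ∩ ⋂ i, Set.range (p i).1)} :=
          not_le.mpr hp
        exact propext ⟨fun _ => trivial, fun _ => this⟩
      exact absurd h2 (by rw [h4]; exact lt_irrefl _)
  refine ⟨hess, ?_, ?_, ?_⟩
  · intro j
    have e2 : (4 / 7 : ℝ≥0∞) * (7 / 4) = 1 := by
      have a1 : (4 / 7 : ℝ≥0∞) = ENNReal.ofReal (4 / 7) := by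
        rw [ENNReal.ofReal_div_of_pos (by norm_num)]; norm_num
      have a2 : (7 / 4 : ℝ≥0∞) = ENNReal.ofReal (7 / 4) := by
        rw [ENNReal.ofReal_div_of_pos (by norm_num)]; norm_num
      rw [a1, a2, ← ENNReal.ofReal_mul (by norm_num)]
      norm_num
    rw [← hess, ← ENNReal.essSup_const_mul]
    apply essSup_congr_ae
    filter_upwards [huni] with p hp
    have h1 := hp j {s : unitInterval | (p j).1 s ∈ S ∩ ⋂ i, Set.range (p i).1}
    have h2 : (p j).1 '' {s : unitInterval | (p j).1 s ∈ S ∩ ⋂ i, Set.range (p i).1} =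
        S ∩ ⋂ i, Set.range (p i).1 := by
      ext z
      constructor
      · rintro ⟨s, hs, rfl⟩
        exact hs
      · intro hz
        obtain ⟨s, hs⟩ := Set.mem_iInter.mp hz.2 j
        refine ⟨s, ?_, hs⟩
        show (p j).1 s ∈ S ∩ ⋂ i, Set.range (p i).1
        rw [hs]
        exact hz
    rw [h2] at h1
    rw [h1, ← mul_assoc, e2, one_mul]
  · intro hS4
    obtain ⟨t, ht1, ht2⟩ := ENNReal.lt_iff_exists_nnreal_btwn.mp
      (tsub_pos_of_lt hS4 : 0 < dimH S - (k : ℝ≥0∞) / 4)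
    have ht0 : 0 < t := by exact_mod_cast ht1
    have h1 : (k : ℝ≥0∞) / 4 + t < dimH S := by
      rw [add_comm]
      exact lt_tsub_iff_right.mp ht2
    have h2 := hlow t (by exact_mod_cast ht0) (by rwa [ENNReal.ofReal_coe_nnreal])
    rw [ENNReal.ofReal_coe_nnreal] at h2
    rw [pos_iff_ne_zero]
    intro h0
    have h3 : ν {p | ¬ (t : ℝ≥0∞) ≤ dimH (S ∩ ⋂ i, Set.range (p i).1)} = 1 := by
      rw [← hν1]
      apply measure_congr
      have h5 : ∀ᵐ p ∂ν, ¬ (S ∩ ⋂ i, Set.range (p i).1).Nonempty := by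
        rw [ae_iff]
        simpa using h0
      filter_upwards [h5] with p hp
      rw [Set.not_nonempty_iff_eq_empty] at hp
      have : p ∈ {p : Fin k → X | ¬ (t : ℝ≥0∞) ≤ dimH (S ∩ ⋂ i, Set.range (p i).1)} := by
        show ¬ (t : ℝ≥0∞) ≤ dimH (S ∩ ⋂ i, Set.range (p i).1)
        rw [hp, dimH_empty]
        exact not_le.mpr (by exact_mod_cast ht0)
      exact propext ⟨fun _ => trivial, fun _ => this⟩
    exact absurd h2 (by rw [h3]; exact lt_irrefl _)
  · intro hS4
    filter_upwards [hup] with p hp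
    exact hp.2 hS4

end L98X
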