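import Pool.Agent.L5helper98.XP.Two
import Pool.Agent.H934R3.D74.Asm
import Pool.Agent.H934R3.SL.SL
import Pool.Agent.H985R3.TA.STA

/-!
Local events above the end point, in macroscopic units.
-/

set_option autoImplicit false

namespace L98X

open H974 H973 H12S H934E H934F Finset

/-- Events `A x` for the points `x` of `B` at the scale `h` with the radius `r`. -/
def LocOK (R : H934E.Rect) (δ h r : ℝ) (U : Finset Edg) (B : Set ℂ) (c C : ℝ)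
    (A : ℂ → Finset Edg → Prop) : Prop :=
  (∀ x ∈ B, ∀ F, A x F ↔ A x (F ∩ U)) ∧
  (∀ x ∈ B, c * (r / h) ^ (1/4 : ℝ) ≤ Q (R.edges δ) (A x)) ∧
  (∀ x ∈ B, ∀ y ∈ B, Q (R.edges δ) (fun F => A x F ∧ A y F) ≤
    C * (r / h) ^ (1/4 : ℝ) * (r / max (dist x y) r) ^ (1/4 : ℝ)) ∧
  (∀ x ∈ B, ∀ F, F ⊆ R.edges δ → A x F → Metric.infDist x (R.path δ F) ≤ 4 * r)

/-- The box above the end point at the scale `h`. -/
def Bx (h : ℝ) : Set ℂ := {x | |x.re| ≤ h / 2 ∧ 7 * h / 2 ≤ x.im ∧ x.im ≤ 9 * h / 2}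

/-- The lattice point of `x`. -/
noncomputable def zp (δ : ℝ) (x : ℂ) : Vtx := (⌊x.re / δ⌋, ⌊x.im / δ⌋)

theorem zp_spec {δ : ℝ} (hδ : 0 < δ) (x : ℂ) :
    (δ * (zp δ x).1 ≤ x.re ∧ x.re < δ * (zp δ x).1 + δ) ∧
      (δ * (zp δ x).2 ≤ x.im ∧ x.im < δ * (zp δ x).2 + δ) := by
  unfold zp
  have a1 := Int.floor_le (x.re / δ)
  have a2 := Int.lt_floor_add_one (x.re / δ)
  have b1 := Int.floor_le (x.im / δ)
  have b2 := Int.lt_floor_add_one (x.im / δ)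
  rw [le_div_iff₀ hδ] at a1 b1
  rw [div_lt_iff₀ hδ] at a2 b2
  simp only
  refine ⟨⟨by linarith, by linarith⟩, ⟨by linarith, by linarith⟩⟩

theorem fl_spec {δ r : ℝ} (hδ : 0 < δ) (hr : 32 * δ ≤ r) :
    1 ≤ ⌊r / δ⌋ ∧ (⌊r / δ⌋ : ℝ) * δ ≤ r ∧ r ≤ 2 * ((⌊r / δ⌋ : ℝ) * δ) := by
  have a1 := Int.floor_le (r / δ)
  have a2 := Int.lt_floor_add_one (r / δ)
  rw [le_div_iff₀ hδ] at a1
  rw [div_lt_iff₀ hδ] at a2
  have h1 : 1 ≤ ⌊r / δ⌋ := by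
    rw [Int.le_floor, le_div_iff₀ hδ]
    push_cast
    linarith
  refine ⟨h1, a1, by nlinarith⟩

/-- membership in the core -/
theorem core_mem {δ h r : ℝ} {n : ℤ} (hδ : 0 < δ) (hr : 32 * δ ≤ r) (hh : 16 * r ≤ h)
    (hn1 : (n : ℝ) * δ ≤ h) (hn2 : 99 * h ≤ 100 * ((n : ℝ) * δ)) {x : ℂ} (hx : x ∈ Bx h) {v : Vtx}
    (hv : nd v (zp δ x) ≤ ⌊r / δ⌋) : v ∈ core n := by
  obtain ⟨⟨z1, z2⟩, z3, z4⟩ := zp_spec hδ x
  obtain ⟨f1, f2, f3⟩ := fl_spec hδ hr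
  obtain ⟨⟨n1, n2⟩, n3, n4⟩ := nd_le hv
  obtain ⟨x1, x2, x3⟩ := hx
  rw [abs_le] at x1
  have m1 : (v.1 : ℝ) - (zp δ x).1 ≤ ⌊r / δ⌋ := by exact_mod_cast n1
  have m2 : ((zp δ x).1 : ℝ) - v.1 ≤ ⌊r / δ⌋ := by exact_mod_cast n2
  have m3 : (v.2 : ℝ) - (zp δ x).2 ≤ ⌊r / δ⌋ := by exact_mod_cast n3
  have m4 : ((zp δ x).2 : ℝ) - v.2 ≤ ⌊r / δ⌋ := by exact_mod_cast n4
  have lt_of : ∀ {a b : ℝ}, a * δ ≤ b * δ → a ≤ b := fun h => le_of_mul_le_mul_right h hδ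
  rw [mem_core]
  refine ⟨⟨?_, ?_⟩, ?_, ?_⟩
  · have : -(n : ℝ) ≤ v.1 := lt_of (by nlinarith)
    exact_mod_cast this
  · have : (v.1 : ℝ) ≤ n := lt_of (by nlinarith)
    exact_mod_cast this
  · have : 3 * (n : ℝ) ≤ v.2 := lt_of (by nlinarith)
    exact_mod_cast this
  · have : (v.2 : ℝ) ≤ 5 * n := lt_of (by nlinarith)
    exact_mod_cast this

theorem dist_nd {δ : ℝ} (hδ : 0 < δ) (x y : ℂ) :
    dist x y ≤ 2 * δ * (((nd (zp δ x) (zp δ y) : ℤ) : ℝ) + 1) := by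
  obtain ⟨⟨z1, z2⟩, z3, z4⟩ := zp_spec hδ x
  obtain ⟨⟨w1, w2⟩, w3, w4⟩ := zp_spec hδ y
  obtain ⟨⟨n1, n2⟩, n3, n4⟩ := nd_le (le_refl (nd (zp δ x) (zp δ y)))
  set N := nd (zp δ x) (zp δ y) with hN
  have m1 : ((zp δ x).1 : ℝ) - (zp δ y).1 ≤ N := by exact_mod_cast n1
  have m2 : ((zp δ y).1 : ℝ) - (zp δ x).1 ≤ N := by exact_mod_cast n2
  have m3 : ((zp δ x).2 : ℝ) - (zp δ y).2 ≤ N := by exact_mod_cast n3
  have m4 : ((zp δ y).2 : ℝ) - (zp δ x).2 ≤ N := by exact_mod_cast n4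
  rw [Complex.dist_eq]
  have h := Complex.norm_le_abs_re_add_abs_im (x - y)
  have h1 : |(x - y).re| ≤ δ * (N + 1) := by
    rw [Complex.sub_re, abs_le]
    constructor <;> nlinarith
  have h2 : |(x - y).im| ≤ δ * (N + 1) := by
    rw [Complex.sub_im, abs_le]
    constructor <;> nlinarith
  linarith

theorem nd_le_dist {δ h r : ℝ} {n : ℤ} (hδ : 0 < δ) (hr : 32 * δ ≤ r) (hh : 16 * r ≤ h)
    (hn2 : 99 * h ≤ 100 * ((n : ℝ) * δ)) {x y : ℂ} (hx : x ∈ Bx h) (hy : y ∈ Bx h) :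
    nd (zp δ x) (zp δ y) ≤ 2 * n := by
  obtain ⟨⟨z1, z2⟩, z3, z4⟩ := zp_spec hδ x
  obtain ⟨⟨w1, w2⟩, w3, w4⟩ := zp_spec hδ y
  obtain ⟨x1, x2, x3⟩ := hx
  obtain ⟨y1, y2, y3⟩ := hy
  rw [abs_le] at x1 y1
  have lt_of : ∀ {a b : ℝ}, a * δ ≤ b * δ → a ≤ b := fun h => le_of_mul_le_mul_right h hδ
  unfold nd
  rw [max_le_iff, abs_le, abs_le]
  refine ⟨⟨?_, ?_⟩, ?_, ?_⟩
  · have : -(2 * (n : ℝ)) ≤ (zp δ x).1 - (zp δ y).1 := lt_of (by nlinarith)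
    exact_mod_cast this
  · have : ((zp δ x).1 : ℝ) - (zp δ y).1 ≤ 2 * n := lt_of (by nlinarith)
    exact_mod_cast this
  · have : -(2 * (n : ℝ)) ≤ (zp δ x).2 - (zp δ y).2 := lt_of (by nlinarith)
    exact_mod_cast this
  · have : ((zp δ x).2 : ℝ) - (zp δ y).2 ≤ 2 * n := lt_of (by nlinarith)
    exact_mod_cast this

/-- The event at the point `x`. -/
def Ac (s : Bool × Bool) (n : ℤ) (δ r : ℝ) (x : ℂ) (F : Finset Edg) : Prop :=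
  (CL n F ∧ CR n F) ∧ Dv s n (zp δ x) ⌊r / δ⌋ F

theorem pow14 : ((1/2 : ℝ)) ≤ (1/2 : ℝ) ^ (1/4 : ℝ) := by
  calc (1/2 : ℝ) = (1/2 : ℝ) ^ (1 : ℝ) := (Real.rpow_one _).symm
    _ ≤ _ := Real.rpow_le_rpow_of_exponent_ge (by norm_num) (by norm_num) (by norm_num)

/-- The local events above the end point. -/
theorem loc_b : ∃ c C : ℝ, 0 < c ∧ 0 < C ∧ ∀ (R : H934E.Rect) (δ h r : ℝ) (n : ℤ), 0 < δ →
    32 * δ ≤ r → 16 * r ≤ h → 16 * h ≤ R.L0 → (n : ℝ) * δ ≤ h → 99 * h ≤ 100 * ((n : ℝ) * δ) →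
    ∃ A : ℂ → Finset Edg → Prop, LocOK R δ h r (H934F.SR n) (Bx h) c C A := by
  obtain ⟨c, s, hc, hlow⟩ := t12 t1c t2 t3 H985T.st_A H934SL.st_L
  obtain ⟨C, hC, hup⟩ := two_r H985T.st_A
  refine ⟨c / 2, 2 * C, by positivity, by positivity, ?_⟩
  intro R δ h r n hδ hr hh hL hn1 hn2
  have hr0 : 0 < r := by linarith
  have hh0 : 0 < h := by linarith
  have hn0 : 0 < (n : ℝ) * δ := by linarith
  have hnr : (0 : ℝ) < n := by
    by_contra hcon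
    push Not at hcon
    nlinarith
  have hn5 : (2 : ℤ) ≤ n := by
    have h1 : (1 : ℝ) < n := by
      have : 1 * δ < n * δ := by nlinarith
      exact lt_of_mul_lt_mul_right this hδ.le
    have : (1 : ℤ) < n := by exact_mod_cast h1
    omega
  obtain ⟨f1, f2, f3⟩ := fl_spec hδ hr
  have f1' : (1 : ℝ) ≤ ⌊r / δ⌋ := by exact_mod_cast f1
  have hSR : H934F.SR n ⊆ R.edges δ := by
    apply t13_SR R hδ (by omega)
    nlinarith
  have h16 : 16 * (n : ℝ) * δ ≤ R.L0 := by nlinarith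
  have hcore : ∀ x ∈ Bx h, ∀ v : Vtx, nd v (zp δ x) ≤ ⌊r / δ⌋ → v ∈ core n :=
    fun x hx v hv => core_mem hδ hr hh hn1 hn2 hx hv
  refine ⟨Ac s n δ r, ?_, ?_, ?_, ?_⟩
  · intro x hx F
    unfold Ac Dv
    rw [← t6_CL (by omega : 1 ≤ n) F, ← t6_CR (by omega : 1 ≤ n) F]
    have e : (∃ v, nd v (zp δ x) ≤ ⌊r / δ⌋ ∧ E2 s n v F) ↔
        ∃ v, nd v (zp δ x) ≤ ⌊r / δ⌋ ∧ E2 s n v (F ∩ H934F.SR n) := by
      constructor
      · rintro ⟨v, hv, hE⟩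
        exact ⟨v, hv, (t6_E2 (hcore x hx v hv) F).mp hE⟩
      · rintro ⟨v, hv, hE⟩
        exact ⟨v, hv, (t6_E2 (hcore x hx v hv) F).mpr hE⟩
    rw [e]
  · intro x hx
    have h1 := hlow n hn5 (R.edges δ) hSR (zp δ x) ⌊r / δ⌋ f1 (fun v hv => hcore x hx v hv)
    refine le_trans ?_ h1
    have h2 : (1/2 : ℝ) * (r / h) ≤ (⌊r / δ⌋ : ℝ) / n := by
      rw [le_div_iff₀ hnr]
      have h3 : (n : ℝ) ≤ h / δ := by rw [le_div_iff₀ hδ]; exact hn1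
      calc (1/2 : ℝ) * (r / h) * n ≤ (1/2 : ℝ) * (r / h) * (h / δ) :=
            mul_le_mul_of_nonneg_left h3 (by positivity)
        _ = r / (2 * δ) := by field_simp
        _ ≤ _ := by rw [div_le_iff₀ (by positivity)]; linarith
    have h3 : (1/2 : ℝ) * (r / h) ^ (1/4 : ℝ) ≤ ((⌊r / δ⌋ : ℝ) / n) ^ (1/4 : ℝ) := by
      calc (1/2 : ℝ) * (r / h) ^ (1/4 : ℝ) ≤ (1/2 : ℝ) ^ (1/4 : ℝ) * (r / h) ^ (1/4 : ℝ) :=
            mul_le_mul_of_nonneg_right pow14 (by positivity)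
        _ = ((1/2 : ℝ) * (r / h)) ^ (1/4 : ℝ) :=
            (Real.mul_rpow (by norm_num) (by positivity)).symm
        _ ≤ _ := Real.rpow_le_rpow (by positivity) h2 (by norm_num)
    calc c / 2 * (r / h) ^ (1/4 : ℝ) = c * ((1/2 : ℝ) * (r / h) ^ (1/4 : ℝ)) := by ring
      _ ≤ _ := mul_le_mul_of_nonneg_left h3 hc.le
  · intro x hx y hy
    have h1 := hup n ⌊r / δ⌋ f1 (by
      have : (⌊r / δ⌋ : ℝ) ≤ n := le_of_mul_le_mul_right (by nlinarith) hδ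
      exact_mod_cast this) (zp δ x) (zp δ y) (nd_le_dist hδ hr hh hn2 hx hy) (R.edges δ)
      (fun v hv => (geo_arms (hcore x hx v hv)).trans hSR)
      (fun v hv => (geo_arms (hcore y hy v hv)).trans hSR) s
    have h2 : Q (R.edges δ) (fun F => Ac s n δ r x F ∧ Ac s n δ r y F) ≤
        Q (R.edges δ) (fun F => Dv s n (zp δ x) ⌊r / δ⌋ F ∧ Dv s n (zp δ y) ⌊r / δ⌋ F) :=
      Q_mono fun F _ hF => ⟨hF.1.2, hF.2.2⟩
    refine (h2.trans h1).trans ?_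
    have h3 : ((⌊r / δ⌋ : ℝ) / n) ≤ 2 * (r / h) := by
      rw [div_le_iff₀ hnr]
      have h4 : h / (2 * δ) ≤ (n : ℝ) := by
        rw [div_le_iff₀ (by positivity)]
        linarith
      calc (⌊r / δ⌋ : ℝ) ≤ r / δ := Int.floor_le _
        _ = 2 * (r / h) * (h / (2 * δ)) := by field_simp
        _ ≤ _ := mul_le_mul_of_nonneg_left h4 (by positivity)
    have h5 : (⌊r / δ⌋ : ℝ) / max ((nd (zp δ x) (zp δ y) : ℤ) : ℝ) (⌊r / δ⌋ : ℝ) ≤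
        8 * (r / max (dist x y) r) := by
      have hm0 : 0 < max ((nd (zp δ x) (zp δ y) : ℤ) : ℝ) (⌊r / δ⌋ : ℝ) :=
        lt_of_lt_of_le (by linarith) (le_max_right _ _)
      have hd0 : 0 < max (dist x y) r := lt_of_lt_of_le hr0 (le_max_right _ _)
      have h6 : max (dist x y) r ≤
          4 * δ * max ((nd (zp δ x) (zp δ y) : ℤ) : ℝ) (⌊r / δ⌋ : ℝ) := by
        have h7 := le_max_left ((nd (zp δ x) (zp δ y) : ℤ) : ℝ) (⌊r / δ⌋ : ℝ)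
        have h8 := le_max_right ((nd (zp δ x) (zp δ y) : ℤ) : ℝ) (⌊r / δ⌋ : ℝ)
        set Mx := max ((nd (zp δ x) (zp δ y) : ℤ) : ℝ) (⌊r / δ⌋ : ℝ) with hMx
        apply max_le
        · refine (dist_nd hδ x y).trans ?_
          have : ((nd (zp δ x) (zp δ y) : ℤ) : ℝ) + 1 ≤ 2 * Mx := by linarith
          calc 2 * δ * (((nd (zp δ x) (zp δ y) : ℤ) : ℝ) + 1) ≤ 2 * δ * (2 * Mx) :=
                mul_le_mul_of_nonneg_left this (by positivity)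
            _ = _ := by ring
        · refine f3.trans ?_
          have : (⌊r / δ⌋ : ℝ) * δ ≤ Mx * δ := mul_le_mul_of_nonneg_right h8 hδ.le
          nlinarith
      rw [div_le_iff₀ hm0]
      have h7 : (⌊r / δ⌋ : ℝ) ≤ r / δ := Int.floor_le _
      refine h7.trans ?_
      rw [div_le_iff₀ hδ, ← mul_div_assoc, div_mul_eq_mul_div, div_mul_eq_mul_div,
        le_div_iff₀ hd0]
      have h9 := mul_le_mul_of_nonneg_left h6 hr0.le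
      nlinarith
    have h6 : ((⌊r / δ⌋ : ℝ) / n) ^ (1/4 : ℝ) *
        ((⌊r / δ⌋ : ℝ) / max ((nd (zp δ x) (zp δ y) : ℤ) : ℝ) (⌊r / δ⌋ : ℝ)) ^ (1/4 : ℝ) ≤
        (2 * (r / h)) ^ (1/4 : ℝ) * (8 * (r / max (dist x y) r)) ^ (1/4 : ℝ) := by
      have hm0 : 0 < max ((nd (zp δ x) (zp δ y) : ℤ) : ℝ) (⌊r / δ⌋ : ℝ) :=
        lt_of_lt_of_le (by linarith) (le_max_right _ _)
      have hf0 : (0 : ℝ) ≤ ⌊r / δ⌋ := by linarith
      exact mul_le_mul (Real.rpow_le_rpow (by positivity) h3 (by norm_num))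
        (Real.rpow_le_rpow (by positivity) h5 (by norm_num)) (by positivity) (by positivity)
    have h7 : (2 * (r / h)) ^ (1/4 : ℝ) * (8 * (r / max (dist x y) r)) ^ (1/4 : ℝ) =
        2 * ((r / h) ^ (1/4 : ℝ) * (r / max (dist x y) r) ^ (1/4 : ℝ)) := by
      have hd0 : 0 < max (dist x y) r := lt_of_lt_of_le hr0 (le_max_right _ _)
      rw [Real.mul_rpow (by norm_num) (by positivity), Real.mul_rpow (by norm_num) (by positivity)]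
      have h8 : (2 : ℝ) ^ (1/4 : ℝ) * (8 : ℝ) ^ (1/4 : ℝ) = 2 := by
        rw [← Real.mul_rpow (by norm_num) (by norm_num),
          show (2 * 8 : ℝ) = 2 ^ (4 : ℝ) by norm_num, ← Real.rpow_mul (by norm_num)]
        norm_num
      calc (2 : ℝ) ^ (1/4 : ℝ) * (r / h) ^ (1/4 : ℝ) *
            ((8 : ℝ) ^ (1/4 : ℝ) * (r / max (dist x y) r) ^ (1/4 : ℝ)) =
          ((2 : ℝ) ^ (1/4 : ℝ) * (8 : ℝ) ^ (1/4 : ℝ)) *
            ((r / h) ^ (1/4 : ℝ) * (r / max (dist x y) r) ^ (1/4 : ℝ)) := by ring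
        _ = _ := by rw [h8]
    calc C * (((⌊r / δ⌋ : ℝ) / n) ^ (1/4 : ℝ) *
        ((⌊r / δ⌋ : ℝ) / max ((nd (zp δ x) (zp δ y) : ℤ) : ℝ) (⌊r / δ⌋ : ℝ)) ^ (1/4 : ℝ)) ≤
        C * (2 * ((r / h) ^ (1/4 : ℝ) * (r / max (dist x y) r) ^ (1/4 : ℝ))) :=
          mul_le_mul_of_nonneg_left (h6.trans (le_of_eq h7)) hC.le
      _ = _ := by ring
  · rintro x hx F hF ⟨⟨hCL, hCR⟩, v, hv, hE⟩
    obtain ⟨k1, k2⟩ := t4 R δ hδ n hn5 h16 F hF hCL hCR s v (hcore x hx v hv) hE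
    have hmem : t7_pt δ s v ∈ R.path δ F := by
      unfold Rect.path
      rw [Set.mem_iUnion₂]
      exact ⟨(v, s), ⟨k1, k2⟩, left_mem_segment ℝ _ _⟩
    refine (Metric.infDist_le_dist_of_mem hmem).trans ?_
    obtain ⟨⟨z1, z2⟩, z3, z4⟩ := zp_spec hδ x
    obtain ⟨⟨n1, n2⟩, n3, n4⟩ := nd_le hv
    have m1 : (v.1 : ℝ) - (zp δ x).1 ≤ ⌊r / δ⌋ := by exact_mod_cast n1
    have m2 : ((zp δ x).1 : ℝ) - v.1 ≤ ⌊r / δ⌋ := by exact_mod_cast n2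
    have m3 : (v.2 : ℝ) - (zp δ x).2 ≤ ⌊r / δ⌋ := by exact_mod_cast n3
    have m4 : ((zp δ x).2 : ℝ) - v.2 ≤ ⌊r / δ⌋ := by exact_mod_cast n4
    rw [Complex.dist_eq]
    have h := Complex.norm_le_abs_re_add_abs_im (x - t7_pt δ s v)
    have hif : |(if s.1 then δ / 2 else -(δ / 2))| ≤ δ / 2 := by
      split_ifs
      · rw [abs_of_pos (by positivity)]
      · rw [abs_neg, abs_of_pos (by positivity)]
    rw [abs_le] at hif
    have h1 : |(x - t7_pt δ s v).re| ≤ r + 2 * δ := by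
      unfold t7_pt pt
      simp only [Complex.sub_re, Complex.add_re]
      rw [abs_le]
      constructor <;> nlinarith
    have h2 : |(x - t7_pt δ s v).im| ≤ r + 2 * δ := by
      unfold t7_pt pt
      simp only [Complex.sub_im, Complex.add_im]
      rw [abs_le]
      constructor <;> nlinarith
    linarith

end L98X
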