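import Pool.Agent.L5helper98.XP.Mom
import Pool.Agent.L5helper98.XP.Loc

/-!
The grid of test points in the box above the end point.
-/

set_option autoImplicit false

namespace L98X

open H974 H973 H12S H934E H934F Finset

/-- The point of the grid. -/
noncomputable def gp (r : ℝ) (n : ℤ) (v : Vtx) : ℂ := ⟨r * v.1, r * (v.2 + 4 * n)⟩

theorem gp_inj {r : ℝ} (hr : 0 < r) (n : ℤ) : Function.Injective (gp r n) := by
  intro v w h
  have h1 := congrArg Complex.re h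
  have h2 := congrArg Complex.im h
  unfold gp at h1 h2
  simp only at h1 h2
  have h3 : (v.1 : ℝ) = w.1 := mul_left_cancel₀ hr.ne' h1
  have h4 : (v.2 : ℝ) + 4 * n = w.2 + 4 * n := mul_left_cancel₀ hr.ne' h2
  have h5 : (v.2 : ℝ) = w.2 := by linarith
  exact Prod.ext (by exact_mod_cast h3) (by exact_mod_cast h5)

theorem gp_dist {r : ℝ} (hr : 0 < r) (n : ℤ) (v w : Vtx) :
    r * ((nd v w : ℤ) : ℝ) ≤ dist (gp r n v) (gp r n w) := by
  rw [dist_eq_norm]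
  have h1 := Complex.abs_re_le_norm (gp r n v - gp r n w)
  have h2 := Complex.abs_im_le_norm (gp r n v - gp r n w)
  have e1 : (gp r n v - gp r n w).re = r * (v.1 - w.1) := by
    unfold gp; simp only [Complex.sub_re]; ring
  have e2 : (gp r n v - gp r n w).im = r * (v.2 - w.2) := by
    unfold gp; simp only [Complex.sub_im]; ring
  rw [e1, abs_mul, abs_of_pos hr] at h1
  rw [e2, abs_mul, abs_of_pos hr] at h2
  unfold nd
  rcases max_cases |v.1 - w.1| |v.2 - w.2| with h | h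
  · rw [h.1]; push_cast; exact h1
  · rw [h.1]; push_cast; exact h2

theorem gp_mem {r h : ℝ} (hr : 0 < r) {n : ℤ} (hn : h = 2 * r * n) {v : Vtx} (hv : v ∈ core n) :
    gp r n v ∈ Bx h := by
  rw [mem_core] at hv
  obtain ⟨⟨h1, h2⟩, h3, h4⟩ := hv
  have m1 : -(n : ℝ) ≤ v.1 := by exact_mod_cast h1
  have m2 : (v.1 : ℝ) ≤ n := by exact_mod_cast h2
  have m3 : 3 * (n : ℝ) ≤ v.2 := by exact_mod_cast h3
  have m4 : (v.2 : ℝ) ≤ 5 * n := by exact_mod_cast h4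
  unfold gp Bx
  refine ⟨?_, ?_, ?_⟩
  · simp only
    rw [abs_le, hn]
    constructor <;> nlinarith
  · simp only
    rw [hn]
    nlinarith
  · simp only
    rw [hn]
    nlinarith

/-- The test points. -/
noncomputable def Tg (r : ℝ) (n : ℤ) : Finset ℂ := by
  classical exact (core n).image (gp r n)

theorem sum_Tg {r : ℝ} (hr : 0 < r) (n : ℤ) (f : ℂ → ℝ) :
    ∑ x ∈ Tg r n, f x = ∑ v ∈ core n, f (gp r n v) := by
  classical
  unfold Tg
  rw [Finset.sum_image (fun a _ b _ hab => gp_inj hr n hab)]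

theorem Tg_mem {r h : ℝ} (hr : 0 < r) {n : ℤ} (hn : h = 2 * r * n) {x : ℂ} (hx : x ∈ Tg r n) :
    x ∈ Bx h := by
  classical
  unfold Tg at hx
  rw [Finset.mem_image] at hx
  obtain ⟨v, hv, rfl⟩ := hx
  exact gp_mem hr hn hv

theorem Tg_one {r : ℝ} (hr : 0 < r) {n : ℤ} (hn : 0 ≤ n) :
    ∑ _x ∈ Tg r n, (1 : ℝ) = (2 * n + 1) ^ 2 := by
  rw [sum_Tg hr n (fun _ => (1 : ℝ)), Finset.sum_const, nsmul_eq_mul, mul_one]
  exact t5_card hn

theorem Bx_dist {h : ℝ} {x y : ℂ} (hx : x ∈ Bx h) (hy : y ∈ Bx h) : dist x y ≤ 2 * h := by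
  obtain ⟨x1, x2, x3⟩ := hx
  obtain ⟨y1, y2, y3⟩ := hy
  rw [abs_le] at x1 y1
  rw [Complex.dist_eq]
  have h0 := Complex.norm_le_abs_re_add_abs_im (x - y)
  have h1 : |(x - y).re| ≤ h := by
    rw [Complex.sub_re, abs_le]
    constructor <;> linarith
  have h2 : |(x - y).im| ≤ h := by
    rw [Complex.sub_im, abs_le]
    constructor <;> linarith
  linarith

/-- The energy of the grid. -/
theorem Tg_energy {a : ℝ} (ha : 0 ≤ a) (ha2 : a < 2) : ∃ Λ : ℝ, 0 < Λ ∧ ∀ (r h : ℝ) (n : ℤ),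
    0 < r → 1 ≤ n → h = 2 * r * n →
    ∑ x ∈ Tg r n, ∑ y ∈ Tg r n, (1 : ℝ) * 1 * ker r a x y ≤
      Λ * (∑ _x ∈ Tg r n, (1 : ℝ)) ^ 2 * h ^ (-a) := by
  refine ⟨2 ^ a * (1 + 4 / (1 - a / 2)) ^ 2, ?_, ?_⟩
  · have : 0 < 1 - a / 2 := by linarith
    positivity
  intro r h n hr hn hh
  have hn0 : (0 : ℝ) < n := by
    have : (1 : ℝ) ≤ n := by exact_mod_cast hn
    linarith
  have ha3 : 0 < 1 - a / 2 := by linarith
  rw [Tg_one hr (by omega), sum_Tg hr]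
  have h1 : ∀ v ∈ core n, ∑ y ∈ Tg r n, (1 : ℝ) * 1 * ker r a (gp r n v) y ≤
      r ^ (-a) * ((1 + 4 / (1 - a / 2)) ^ 2 * (n : ℝ) ^ (2 - a)) := by
    intro v hv
    rw [sum_Tg hr]
    refine le_trans ?_ (mul_le_mul_of_nonneg_left (t5_two ha ha2 n hn v hv) (by positivity))
    rw [Finset.mul_sum]
    apply Finset.sum_le_sum
    intro w _
    rw [one_mul, one_mul]
    unfold ker
    have hm : (1 : ℝ) ≤ ((max (nd v w) 1 : ℤ) : ℝ) := by
      exact_mod_cast le_max_right (nd v w) 1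
    rw [← Real.mul_rpow hr.le (by linarith)]
    refine Real.rpow_le_rpow_of_nonpos (by positivity) ?_ (by linarith)
    have h6 := gp_dist hr n v w
    rcases max_cases (nd v w) 1 with h | h
    · rw [h.1]; exact h6.trans (le_max_left _ _)
    · rw [h.1]; push_cast; rw [mul_one]; exact le_max_right _ _
  refine (Finset.sum_le_sum h1).trans ?_
  rw [Finset.sum_const, nsmul_eq_mul, t5_card (by omega)]
  have e1 : h ^ (-a) = 2 ^ (-a) * (r ^ (-a) * (n : ℝ) ^ (-a)) := by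
    rw [hh, Real.mul_rpow (by positivity) hn0.le, Real.mul_rpow (by norm_num) hr.le]
    ring
  have e2 : (2 : ℝ) ^ a * 2 ^ (-a) = 1 := by
    rw [← Real.rpow_add (by norm_num)]; simp
  have e3 : (n : ℝ) ^ (2 - a) = (n : ℝ) ^ 2 * (n : ℝ) ^ (-a) := by
    rw [sub_eq_add_neg, Real.rpow_add hn0]
    norm_num
  rw [e1, e3]
  have h2 : (n : ℝ) ^ 2 ≤ (2 * (n : ℝ) + 1) ^ 2 := by nlinarith
  set C := (1 + 4 / (1 - a / 2)) ^ 2 with hC
  have hC0 : 0 < C := by positivity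
  have hra : 0 < r ^ (-a) := by positivity
  have hna : 0 < (n : ℝ) ^ (-a) := by positivity
  calc (2 * (n : ℝ) + 1) ^ 2 * (r ^ (-a) * (C * ((n : ℝ) ^ 2 * (n : ℝ) ^ (-a))))
      = (n : ℝ) ^ 2 * ((2 * (n : ℝ) + 1) ^ 2 * (r ^ (-a) * (C * (n : ℝ) ^ (-a)))) := by ring
    _ ≤ (2 * (n : ℝ) + 1) ^ 2 * ((2 * (n : ℝ) + 1) ^ 2 * (r ^ (-a) * (C * (n : ℝ) ^ (-a)))) :=
        mul_le_mul_of_nonneg_right h2 (by positivity)
    _ = (2 ^ a * 2 ^ (-a)) * C * ((2 * (n : ℝ) + 1) ^ 2) ^ 2 * (r ^ (-a) * (n : ℝ) ^ (-a)) := by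
        rw [e2]; ring
    _ = _ := by ring

end L98X
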