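import Pool.Agent.L5helper98.XP.Loc

/-!
Two-point upper bound for the event that the path meets two discs.
-/

set_option autoImplicit false

namespace L98X

open H974 H973 H12S H934E H934F Finset

theorem loc_near {S F : Finset Edg} (hF : F ⊆ S) (z : Vtx) {ρ R R1 : ℕ} (hR : R1 ≤ R)
    (h : Crs z.1 z.2 ρ R (↑F : Set Edg) ∧ DCrs z.1 z.2 ρ R (↑(S \ F) : Set Edg)) :
    t3_An (S ∩ t3_B z R1) z ρ R1 F := by
  obtain ⟨⟨x, y, hx, hy, h1⟩, ⟨f, g, hf, hg, h2⟩⟩ := h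
  constructor
  · obtain ⟨w, hw, hp⟩ := t3_reach (G := (↑(F ∩ (S ∩ t3_B z R1)) : Set Edg))
      (X := (↑(t3_B z R1) : Set Edg)) (t3_in z R1)
      (fun e _ he => by exact_mod_cast t3_edge_near he) (by
        rintro e ⟨h3, h4⟩
        rw [Finset.coe_inter, Finset.coe_inter]
        exact ⟨h3, Finset.mem_coe.mpr (hF (Finset.mem_coe.mp h3)), h4⟩) h1
      (by unfold t3_in; omega)
    exact ⟨x, w, hx, by unfold t3_in at hw; omega, hp⟩
  · obtain ⟨w, hw, hp⟩ := t3_dreach (G := (↑((S ∩ t3_B z R1) \ F) : Set Edg))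
      (X := (↑(t3_B z R1) : Set Edg)) (t3_in z R1)
      (fun e _ he => by exact_mod_cast t3_edge_near' he) (by
        rintro e ⟨h3, h4⟩
        rw [Finset.coe_sdiff] at h3 ⊢
        rw [Finset.coe_inter]
        exact ⟨⟨h3.1, h4⟩, h3.2⟩) h2
      (by unfold t3_in; omega)
    exact ⟨f, w, hf, by unfold t3_in at hw; omega, hp⟩

theorem loc_far {S F : Finset Edg} (hF : F ⊆ S) (z : Vtx) {ρ R m : ℕ} (hm : ρ ≤ m) (_hmR : m < R)
    (h : Crs z.1 z.2 ρ R (↑F : Set Edg) ∧ DCrs z.1 z.2 ρ R (↑(S \ F) : Set Edg)) :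
    t3_An (S \ t3_B z (m - 1 : ℤ)) z m R F := by
  obtain ⟨⟨x, y, hx, hy, h1⟩, ⟨f, g, hf, hg, h2⟩⟩ := h
  unfold inR at hx hf
  constructor
  · obtain ⟨w, hw, hp⟩ := t3_reach (G := (↑(F ∩ (S \ t3_B z (m - 1 : ℤ))) : Set Edg))
      (X := (↑(t3_B z (m - 1 : ℤ)) : Set Edg)ᶜ)
      (fun w => ¬ (z.1 - m ≤ w.1 ∧ w.1 ≤ z.1 + m ∧ z.2 - m ≤ w.2 ∧ w.2 ≤ z.2 + m))
      (fun e _ he => by
        intro h3
        have h4 := t3_edge_far (e := e) (Finset.mem_coe.mp h3)
        omega) (by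
        rintro e ⟨h3, h4⟩
        rw [Finset.coe_inter, Finset.coe_sdiff]
        exact ⟨h3, Finset.mem_coe.mpr (hF (Finset.mem_coe.mp h3)), h4⟩)
      h1.symm (by omega)
    refine ⟨w, y, ?_, hy, hp.symm⟩
    unfold inR; omega
  · obtain ⟨w, hw, hp⟩ := t3_dreach (G := (↑((S \ t3_B z (m - 1 : ℤ)) \ F) : Set Edg))
      (X := (↑(t3_B z (m - 1 : ℤ)) : Set Edg)ᶜ)
      (fun w => ¬ (z.1 - m ≤ w.1 ∧ w.1 ≤ z.1 + m ∧ z.2 - m ≤ w.2 ∧ w.2 ≤ z.2 + m))
      (fun e _ he => by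
        intro h3
        have h4 := t3_edge_far (e := e) (Finset.mem_coe.mp h3)
        omega) (by
        rintro e ⟨h3, h4⟩
        rw [Finset.coe_sdiff] at h3 ⊢
        rw [Finset.coe_sdiff]
        exact ⟨⟨h3.1, h4⟩, h3.2⟩)
      h2.symm (by omega)
    refine ⟨w, g, ?_, hg, hp.symm⟩
    unfold inR; omega

/-- numbers -/
theorem num_hit {C : ℝ} (hC : 0 < C) {ρ R1 K N r d κ u δ : ℝ} (hδ : 0 < δ) (hr : 0 < r)
    (hd : 0 < d) (hκ : 0 < κ) (hρ0 : 0 ≤ ρ) (hρ : ρ * δ ≤ 6 * r) (hR1 : κ ≤ 4 * (R1 * δ))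
    (hK0 : 0 ≤ K) (hK : K * δ = κ) (hN : d ≤ 8 * (N * δ)) (hu : 0 < u) (hu2 : u ≤ 4 * κ)
    {q1 q2 q3 : ℝ} (h1 : q1 ≤ C * (ρ / R1) ^ (1/4 : ℝ)) (h2 : q2 ≤ C * (ρ / R1) ^ (1/4 : ℝ))
    (h3 : q3 ≤ C * (2 * K / N) ^ (1/4 : ℝ)) (h02 : 0 ≤ q2) (h03 : 0 ≤ q3) :
    q1 * (q2 * q3) ≤ 20 * C ^ 3 * ((r / d) ^ (1/4 : ℝ) * (r / u) ^ (1/4 : ℝ)) := by
  have hR10 : 0 < R1 := by
    by_contra hcon
    push Not at hcon
    nlinarith
  have hN0 : 0 < N := by
    by_contra hcon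
    push Not at hcon
    nlinarith
  have e1 : (ρ / R1) ^ (1/4 : ℝ) ≤ (24 * (r / κ)) ^ (1/4 : ℝ) := by
    apply Real.rpow_le_rpow (by positivity) _ (by norm_num)
    rw [← mul_div_assoc, div_le_div_iff₀ hR10 hκ]
    have h5 : ρ * δ * κ ≤ 6 * r * (4 * (R1 * δ)) :=
      mul_le_mul hρ hR1 hκ.le (by positivity)
    have h6 : δ * (ρ * κ) ≤ δ * (24 * r * R1) := by nlinarith
    exact le_of_mul_le_mul_left h6 hδ
  have e2 : (2 * K / N) ^ (1/4 : ℝ) ≤ (16 * (κ / d)) ^ (1/4 : ℝ) := by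
    apply Real.rpow_le_rpow (by positivity) _ (by norm_num)
    rw [← mul_div_assoc, div_le_div_iff₀ hN0 hd, ← hK]
    have h5 : K * d ≤ K * (8 * (N * δ)) := mul_le_mul_of_nonneg_left hN hK0
    nlinarith
  have e3 : (24 * (r / κ)) ^ (1/4 : ℝ) * ((24 * (r / κ)) ^ (1/4 : ℝ) *
      (16 * (κ / d)) ^ (1/4 : ℝ)) ≤ 20 * ((r / d) ^ (1/4 : ℝ) * (r / u) ^ (1/4 : ℝ)) := by
    have e4 : (24 * (r / κ)) ^ (1/4 : ℝ) * ((24 * (r / κ)) ^ (1/4 : ℝ) *
        (16 * (κ / d)) ^ (1/4 : ℝ)) = (9216 * ((r / d) * (r / κ))) ^ (1/4 : ℝ) := by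
      rw [← Real.mul_rpow (by positivity) (by positivity),
        ← Real.mul_rpow (by positivity) (by positivity)]
      congr 1
      field_simp
      norm_num
    have e5 : (20 : ℝ) = (160000 : ℝ) ^ (1/4 : ℝ) := by
      rw [show (160000 : ℝ) = 20 ^ (4 : ℝ) by norm_num, ← Real.rpow_mul (by norm_num)]
      norm_num
    rw [e4]
    rw [e5, ← Real.mul_rpow (by positivity) (by positivity),
      ← Real.mul_rpow (by norm_num) (by positivity)]
    apply Real.rpow_le_rpow (by positivity) _ (by norm_num)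
    have h7 : r / κ ≤ 4 * (r / u) := by
      rw [← mul_div_assoc, div_le_div_iff₀ hκ hu]
      nlinarith
    have h8 : r / d * (r / κ) ≤ r / d * (4 * (r / u)) :=
      mul_le_mul_of_nonneg_left h7 (by positivity)
    have h9 : 0 < r / d * (r / u) := by positivity
    nlinarith
  have g1 := h1.trans (mul_le_mul_of_nonneg_left e1 hC.le)
  have g2 := h2.trans (mul_le_mul_of_nonneg_left e1 hC.le)
  have g3 := h3.trans (mul_le_mul_of_nonneg_left e2 hC.le)
  set a := (24 * (r / κ)) ^ (1/4 : ℝ) with ha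
  set c := (16 * (κ / d)) ^ (1/4 : ℝ) with hc
  have a0 : 0 < a := by positivity
  have c0 : 0 < c := by positivity
  calc q1 * (q2 * q3) ≤ (C * a) * ((C * a) * (C * c)) := by
        apply mul_le_mul g1 (mul_le_mul g2 g3 h03 (by positivity)) (by positivity) (by positivity)
    _ = C ^ 3 * (a * (a * c)) := by ring
    _ ≤ C ^ 3 * (20 * ((r / d) ^ (1/4 : ℝ) * (r / u) ^ (1/4 : ℝ))) :=
        mul_le_mul_of_nonneg_left e3 (by positivity)
    _ = _ := by ring

/-- Upper bound for the probability that the path meets two discs. -/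
theorem hit2 : ∃ C : ℝ, 0 < C ∧ ∀ (R : H934E.Rect) (x y : ℂ) (r d δ : ℝ), 0 < r → r ≤ d →
    Metric.ball x d ⊆ R.D → Metric.ball y d ⊆ R.D → 16 * dist x y ≤ d → 0 < δ → δ ≤ r →
    Q (R.edges δ) (fun F => (R.path δ F ∩ Metric.ball x r).Nonempty ∧
      (R.path δ F ∩ Metric.ball y r).Nonempty) ≤
      C * ((r / d) ^ (1/4 : ℝ) * (r / max (dist x y) r) ^ (1/4 : ℝ)) := by
  obtain ⟨C1, hC1, h9⟩ := t9 H985T.st_A
  obtain ⟨C, hC, hA⟩ := H985T.st_A
  refine ⟨20 * C ^ 3 + 4 * C1, by positivity, ?_⟩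
  intro R x y r d δ hr hrd hbx hby hxy hδ hδr
  have hd : 0 < d := hr.trans_le hrd
  set u := max (dist x y) r with hu
  have hu0 : 0 < u := lt_of_lt_of_le hr (le_max_right _ _)
  have nn : 0 ≤ (r / d) ^ (1/4 : ℝ) * (r / u) ^ (1/4 : ℝ) := by positivity
  by_cases hfar : dist x y ≤ 200 * r
  · -- close points
    have hopen : IsOpen {K : TopologicalSpace.NonemptyCompacts ℂ |
        ((K : Set ℂ) ∩ Metric.ball x r).Nonempty} :=
      TopologicalSpace.NonemptyCompacts.isOpen_inter_nonempty_of_isOpen Metric.isOpen_ball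
    have h1 := h9 R x r d hr hrd hbx δ hδ hδr
    rw [R.law_apply hδ hopen.measurableSet] at h1
    have h2 : Q (R.edges δ) (fun F => (R.path δ F ∩ Metric.ball x r).Nonempty) ≤
        C1 * (r / d) ^ (1/4 : ℝ) := by
      exact (ENNReal.ofReal_le_ofReal_iff (by positivity)).mp h1
    have h3 : (1/4 : ℝ) ≤ (r / u) ^ (1/4 : ℝ) := by
      have e : (1/4 : ℝ) = (1/256 : ℝ) ^ (1/4 : ℝ) := by
        rw [show (1/256 : ℝ) = (1/4) ^ (4 : ℝ) by norm_num, ← Real.rpow_mul (by norm_num)]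
        norm_num
      refine e.trans_le ?_
      have h4 : u ≤ 200 * r := max_le hfar (by linarith)
      refine Real.rpow_le_rpow (by norm_num) ?_ (by norm_num)
      rw [div_le_div_iff₀ (by norm_num) hu0]
      linarith
    have h5 : Q (R.edges δ) (fun F => (R.path δ F ∩ Metric.ball x r).Nonempty ∧
        (R.path δ F ∩ Metric.ball y r).Nonempty) ≤ C1 * (r / d) ^ (1/4 : ℝ) :=
      (Q_mono fun F _ hF => hF.1).trans h2
    have h6 : 0 ≤ (r / d) ^ (1/4 : ℝ) := by positivity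
    calc _ ≤ C1 * (r / d) ^ (1/4 : ℝ) := h5
      _ = 4 * C1 * ((r / d) ^ (1/4 : ℝ) * (1/4)) := by ring
      _ ≤ 4 * C1 * ((r / d) ^ (1/4 : ℝ) * (r / u) ^ (1/4 : ℝ)) := by
        apply mul_le_mul_of_nonneg_left _ (by positivity)
        exact mul_le_mul_of_nonneg_left h3 h6
      _ ≤ (20 * C ^ 3 + 4 * C1) * ((r / d) ^ (1/4 : ℝ) * (r / u) ^ (1/4 : ℝ)) := by
        apply mul_le_mul_of_nonneg_right _ nn
        have : 0 < C ^ 3 := by positivity
        linarith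
  · push Not at hfar
    have hu1 : u = dist x y := max_eq_left (by linarith)
    have h64 : 64 * r ≤ d := by linarith
    set zx := zp δ x with hzx
    set zy := zp δ y with hzy
    set ρ : ℕ := ⌈r / δ⌉₊ + 4 with hρ
    set N : ℕ := ⌊d / (4 * δ)⌋₊ with hN
    have hk0 : 0 ≤ nd zx zy := le_max_of_le_left (abs_nonneg _)
    obtain ⟨K, hK⟩ := Int.eq_ofNat_of_zero_le hk0
    have hKr : ((nd zx zy : ℤ) : ℝ) = (K : ℝ) := by rw [hK]; norm_cast
    -- real estimates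
    have hr1 : 1 ≤ r / δ := by rw [le_div_iff₀ hδ]; linarith
    have hρ1 : (ρ : ℝ) * δ ≤ 6 * r := by
      have h1 : (⌈r / δ⌉₊ : ℝ) < r / δ + 1 := Nat.ceil_lt_add_one (by positivity)
      have h2 : (ρ : ℝ) ≤ 6 * (r / δ) := by
        rw [hρ]
        push_cast
        linarith
      calc (ρ : ℝ) * δ ≤ 6 * (r / δ) * δ := mul_le_mul_of_nonneg_right h2 hδ.le
        _ = 6 * r := by field_simp
    have hN1 : d / (4 * δ) < (N : ℝ) + 1 := Nat.lt_floor_add_one _
    rw [div_lt_iff₀ (by positivity)] at hN1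
    have hN2 : d ≤ 8 * ((N : ℝ) * δ) := by nlinarith
    have hKl : dist x y ≤ 2 * δ * ((K : ℝ) + 1) := by
      have := dist_nd hδ x y
      rw [← hzx, ← hzy, hKr] at this
      exact this
    have hKu : (K : ℝ) * δ ≤ dist x y + δ := by
      obtain ⟨⟨z1, z2⟩, z3, z4⟩ := zp_spec hδ x
      obtain ⟨⟨w1, w2⟩, w3, w4⟩ := zp_spec hδ y
      rw [← hzx] at z1 z2 z3 z4
      rw [← hzy] at w1 w2 w3 w4
      have a1 := Complex.abs_re_le_norm (x - y)
      have a2 := Complex.abs_im_le_norm (x - y)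
      rw [← Complex.dist_eq, Complex.sub_re, abs_le] at a1
      rw [← Complex.dist_eq, Complex.sub_im, abs_le] at a2
      have hc := (t3_nd hK).2
      rcases hc with hc | hc | hc | hc
      · have : (zx.1 : ℝ) - zy.1 = K := by exact_mod_cast hc
        nlinarith
      · have : (zy.1 : ℝ) - zx.1 = K := by exact_mod_cast hc
        nlinarith
      · have : (zx.2 : ℝ) - zy.2 = K := by exact_mod_cast hc
        nlinarith
      · have : (zy.2 : ℝ) - zx.2 = K := by exact_mod_cast hc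
        nlinarith
    have hlt : ∀ {a b : ℝ}, a * δ < b * δ → a < b := fun h => lt_of_mul_lt_mul_right h hδ.le
    have hKρ : 4 * (ρ + 2) < K := by
      have : (4 * ((ρ : ℝ) + 2)) < K := hlt (by nlinarith)
      exact_mod_cast this
    have hKN : 2 * K < N := by
      have : (2 * (K : ℝ)) < N := hlt (by nlinarith)
      exact_mod_cast this
    obtain ⟨R1, hR1, hR2⟩ : ∃ R1 : ℕ, 2 * R1 < K ∧ K ≤ 4 * R1 := ⟨(K - 1) / 2, by omega, by omega⟩
    set S := R.edges δ with hS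
    set X1 := S ∩ t3_B zx R1 with hX1
    set X2 := S ∩ t3_B zy R1 with hX2
    set X3 := S \ t3_B zx (((2 * K : ℕ) : ℤ) - 1) with hX3
    have s1 : X1 ⊆ S := Finset.inter_subset_left
    have s2 : X2 ⊆ S := Finset.inter_subset_left
    have s3 : X3 ⊆ S := Finset.sdiff_subset
    have d12 : Disjoint X1 X2 := by
      refine Finset.disjoint_of_subset_left Finset.inter_subset_right ?_
      exact Finset.disjoint_of_subset_right Finset.inter_subset_right (t3_disj hK hR1)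
    have d13 : Disjoint X1 X3 :=
      Finset.disjoint_of_subset_left (Finset.inter_subset_right.trans (t3_sub' hR1))
        Finset.disjoint_sdiff
    have d23 : Disjoint X2 X3 :=
      Finset.disjoint_of_subset_left (Finset.inter_subset_right.trans (t3_sub hK hR1))
        Finset.disjoint_sdiff
    have i23 : Q S (fun F => t3_An X2 zy ρ R1 F ∧ t3_An X3 zx (2 * K) N F) =
        Q S (t3_An X2 zy ρ R1) * Q S (t3_An X3 zx (2 * K) N) :=
      Pr_indep s2 s3 d23 (fun F _ => t3_loc _ _ _ _ F) (fun F _ => t3_loc _ _ _ _ F)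
    have i1 : Q S (fun F => t3_An X1 zx ρ R1 F ∧
        (t3_An X2 zy ρ R1 F ∧ t3_An X3 zx (2 * K) N F)) =
        Q S (t3_An X1 zx ρ R1) *
          Q S (fun F => t3_An X2 zy ρ R1 F ∧ t3_An X3 zx (2 * K) N F) := by
      apply Pr_indep s1 (Finset.union_subset s2 s3) (Finset.disjoint_union_right.2 ⟨d12, d13⟩)
        (fun F _ => t3_loc _ _ _ _ F)
      intro F _
      rw [t3_loc' (X := X2) Finset.subset_union_left (Y := X2 ∪ X3),
        t3_loc' (X := X3) Finset.subset_union_right (Y := X2 ∪ X3)]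
    have h1 : Q S (fun F => (R.path δ F ∩ Metric.ball x r).Nonempty ∧
        (R.path δ F ∩ Metric.ball y r).Nonempty) ≤
        Q S (fun F => t3_An X1 zx ρ R1 F ∧ (t3_An X2 zy ρ R1 F ∧ t3_An X3 zx (2 * K) N F)) := by
      apply Q_mono
      rintro F hF ⟨hx1, hy1⟩
      have g1 := t9_det R hδ hδr h64 hbx hx1
      have g2 := t9_det R hδ hδr h64 hby hy1
      exact ⟨loc_near hF zx (by omega) g1, loc_near hF zy (by omega) g2,
        loc_far hF zx (by omega) hKN g1⟩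
    rw [i1, i23] at h1
    have p1 := t3_pr hA s1 zx (by omega : 1 ≤ ρ) (by omega : ρ ≤ R1)
    have p2 := t3_pr hA s2 zy (by omega : 1 ≤ ρ) (by omega : ρ ≤ R1)
    have p3 := t3_pr hA s3 zx (by omega : 1 ≤ 2 * K) (by omega : 2 * K ≤ N)
    have e2K : (((2 * K : ℕ)) : ℝ) = 2 * (K : ℝ) := by push_cast; ring
    rw [e2K] at p3
    have hK0 : (0 : ℝ) < K := by
      have : 0 < K := by omega
      exact_mod_cast this
    have h2 := num_hit hC (κ := (K : ℝ) * δ) (u := u) hδ hr hd (by positivity) (Nat.cast_nonneg ρ)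
      hρ1 (by
        have : (K : ℝ) ≤ 4 * R1 := by exact_mod_cast hR2
        nlinarith) hK0.le rfl hN2 hu0 (by
        rw [hu1]
        nlinarith) p1 p2 p3 (Q_nonneg _ _) (Q_nonneg _ _)
    refine (h1.trans h2).trans ?_
    apply mul_le_mul_of_nonneg_right _ nn
    linarith

end L98X
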