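import Pool.Agent.H934R2.Expl.Model
import Pool.Agent.H934R2.Expl.Mom
import Pool.Agent.H12R2.Sep.Defs

/-!
Independent configurations: a family `(F_i)` of sets of edges is coded by one set of pairs `(i, e)`.
-/

set_option autoImplicit false

namespace L98X

open H974 H973 H12S H934E Finset MeasureTheory TopologicalSpace

variable {ι : Type*} [Fintype ι] [DecidableEq ι]

/-- The configuration number `i`. -/
def sec (G : Finset (ι × Edg)) (i : ι) : Finset Edg := (G.filter (fun x => x.1 = i)).image Prod.snd

omit [Fintype ι] in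
theorem mem_sec {G : Finset (ι × Edg)} {i : ι} {e : Edg} : e ∈ sec G i ↔ (i, e) ∈ G := by
  unfold sec
  rw [Finset.mem_image]
  constructor
  · rintro ⟨⟨j, e'⟩, h1, h2⟩
    rw [Finset.mem_filter] at h1
    obtain ⟨h3, h4⟩ := h1
    simp only at h2 h4
    rw [← h2, ← h4]
    exact h3
  · intro h
    exact ⟨(i, e), Finset.mem_filter.mpr ⟨h, rfl⟩, rfl⟩

/-- The `i`-th copy of the edges. -/
def emb (i : ι) : Edg ↪ ι × Edg := ⟨fun e => (i, e), fun a b h => by
  have := congrArg Prod.snd h
  exact this⟩

/-- The edges of all copies. -/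
def tot (S : ι → Finset Edg) : Finset (ι × Edg) := Finset.univ.biUnion (fun i => (S i).map (emb i))

theorem mem_tot {S : ι → Finset Edg} {i : ι} {e : Edg} : (i, e) ∈ tot S ↔ e ∈ S i := by
  unfold tot
  rw [Finset.mem_biUnion]
  constructor
  · rintro ⟨j, _, h⟩
    rw [Finset.mem_map] at h
    obtain ⟨e', h1, h2⟩ := h
    have h3 := congrArg Prod.fst h2
    have h4 := congrArg Prod.snd h2
    simp only [emb, Function.Embedding.coeFn_mk] at h3 h4
    subst h3 h4
    exact h1
  · intro h
    exact ⟨i, Finset.mem_univ _, Finset.mem_map.mpr ⟨e, h, rfl⟩⟩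

theorem tot_mono {S T : ι → Finset Edg} (h : ∀ i, S i ⊆ T i) : tot S ⊆ tot T := by
  rintro ⟨i, e⟩ he
  rw [mem_tot] at he ⊢
  exact h i he

theorem sec_sub {S : ι → Finset Edg} {G : Finset (ι × Edg)} (hG : G ⊆ tot S) (i : ι) :
    sec G i ⊆ S i := by
  intro e he
  rw [mem_sec] at he
  exact mem_tot.mp (hG he)

theorem sec_inter_tot (G : Finset (ι × Edg)) (S : ι → Finset Edg) (i : ι) :
    sec (G ∩ tot S) i = sec G i ∩ S i := by
  ext e
  rw [mem_sec, Finset.mem_inter, Finset.mem_inter, mem_sec, mem_tot]

omit [Fintype ι] in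
theorem sec_map (F : Finset Edg) (i : ι) : sec (F.map (emb i)) i = F := by
  ext e
  rw [mem_sec, Finset.mem_map]
  constructor
  · rintro ⟨e', h1, h2⟩
    have h4 := congrArg Prod.snd h2
    simp only [emb, Function.Embedding.coeFn_mk] at h4
    subst h4
    exact h1
  · intro h
    exact ⟨e, h, rfl⟩

theorem tot_disj {S T : ι → Finset Edg} (h : ∀ i, Disjoint (S i) (T i)) :
    Disjoint (tot S) (tot T) := by
  rw [Finset.disjoint_left]
  rintro ⟨i, e⟩ h1 h2
  rw [mem_tot] at h1 h2
  exact (Finset.disjoint_left.mp (h i)) h1 h2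

/-- fair coins -/
noncomputable abbrev hf : ι × Edg → ℝ := fun _ => (1/2 : ℝ)

omit [Fintype ι] [DecidableEq ι] in
theorem hf_ok : Ok (hf : ι × Edg → ℝ) := fun _ => by unfold hf; norm_num

/-- Probability for a family of independent configurations. -/
noncomputable abbrev QK (S : ι → Finset Edg) (A : Finset (ι × Edg) → Prop) : ℝ := Pr hf (tot S) A

/-- Expectation for a family of independent configurations. -/
noncomputable abbrev EK (S : ι → Finset Edg) (f : Finset (ι × Edg) → ℝ) : ℝ := Ex hf (tot S) f

/-- one copy -/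
theorem Ex_one (S : ι → Finset Edg) (i : ι) (f : Finset Edg → ℝ) :
    EK S (fun G => f (sec G i)) = EE (S i) f := by
  unfold EK EE
  have hsub : (S i).map (emb i) ⊆ tot S := by
    unfold tot
    exact Finset.subset_biUnion_of_mem (fun i => (S i).map (emb i)) (Finset.mem_univ i)
  rw [Ex_local hsub]
  · rw [Ex_map]
    apply Ex_congr
    intro F _
    rw [sec_map]
  · intro G hG
    congr 1
    ext e
    rw [mem_sec, mem_sec, Finset.mem_inter, Finset.mem_map]
    constructor
    · intro h
      exact ⟨h, e, mem_tot.mp (hG h), rfl⟩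
    · exact fun h => h.1

/-- Independence of the copies. -/
theorem Ex_prod (S : ι → Finset Edg) (f : ι → Finset Edg → ℝ) :
    EK S (fun G => ∏ i, f i (sec G i)) = ∏ i, EE (S i) (f i) := by
  have key : ∀ T : Finset ι, EK S (fun G => ∏ i ∈ T, f i (sec G i)) = ∏ i ∈ T, EE (S i) (f i) := by
    intro T
    induction T using Finset.induction_on with
    | empty =>
      simp only [Finset.prod_empty]
      exact Ex_const _ _ _
    | insert a T ha ih =>
      rw [Finset.prod_insert ha, ← ih, ← Ex_one S a (f a)]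
      have e1 : (fun G : Finset (ι × Edg) => ∏ i ∈ insert a T, f i (sec G i)) =
          fun G => f a (sec G a) * ∏ i ∈ T, f i (sec G i) := by
        funext G
        rw [Finset.prod_insert ha]
      rw [e1]
      refine Ex_mul_indep (S := (S a).map (emb a)) (T := T.biUnion (fun i => (S i).map (emb i)))
        ?_ ?_ ?_ ?_ ?_
      · unfold tot
        exact Finset.subset_biUnion_of_mem (fun i => (S i).map (emb i)) (Finset.mem_univ a)
      · unfold tot
        exact Finset.biUnion_subset_biUnion_of_subset_left _ (Finset.subset_univ _)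
      · rw [Finset.disjoint_left]
        rintro ⟨i, e⟩ h1 h2
        rw [Finset.mem_map] at h1
        obtain ⟨e1, _, h3⟩ := h1
        rw [Finset.mem_biUnion] at h2
        obtain ⟨j, hj, h2⟩ := h2
        rw [Finset.mem_map] at h2
        obtain ⟨e2, _, h4⟩ := h2
        have h5 := congrArg Prod.fst h3
        have h6 := congrArg Prod.fst h4
        simp only [emb, Function.Embedding.coeFn_mk] at h5 h6
        rw [h5, ← h6] at ha
        exact ha hj
      · intro G hG
        congr 1
        ext e
        rw [mem_sec, mem_sec, Finset.mem_inter, Finset.mem_map]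
        constructor
        · intro h
          exact ⟨h, e, mem_tot.mp (hG h), rfl⟩
        · exact fun h => h.1
      · intro G hG
        apply Finset.prod_congr rfl
        intro i hi
        congr 1
        ext e
        rw [mem_sec, mem_sec, Finset.mem_inter, Finset.mem_biUnion]
        constructor
        · intro h
          exact ⟨h, i, hi, Finset.mem_map.mpr ⟨e, mem_tot.mp (hG h), rfl⟩⟩
        · exact fun h => h.1
  exact key Finset.univ

omit [DecidableEq ι] in
theorem ind_forall (P : ι → Prop) : ind (∀ i, P i) = ∏ i, ind (P i) := by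
  by_cases h : ∀ i, P i
  · rw [ind_of h]
    symm
    apply Finset.prod_eq_one
    intro i _
    exact ind_of (h i)
  · rw [ind_not_of h]
    symm
    push Not at h
    obtain ⟨i, hi⟩ := h
    exact Finset.prod_eq_zero (Finset.mem_univ i) (ind_not_of hi)

theorem QK_forall (S : ι → Finset Edg) (A : ι → Finset Edg → Prop) :
    QK S (fun G => ∀ i, A i (sec G i)) = ∏ i, Q (S i) (A i) := by
  unfold QK Pr
  have h := Ex_prod S (fun i F => ind (A i F))
  unfold EK EE at h
  rw [show (fun G : Finset (ι × Edg) => ind (∀ i, A i (sec G i))) =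
    fun G => ∏ i, ind (A i (sec G i)) from funext fun G => ind_forall _]
  exact h

/-! ### Inequalities -/

theorem markovK {S : ι → Finset Edg} {f : Finset (ι × Edg) → ℝ} (hnn : ∀ F, 0 ≤ f F) {t : ℝ}
    (ht : 0 < t) : QK S (fun F => t ≤ f F) ≤ EK S f / t := by
  rw [le_div_iff₀ ht, mul_comm]
  unfold QK Pr EK
  rw [← Ex_mul_left]
  apply Ex_mono hf_ok
  intro F _
  by_cases h : t ≤ f F
  · rw [ind_of h]; linarith
  · rw [ind_not_of h, mul_zero]; exact hnn F

theorem paleyK {S : ι → Finset Edg} {f : Finset (ι × Edg) → ℝ} (hnn : ∀ F, 0 ≤ f F) {m V : ℝ}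
    (hm : 0 < m) (hV : 0 < V) (h1 : m ≤ EK S f) (h2 : EK S (fun F => f F * f F) ≤ V) :
    m ^ 2 / (4 * V) ≤ QK S (fun F => m / 2 ≤ f F) := by
  have key : EK S f ≤ EK S (fun F => m / 2 + (m / (4 * V) * (f F * f F) +
      V / m * ind (m / 2 ≤ f F))) := by
    apply Ex_mono hf_ok
    intro F _
    have h0 := hnn F
    by_cases h : m / 2 ≤ f F
    · rw [ind_of h, mul_one]
      have : f F ≤ m / (4 * V) * (f F * f F) + V / m := by
        have e : m / (4 * V) * (f F * f F) + V / m - f F = (m * f F - 2 * V) ^ 2 / (4 * V * m) := by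
          field_simp
          ring
        have : 0 ≤ (m * f F - 2 * V) ^ 2 / (4 * V * m) := by positivity
        linarith
      linarith
    · rw [ind_not_of h, mul_zero]
      push Not at h
      have : 0 ≤ m / (4 * V) * (f F * f F) := by positivity
      linarith
  have e1 : EK S (fun F => m / 2 + (m / (4 * V) * (f F * f F) + V / m * ind (m / 2 ≤ f F))) =
      m / 2 + (m / (4 * V) * EK S (fun F => f F * f F) +
        V / m * QK S (fun F => m / 2 ≤ f F)) := by
    unfold EK QK Pr
    rw [Ex_add, Ex_const, Ex_add, Ex_mul_left, Ex_mul_left]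
  rw [e1] at key
  have h3 : m / (4 * V) * EK S (fun F => f F * f F) ≤ m / 4 := by
    calc _ ≤ m / (4 * V) * V := mul_le_mul_of_nonneg_left h2 (by positivity)
      _ = m / 4 := by field_simp
  have h4 : m / 4 ≤ V / m * QK S (fun F => m / 2 ≤ f F) := by linarith
  rw [div_le_iff₀ (by positivity)]
  have h5 : m / 4 * m ≤ V / m * QK S (fun F => m / 2 ≤ f F) * m :=
    mul_le_mul_of_nonneg_right h4 hm.le
  have h6 : V / m * QK S (fun F => m / 2 ≤ f F) * m = V * QK S (fun F => m / 2 ≤ f F) := by
    field_simp
  rw [h6] at h5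
  nlinarith

/-- Independence of the scales. -/
theorem scalesK {S : ι → Finset Edg} {p : ℝ} (hp : p ≤ 1) (J : ℕ) (U : ℕ → Finset (ι × Edg))
    (hU : ∀ j < J, U j ⊆ tot S) (hd : ∀ j < J, ∀ l < j, Disjoint (U l) (U j))
    (B : ℕ → Finset (ι × Edg) → Prop) (hB : ∀ j < J, ∀ G, B j G ↔ B j (G ∩ U j))
    (hpB : ∀ j < J, p ≤ QK S (B j)) :
    QK S (fun G => ∀ j < J, ¬ B j G) ≤ (1 - p) ^ J := by
  induction J with
  | zero =>
    rw [pow_zero]
    exact Pr_le_one hf_ok _ _
  | succ J ih =>
    have ih' := ih (fun j hj => hU j (by omega)) (fun j hj => hd j (by omega))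
      (fun j hj => hB j (by omega)) (fun j hj => hpB j (by omega))
    set T : Finset (ι × Edg) := (Finset.range J).biUnion U with hT
    have hTS : T ⊆ tot S := by
      rw [hT, Finset.biUnion_subset]
      intro j hj
      exact hU j (by have := Finset.mem_range.mp hj; omega)
    have hdis : Disjoint T (U J) := by
      rw [hT, Finset.disjoint_biUnion_left]
      intro j hj
      exact hd J (by omega) j (Finset.mem_range.mp hj)
    have hA : ∀ G : Finset (ι × Edg), G ⊆ tot S → ((∀ j < J, ¬ B j G) ↔
        ∀ j < J, ¬ B j (G ∩ T)) := by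
      intro G _
      refine forall_congr' fun j => ?_
      refine forall_congr' fun hj => ?_
      have hsub : U j ⊆ T := by
        rw [hT]
        exact Finset.subset_biUnion_of_mem U (Finset.mem_range.mpr hj)
      rw [hB j (by omega) G, hB j (by omega) (G ∩ T), Finset.inter_assoc,
        Finset.inter_eq_right.mpr hsub]
    have hB' : ∀ G : Finset (ι × Edg), G ⊆ tot S → (¬ B J G ↔ ¬ B J (G ∩ U J)) := by
      intro G _
      rw [← hB J (by omega) G]
    have h1 : QK S (fun G => ∀ j < J + 1, ¬ B j G) =
        QK S (fun G => (∀ j < J, ¬ B j G) ∧ ¬ B J G) := by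
      unfold QK
      apply Pr_congr
      intro F _
      constructor
      · intro h2
        exact ⟨fun j hj => h2 j (by omega), h2 J (by omega)⟩
      · rintro ⟨h2, h3⟩ j hj
        rcases Nat.lt_or_ge j J with h4 | h4
        · exact h2 j h4
        · have : j = J := by omega
          subst this
          exact h3
    rw [h1]
    have h2 : QK S (fun G => (∀ j < J, ¬ B j G) ∧ ¬ B J G) =
        QK S (fun G => ∀ j < J, ¬ B j G) * QK S (fun G => ¬ B J G) := by
      unfold QK
      exact Pr_indep hTS (hU J (by omega)) hdis hA hB'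
    rw [h2, pow_succ]
    have h4 : QK S (fun G => ¬ B J G) ≤ 1 - p := by
      unfold QK
      rw [Pr_not]
      have := hpB J (by omega)
      unfold QK at this
      linarith
    have h5 : 0 ≤ QK S (fun G => ¬ B J G) := Pr_nonneg hf_ok _ _
    have h6 : (0 : ℝ) ≤ (1 - p) ^ J := pow_nonneg (by linarith) _
    exact mul_le_mul ih' h4 h5 h6

/-! ### The law of the traces -/

omit [Fintype ι] in
theorem Ex_hf {T : Finset (ι × Edg)} (f : Finset (ι × Edg) → ℝ) :
    Ex hf T f = (1 / 2) ^ T.card * ∑ F ∈ T.powerset, f F := by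
  unfold Ex
  rw [Finset.mul_sum]
  apply Finset.sum_congr rfl
  intro F hF
  rw [Finset.mem_powerset] at hF
  unfold hf
  rw [Finset.prod_const, Finset.prod_const, show (1 - 1 / 2 : ℝ) = 1 / 2 by norm_num, ← pow_add]
  congr 2
  rw [Finset.card_sdiff_of_subset hF]
  have := Finset.card_le_card hF
  omega

/-- The law of a function of independent configurations. -/
noncomputable def lawK {Y : Type*} [MeasurableSpace Y] (S : ι → Finset Edg)
    (g : Finset (ι × Edg) → Y) : Measure Y :=
  ∑ G ∈ (tot S).powerset, ENNReal.ofReal ((1/2) ^ (tot S).card) • Measure.dirac (g G)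

theorem lawK_apply {Y : Type*} [MeasurableSpace Y] (S : ι → Finset Edg)
    (g : Finset (ι × Edg) → Y) {B : Set Y} (hB : MeasurableSet B) :
    lawK S g B = ENNReal.ofReal (QK S (fun G => g G ∈ B)) := by
  classical
  unfold lawK
  rw [Measure.finsetSum_apply]
  unfold QK Pr
  rw [Ex_hf, ENNReal.ofReal_mul (by positivity), ENNReal.ofReal_sum_of_nonneg
    (fun _ _ => ind_nonneg _), Finset.mul_sum]
  apply Finset.sum_congr rfl
  intro G _
  rw [Measure.smul_apply, Measure.dirac_apply' _ hB, smul_eq_mul]
  congr 1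
  by_cases h : g G ∈ B
  · rw [ind_of h, Set.indicator_of_mem h]; simp
  · rw [ind_not_of h, Set.indicator_of_notMem h]; simp

/-- The product of the laws of the traces. -/
theorem pi_law (R : ι → Rect) {δ : ι → ℝ} (hδ : ∀ i, 0 < δ i) :
    Measure.pi (fun i => ((R i).law (hδ i) : Measure (NonemptyCompacts ℂ))) =
      lawK (fun i => (R i).edges (δ i)) (fun G i => (R i).trace (hδ i) (sec G i)) := by
  apply Measure.pi_eq
  intro s hs
  rw [lawK_apply _ _ (MeasurableSet.univ_pi hs)]
  have e1 : QK (fun i => (R i).edges (δ i)) (fun G =>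
      (fun i => (R i).trace (hδ i) (sec G i)) ∈ Set.univ.pi s) =
      ∏ i, Q ((R i).edges (δ i)) (fun F => (R i).trace (hδ i) F ∈ s i) := by
    rw [← QK_forall]
    congr 1
    funext G
    simp only [Set.mem_pi, Set.mem_univ, true_implies]
  rw [e1, ENNReal.ofReal_prod_of_nonneg (fun i _ => Pr_nonneg okhalf _ _)]
  apply Finset.prod_congr rfl
  intro i _
  exact ((R i).lawM_apply (hδ i) (hs i)).symm

/-- Probabilities for the product law. -/
theorem pi_law_apply (R : ι → Rect) {δ : ι → ℝ} (hδ : ∀ i, 0 < δ i)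
    {B : Set (ι → NonemptyCompacts ℂ)} (hB : MeasurableSet B) :
    Measure.pi (fun i => ((R i).law (hδ i) : Measure (NonemptyCompacts ℂ))) B =
      ENNReal.ofReal (QK (fun i => (R i).edges (δ i)) (fun G =>
        (fun i => (R i).trace (hδ i) (sec G i)) ∈ B)) := by
  rw [pi_law, lawK_apply _ _ hB]

end L98X
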