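import Pool.Agent.H934R3.D74.T3
import Pool.Agent.H934R3.D74.T12

/-!
Two-point upper bound for discs of radius `ρ`.
-/

set_option autoImplicit false

namespace L98X

open H974 H973 H12S H934E H934F Finset

theorem nd_le {v z : Vtx} {ρ : ℤ} (h : nd v z ≤ ρ) :
    (v.1 - z.1 ≤ ρ ∧ z.1 - v.1 ≤ ρ) ∧ (v.2 - z.2 ≤ ρ ∧ z.2 - v.2 ≤ ρ) := by
  unfold nd at h
  rw [max_le_iff, abs_le, abs_le] at h
  omega

/-- The event for a disc. -/
def Dv (s : Bool × Bool) (h : ℤ) (z : Vtx) (ρ : ℤ) (F : Finset Edg) : Prop :=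
  ∃ v : Vtx, nd v z ≤ ρ ∧ E2 s h v F

theorem near_r {s : Bool × Bool} {h : ℤ} {v z : Vtx} {F : Finset Edg} (ρ R : ℕ)
    (hv : nd v z ≤ ρ) (hR : (ρ : ℤ) + R ≤ 6 * h) (hE : E2 s h v F) :
    t3_An (t3_B z R) z (ρ + 1) R F := by
  obtain ⟨⟨y, hy, h1⟩, ⟨g, hg, h2⟩⟩ := hE
  have hn := nd_le hv
  constructor
  · obtain ⟨w, hw, hp⟩ := t3_reach (G := (↑(F ∩ t3_B z R) : Set Edg))
      (X := (↑(t3_B z R) : Set Edg)) (t3_in z R)
      (fun e _ he => by exact_mod_cast t3_edge_near he) (by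
        rw [Finset.coe_inter]
        exact fun e he => ⟨he.1.1, he.2⟩) h1 (by unfold t3_in; omega)
    refine ⟨v, w, ?_, ?_, hp⟩
    · unfold inR; push_cast; omega
    · unfold t3_in at hw; omega
  · obtain ⟨w, hw, hp⟩ := t3_dreach (G := (↑(t3_B z R \ F) : Set Edg))
      (X := (↑(t3_B z R) : Set Edg)) (t3_in z R)
      (fun e _ he => by exact_mod_cast t3_edge_near' he) (by
        rw [Finset.coe_sdiff, Finset.coe_sdiff]
        exact fun e he => ⟨he.2, he.1.2⟩) h2 (by unfold t3_in; omega)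
    have := t3_cface v s
    refine ⟨cface v s, w, ?_, ?_, hp⟩
    · unfold inR; push_cast; omega
    · unfold t3_in at hw; omega

theorem far_r {s : Bool × Bool} {h : ℤ} {v z : Vtx} {F S : Finset Edg} (ρ m R : ℕ)
    (hv : nd v z ≤ ρ) (hm : ρ + 1 ≤ m) (hR : (ρ : ℤ) + R ≤ 6 * h) (hmR : m < R)
    (hS : RE (v.1 - 6 * h) (v.1 + 6 * h) (v.2 - 2 * h) (v.2 + 2 * h) ⊆ S) (hE : E2 s h v F) :
    t3_An (S \ t3_B z (m - 1 : ℤ)) z m R F := by
  obtain ⟨⟨y, hy, h1⟩, ⟨g, hg, h2⟩⟩ := hE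
  have hn := nd_le hv
  have hh0 : 0 ≤ h := by omega
  constructor
  · obtain ⟨w, hw, hp⟩ := t3_reach (G := (↑(F ∩ (S \ t3_B z (m - 1 : ℤ))) : Set Edg))
      (X := (↑(t3_B z (m - 1 : ℤ)) : Set Edg)ᶜ)
      (fun w => ¬ (z.1 - m ≤ w.1 ∧ w.1 ≤ z.1 + m ∧ z.2 - m ≤ w.2 ∧ w.2 ≤ z.2 + m))
      (fun e _ he => by
        intro h3
        have h4 := t3_edge_far (e := e) (Finset.mem_coe.mp h3)
        omega) (by
        rw [Finset.coe_inter, Finset.coe_sdiff]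
        refine fun e he => ⟨he.1.1, ?_, he.2⟩
        have h3 : e ∈ RE (v.1 - 6 * h) (v.1 + 2 * h) (v.2 - 2 * h) (v.2 + 2 * h) :=
          Finset.mem_coe.1 he.1.2
        exact Finset.mem_coe.2 (hS (RE_subset (by omega) (by omega) (by omega) (by omega) h3)))
      h1.symm (by omega)
    refine ⟨w, y, ?_, ?_, hp.symm⟩
    · unfold inR; omega
    · omega
  · obtain ⟨w, hw, hp⟩ := t3_dreach (G := (↑((S \ t3_B z (m - 1 : ℤ)) \ F) : Set Edg))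
      (X := (↑(t3_B z (m - 1 : ℤ)) : Set Edg)ᶜ)
      (fun w => ¬ (z.1 - m ≤ w.1 ∧ w.1 ≤ z.1 + m ∧ z.2 - m ≤ w.2 ∧ w.2 ≤ z.2 + m))
      (fun e _ he => by
        intro h3
        have h4 := t3_edge_far (e := e) (Finset.mem_coe.mp h3)
        omega) (by
        rw [Finset.coe_sdiff, Finset.coe_sdiff, Finset.coe_sdiff]
        refine fun e he => ⟨⟨?_, he.2⟩, he.1.2⟩
        have h3 : e ∈ RE (v.1 - 2 * h) (v.1 + 6 * h) (v.2 - 2 * h) (v.2 + 2 * h) :=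
          Finset.mem_coe.1 he.1.1
        exact Finset.mem_coe.2 (hS (RE_subset (by omega) (by omega) (by omega) (by omega) h3)))
      h2.symm (by
        have := t3_cface v s
        omega)
    refine ⟨w, g, ?_, ?_, hp.symm⟩
    · unfold inR; omega
    · omega

/-- numbers -/
theorem num_r {C : ℝ} (hC : 0 < C) {ρ R1 K H R3 : ℝ} (hρ : 1 ≤ ρ) (hK : 0 < K) (hH : 0 < H)
    (hR1 : K ≤ 4 * R1) (hR3 : 2 * H ≤ R3)
    {q1 q2 q3 : ℝ} (h1 : q1 ≤ C * ((ρ + 1) / R1) ^ (1/4 : ℝ))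
    (h2 : q2 ≤ C * ((ρ + 1) / R1) ^ (1/4 : ℝ)) (h3 : q3 ≤ C * (2 * K / R3) ^ (1/4 : ℝ))
    (h02 : 0 ≤ q2) (h03 : 0 ≤ q3) :
    q1 * (q2 * q3) ≤ 3 * C ^ 3 * ((ρ / H) ^ (1/4 : ℝ) * (ρ / K) ^ (1/4 : ℝ)) := by
  have hR10 : 0 < R1 := by linarith
  have hR30 : 0 < R3 := by linarith
  have e1 : ((ρ + 1) / R1) ^ (1/4 : ℝ) ≤ (8 : ℝ) ^ (1/4 : ℝ) * (ρ / K) ^ (1/4 : ℝ) := by
    rw [← Real.mul_rpow (by norm_num) (by positivity)]
    apply Real.rpow_le_rpow (by positivity) _ (by norm_num)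
    rw [← mul_div_assoc, div_le_div_iff₀ hR10 hK]
    nlinarith
  have e2 : (2 * K / R3) ^ (1/4 : ℝ) ≤ (K / H) ^ (1/4 : ℝ) := by
    apply Real.rpow_le_rpow (by positivity) _ (by norm_num)
    rw [div_le_div_iff₀ hR30 hH]
    nlinarith
  have e3 : (8 : ℝ) ^ (1/4 : ℝ) * (8 : ℝ) ^ (1/4 : ℝ) ≤ 3 := by
    rw [← Real.rpow_add (by norm_num), show (1/4 + 1/4 : ℝ) = 1/2 by norm_num,
      ← Real.sqrt_eq_rpow]
    rw [Real.sqrt_le_left (by norm_num)]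
    norm_num
  have e4 : (ρ / K) ^ (1/4 : ℝ) * (K / H) ^ (1/4 : ℝ) = (ρ / H) ^ (1/4 : ℝ) := by
    rw [← Real.mul_rpow (by positivity) (by positivity)]
    congr 1
    field_simp
  set a := (8 : ℝ) ^ (1/4 : ℝ) with ha
  set b := (ρ / K) ^ (1/4 : ℝ) with hb
  set c := (K / H) ^ (1/4 : ℝ) with hc
  have a0 : 0 < a := by positivity
  have b0 : 0 < b := by positivity
  have c0 : 0 < c := by positivity
  have g1 := h1.trans (mul_le_mul_of_nonneg_left e1 hC.le)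
  have g2 := h2.trans (mul_le_mul_of_nonneg_left e1 hC.le)
  have g3 := h3.trans (mul_le_mul_of_nonneg_left e2 hC.le)
  calc q1 * (q2 * q3) ≤ (C * (a * b)) * ((C * (a * b)) * (C * c)) := by
        apply mul_le_mul g1 (mul_le_mul g2 g3 h03 (by positivity)) (by positivity) (by positivity)
    _ = (a * a) * (C ^ 3 * ((b * c) * b)) := by ring
    _ ≤ 3 * (C ^ 3 * ((b * c) * b)) := mul_le_mul_of_nonneg_right e3 (by positivity)
    _ = 3 * C ^ 3 * ((ρ / H) ^ (1/4 : ℝ) * b) := by rw [e4]; ring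

theorem num_small {C : ℝ} (hC : 0 < C) {ρ K H : ℝ} (hρ : 1 ≤ ρ) (hK : K ≤ 12 * ρ) (hH : 0 < H)
    {q : ℝ} (h : q ≤ C * ((ρ + 1) / (2 * H)) ^ (1/4 : ℝ)) :
    q ≤ 2 * C * ((ρ / H) ^ (1/4 : ℝ) * (ρ / max K ρ) ^ (1/4 : ℝ)) := by
  have e1 : ((ρ + 1) / (2 * H)) ^ (1/4 : ℝ) ≤ (ρ / H) ^ (1/4 : ℝ) := by
    apply Real.rpow_le_rpow (by positivity) _ (by norm_num)
    rw [div_le_div_iff₀ (by positivity) hH]
    nlinarith
  have e2 : (1/2 : ℝ) ≤ (ρ / max K ρ) ^ (1/4 : ℝ) := by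
    have h1 : (1/2 : ℝ) = ((1/16 : ℝ)) ^ (1/4 : ℝ) := by
      rw [show (1/16 : ℝ) = (1/2) ^ (4 : ℝ) by norm_num, ← Real.rpow_mul (by norm_num)]
      norm_num
    rw [h1]
    apply Real.rpow_le_rpow (by norm_num) _ (by norm_num)
    have h2 : max K ρ ≤ 12 * ρ := max_le hK (by linarith)
    have h3 : 0 < max K ρ := lt_of_lt_of_le (by linarith) (le_max_right _ _)
    rw [div_le_div_iff₀ (by norm_num) h3]
    linarith
  have b0 : 0 < (ρ / H) ^ (1/4 : ℝ) := by positivity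
  calc q ≤ C * (ρ / H) ^ (1/4 : ℝ) := h.trans (mul_le_mul_of_nonneg_left e1 hC.le)
    _ = 2 * C * ((ρ / H) ^ (1/4 : ℝ) * (1/2)) := by ring
    _ ≤ _ := by
      apply mul_le_mul_of_nonneg_left _ (by positivity)
      exact mul_le_mul_of_nonneg_left e2 b0.le

/-- Two-point upper bound for discs. -/
theorem two_r (hA : St_A) : ∃ C : ℝ, 0 < C ∧ ∀ (h ρ : ℤ), 1 ≤ ρ → ρ ≤ h → ∀ z w : Vtx,
    nd z w ≤ 2 * h → ∀ S : Finset Edg,
    (∀ v, nd v z ≤ ρ → RE (v.1 - 6 * h) (v.1 + 6 * h) (v.2 - 2 * h) (v.2 + 2 * h) ⊆ S) →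
    (∀ v, nd v w ≤ ρ → RE (v.1 - 6 * h) (v.1 + 6 * h) (v.2 - 2 * h) (v.2 + 2 * h) ⊆ S) →
    ∀ s : Bool × Bool, Q S (fun F => Dv s h z ρ F ∧ Dv s h w ρ F) ≤
      C * (((ρ : ℝ) / h) ^ (1/4 : ℝ) * ((ρ : ℝ) / max ((nd z w : ℤ) : ℝ) ρ) ^ (1/4 : ℝ)) := by
  obtain ⟨C, hC, hA⟩ := hA
  refine ⟨3 * C ^ 3 + 2 * C, by positivity, ?_⟩
  intro h ρ hρ hρh z w hzw S hz hw s
  obtain ⟨H, rfl⟩ := Int.eq_ofNat_of_zero_le (show 0 ≤ h by omega)
  obtain ⟨r, rfl⟩ := Int.eq_ofNat_of_zero_le (show 0 ≤ ρ by omega)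
  have hk0 : 0 ≤ nd z w := le_max_of_le_left (abs_nonneg _)
  obtain ⟨K, hK⟩ := Int.eq_ofNat_of_zero_le hk0
  rw [hK] at hzw ⊢
  have hr1 : 1 ≤ r := by omega
  have hrH : r ≤ H := by omega
  have hr1' : (1 : ℝ) ≤ r := by exact_mod_cast hr1
  have hH1' : (0 : ℝ) < H := by
    have : 0 < H := by omega
    exact_mod_cast this
  have e1 : (((r : ℕ) : ℤ) : ℝ) = (r : ℝ) := by norm_cast
  have e2 : (((H : ℕ) : ℤ) : ℝ) = (H : ℝ) := by norm_cast
  have e3 : (((K : ℕ) : ℤ) : ℝ) = (K : ℝ) := by norm_cast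
  rw [e1, e2, e3]
  have hzz : nd z z ≤ r := by unfold nd; simp
  have hww : nd w w ≤ r := by unfold nd; simp
  have hKH : K ≤ 2 * H := by omega
  have nn : 0 ≤ ((r : ℝ) / H) ^ (1/4 : ℝ) * ((r : ℝ) / max (K : ℝ) r) ^ (1/4 : ℝ) := by positivity
  by_cases hKr : K < 12 * r
  · have hBS : t3_B z ((2 * H : ℕ) : ℤ) ⊆ S := by
      refine Finset.Subset.trans (RE_subset ?_ ?_ ?_ ?_) (hz z hzz) <;> push_cast <;> omega
    have h1 : Q S (fun F => Dv s H z r F ∧ Dv s H w r F) ≤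
        Q S (t3_An (t3_B z ((2 * H : ℕ) : ℤ)) z (r + 1) (2 * H)) := by
      apply Q_mono
      rintro F _ ⟨⟨v, hv, hE⟩, _⟩
      exact near_r r (2 * H) hv (by push_cast; omega) hE
    have h2 := h1.trans (t3_pr hA hBS z (by omega : 1 ≤ r + 1) (by omega : r + 1 ≤ 2 * H))
    push_cast at h2
    have h3 := num_small hC (K := (K : ℝ)) hr1' (by
      have : K ≤ 12 * r := hKr.le
      exact_mod_cast this) hH1' h2
    refine h3.trans ?_
    have : 0 ≤ 3 * C ^ 3 := by positivity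
    nlinarith
  · obtain ⟨R1, hR1, hR2⟩ : ∃ R1 : ℕ, 2 * R1 < K ∧ K ≤ 4 * R1 := ⟨(K - 1) / 2, by omega, by omega⟩
    set X1 := t3_B z R1 with hX1
    set X2 := t3_B w R1 with hX2
    set X3 := S \ t3_B z (((2 * K : ℕ) : ℤ) - 1) with hX3
    have s1 : X1 ⊆ S := by
      refine Finset.Subset.trans (RE_subset ?_ ?_ ?_ ?_) (hz z hzz) <;> omega
    have s2 : X2 ⊆ S := by
      refine Finset.Subset.trans (RE_subset ?_ ?_ ?_ ?_) (hw w hww) <;> omega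
    have s3 : X3 ⊆ S := Finset.sdiff_subset
    have d12 : Disjoint X1 X2 := t3_disj hK hR1
    have d13 : Disjoint X1 X3 :=
      Finset.disjoint_of_subset_left (t3_sub' hR1) Finset.disjoint_sdiff
    have d23 : Disjoint X2 X3 :=
      Finset.disjoint_of_subset_left (t3_sub hK hR1) Finset.disjoint_sdiff
    have i23 : Q S (fun F => t3_An X2 w (r + 1) R1 F ∧ t3_An X3 z (2 * K) (5 * H) F) =
        Q S (t3_An X2 w (r + 1) R1) * Q S (t3_An X3 z (2 * K) (5 * H)) :=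
      Pr_indep s2 s3 d23 (fun F _ => t3_loc _ _ _ _ F) (fun F _ => t3_loc _ _ _ _ F)
    have i1 : Q S (fun F => t3_An X1 z (r + 1) R1 F ∧
        (t3_An X2 w (r + 1) R1 F ∧ t3_An X3 z (2 * K) (5 * H) F)) =
        Q S (t3_An X1 z (r + 1) R1) *
          Q S (fun F => t3_An X2 w (r + 1) R1 F ∧ t3_An X3 z (2 * K) (5 * H) F) := by
      apply Pr_indep s1 (Finset.union_subset s2 s3) (Finset.disjoint_union_right.2 ⟨d12, d13⟩)
        (fun F _ => t3_loc _ _ _ _ F)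
      intro F _
      rw [t3_loc' (X := X2) Finset.subset_union_left (Y := X2 ∪ X3),
        t3_loc' (X := X3) Finset.subset_union_right (Y := X2 ∪ X3)]
    have h1 : Q S (fun F => Dv s H z r F ∧ Dv s H w r F) ≤
        Q S (fun F => t3_An X1 z (r + 1) R1 F ∧
          (t3_An X2 w (r + 1) R1 F ∧ t3_An X3 z (2 * K) (5 * H) F)) := by
      apply Q_mono
      rintro F _ ⟨⟨v, hv, hE⟩, ⟨v', hv', hE'⟩⟩
      exact ⟨near_r r R1 hv (by omega) hE, near_r r R1 hv' (by omega) hE',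
        far_r r (2 * K) (5 * H) hv (by omega) (by push_cast; omega) (by omega) (hz v hv) hE⟩
    rw [i1, i23] at h1
    have p1 := t3_pr hA s1 z (by omega : 1 ≤ r + 1) (by omega : r + 1 ≤ R1)
    have p2 := t3_pr hA s2 w (by omega : 1 ≤ r + 1) (by omega : r + 1 ≤ R1)
    have p3 := t3_pr hA s3 z (by omega : 1 ≤ 2 * K) (by omega : 2 * K ≤ 5 * H)
    push_cast at p1 p2 p3
    have hK0 : (0 : ℝ) < K := by
      have : 0 < K := by omega
      exact_mod_cast this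
    have h2 := num_r hC (ρ := r) (R1 := R1) (K := K) (H := H) (R3 := 5 * H) hr1' hK0 hH1'
      (by exact_mod_cast hR2) (by linarith) p1 p2 p3 (Q_nonneg _ _) (Q_nonneg _ _)
    have hmax : max (K : ℝ) r = K := by
      apply max_eq_left
      have : r ≤ K := by omega
      exact_mod_cast this
    rw [hmax] at nn ⊢
    refine (h1.trans h2).trans ?_
    nlinarith

end L98X
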